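import Pool.Agent.K7.H2.FO.Arcs

set_option autoImplicit false

/-! Certificates for the number of bumps when the two rotations satisfy `9 v - n ψ ∈ ℤ`. -/

namespace Pool.Agent.K7.H2.RR

open Finset Pool.Agent.K7.H2.FO

/-- the test of an index for `c ≤ M ψ ≤ c'` -/
def tst (n : ℕ) (M A1 b1 b2 z c c' : ℤ) (i : ℕ) : Bool :=
  decide (c + A1 * i < M) &&
  (if (n * c + M * z + 9 * b1 * i) / (9 * M) = (n * c' + M * z + 9 * b2 * i - 1) / (9 * M) then
    decide (9 * M * ((n * c + M * z + 9 * b1 * i) / (9 * M)) <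
      (n - 9) * c' + M * z + 9 * (b2 - A1) * i) else true)

/-- computable bound for the number of bumps -/
def cntD (n : ℕ) (M A1 b1 b2 z c c' : ℤ) (L : ℕ) : ℕ :=
  ((List.range L).filter (tst n M A1 b1 b2 z c c')).length

theorem bumps_leD {n : ℕ} {M A1 b1 b2 z c c' : ℤ} (hn : 9 ≤ n) (hM : 0 < M) {α β ψ : ℝ}
    (h1 : (b1 : ℝ) ≤ M * β) (h2 : (M : ℝ) * β ≤ b2) (h3 : (A1 : ℝ) ≤ M * α) (h4 : (c : ℝ) ≤ M * ψ)
    (h5 : (M : ℝ) * ψ < c') (L : ℕ) :
    (bumps L α β ψ ((n * ψ + z) / 9)).card ≤ cntD n M A1 b1 b2 z c c' L := by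
  unfold bumps cntD
  refine card_filter_list L (fun i => ψ + α * i < Int.fract ((n * ψ + z) / 9 + β * i)) _ fun i hi hlt => ?_
  unfold tst
  have hMR : (0 : ℝ) < M := by exact_mod_cast hM
  have h7 : (0 : ℝ) ≤ i := Nat.cast_nonneg i
  rw [Bool.and_eq_true, decide_eq_true_eq]
  refine ⟨?_, ?_⟩
  · have h8 := Int.fract_lt_one (((n : ℝ) * ψ + z) / 9 + β * i)
    have h9 : (M : ℝ) * (ψ + α * i) < M * 1 := mul_lt_mul_of_pos_left (by linarith) hMR
    have g5 : (A1 : ℝ) * i ≤ M * α * i := mul_le_mul_of_nonneg_right h3 h7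
    have h10 : ((c + A1 * i : ℤ) : ℝ) < M := by push_cast; linarith
    exact_mod_cast h10
  split_ifs with hfl
  · rw [decide_eq_true_eq]
    have hM9 : (0 : ℤ) < 9 * M := by omega
    have hn0 : (0 : ℝ) ≤ n := Nat.cast_nonneg n
    have hn9 : (0 : ℝ) ≤ (n : ℝ) - 9 := by
      have : (9 : ℝ) ≤ n := by exact_mod_cast hn
      linarith
    obtain ⟨k, hk⟩ : ∃ k, k = (n * c + M * z + 9 * b1 * i) / (9 * M) := ⟨_, rfl⟩
    rw [← hk]
    have e1 : 9 * M * k + (n * c + M * z + 9 * b1 * i) % (9 * M) = n * c + M * z + 9 * b1 * i := by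
      rw [hk]; exact Int.mul_ediv_add_emod _ (9 * M)
    have e2 : 9 * M * k + (n * c' + M * z + 9 * b2 * i - 1) % (9 * M) =
        n * c' + M * z + 9 * b2 * i - 1 := by
      rw [hk, hfl]; exact Int.mul_ediv_add_emod _ (9 * M)
    have e3 := Int.emod_lt_of_pos (n * c' + M * z + 9 * b2 * i - 1) hM9
    have e4 := Int.emod_nonneg (n * c + M * z + 9 * b1 * i) hM9.ne'
    have f1 : 9 * M * k ≤ n * c + M * z + 9 * b1 * i := by omega
    have f2 : n * c' + M * z + 9 * b2 * i ≤ 9 * M * k + 9 * M := by omega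
    have f1R : 9 * (M : ℝ) * k ≤ n * c + M * z + 9 * b1 * i := by exact_mod_cast f1
    have f2R : (n : ℝ) * c' + M * z + 9 * b2 * i ≤ 9 * M * k + 9 * M := by exact_mod_cast f2
    have g1 : (n : ℝ) * c ≤ n * (M * ψ) := mul_le_mul_of_nonneg_left h4 hn0
    have hn1 : (0 : ℝ) < n := by
      have : (9 : ℝ) ≤ n := by exact_mod_cast hn
      linarith
    have g2 : (n : ℝ) * (M * ψ) < n * c' := mul_lt_mul_of_pos_left h5 hn1
    have g3 : (b1 : ℝ) * i ≤ M * β * i := mul_le_mul_of_nonneg_right h1 h7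
    have g4 : M * β * i ≤ (b2 : ℝ) * i := mul_le_mul_of_nonneg_right h2 h7
    have g5 : (A1 : ℝ) * i ≤ M * α * i := mul_le_mul_of_nonneg_right h3 h7
    have g6 : ((n : ℝ) - 9) * (M * ψ) ≤ (n - 9) * c' := mul_le_mul_of_nonneg_left h5.le hn9
    have e5 : 9 * (M : ℝ) * ((n * ψ + z) / 9 + β * i) = n * (M * ψ) + M * z + 9 * (M * β * i) := by ring
    have hflr : ⌊((n : ℝ) * ψ + z) / 9 + β * i⌋ = k := by
      rw [Int.floor_eq_iff]
      have hM9R : (0 : ℝ) < 9 * M := by positivity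
      constructor
      · have : 9 * (M : ℝ) * k ≤ 9 * M * ((n * ψ + z) / 9 + β * i) := by rw [e5]; linarith
        exact le_of_mul_le_mul_left this hM9R
      · have : 9 * (M : ℝ) * ((n * ψ + z) / 9 + β * i) < 9 * M * (k + 1) := by rw [e5]; linarith
        exact lt_of_mul_lt_mul_left this hM9R.le
    rw [Int.fract, hflr] at hlt
    have h8 := mul_lt_mul_of_pos_left hlt (show (0 : ℝ) < 9 * M by positivity)
    have e6 : 9 * (M : ℝ) * ((n * ψ + z) / 9 + β * i - k) =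
        n * (M * ψ) + M * z + 9 * (M * β * i) - 9 * M * k := by ring
    rw [e6] at h8
    have h9 : ((9 * M * k : ℤ) : ℝ) < (((n - 9) * c' + M * z + 9 * (b2 - A1) * i : ℤ) : ℝ) := by
      push_cast
      linarith
    exact_mod_cast h9
  · rfl

/-- the table of a class -/
def okc (n : ℕ) (M A1 A2 b1 b2 G : ℤ) (L : ℕ) (z : ℤ) : ℤ → List (ℤ × ℕ) → Bool
  | c, [] => decide (A2 ≤ c)
  | c, (c', q) :: rest =>
    (decide (cntD n M A1 b1 b2 z c c' L ≤ q) &&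
      decide (c' + A2 * ((q : ℤ) - 1) ≤ G)) && okc n M A1 A2 b1 b2 G L z c' rest

theorem okc_spec {n : ℕ} {M A1 A2 b1 b2 G : ℤ} {L : ℕ} {z : ℤ} (hn : 9 ≤ n) (hM : 0 < M) {α β γ : ℝ} (hα : 0 ≤ α)
    (hb1 : (b1 : ℝ) ≤ M * β) (hb2 : (M : ℝ) * β ≤ b2) (hA1 : (A1 : ℝ) ≤ M * α)
    (hA2 : (M : ℝ) * α ≤ A2) (hG : (G : ℝ) ≤ M * γ)
    {ψ : ℝ} (hψα : ψ < α) : ∀ (tab : List (ℤ × ℕ)) (c : ℤ), (c : ℝ) ≤ M * ψ →
    okc n M A1 A2 b1 b2 G L z c tab = true →
    (bumps L α β ψ ((n * ψ + z) / 9)).card = 0 ∨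
      ψ + α * (((bumps L α β ψ ((n * ψ + z) / 9)).card : ℝ) - 1) ≤ γ := by
  have hMR : (0 : ℝ) < M := by exact_mod_cast hM
  intro tab
  induction tab with
  | nil =>
    intro c hc h
    exfalso
    unfold okc at h
    rw [decide_eq_true_eq] at h
    have h' : (A2 : ℝ) ≤ c := by exact_mod_cast h
    have := mul_lt_mul_of_pos_left hψα hMR
    linarith
  | cons hd rest ih =>
    obtain ⟨c', q⟩ := hd
    intro c hc h
    unfold okc at h
    rw [Bool.and_eq_true, Bool.and_eq_true, decide_eq_true_eq, decide_eq_true_eq] at h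
    obtain ⟨⟨h3, h4⟩, h5⟩ := h
    rcases le_or_gt (c' : ℝ) (M * ψ) with h1 | h1
    · exact ih c' h1 h5
    · rcases Nat.eq_zero_or_pos (bumps L α β ψ ((n * ψ + z) / 9)).card with he | hpos
      · exact Or.inl he
      · right
        have h6 := bumps_leD (z := z) (c' := c') hn hM hb1 hb2 hA1 hc h1 L
        have h8 : ((bumps L α β ψ ((n * ψ + z) / 9)).card : ℝ) ≤ q := by exact_mod_cast (h6.trans h3)
        have h4R : (c' : ℝ) + A2 * ((q : ℝ) - 1) ≤ G := by exact_mod_cast h4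
        have hposR : (1 : ℝ) ≤ ((bumps L α β ψ ((n * ψ + z) / 9)).card : ℝ) := by exact_mod_cast hpos
        have h9 : M * α * (((bumps L α β ψ ((n * ψ + z) / 9)).card : ℝ) - 1) ≤ A2 * ((q : ℝ) - 1) := by
          apply mul_le_mul hA2 (by linarith) (by linarith)
          exact le_trans (mul_nonneg hMR.le hα) hA2
        have h10 : (M : ℝ) * (ψ + α * (((bumps L α β ψ ((n * ψ + z) / 9)).card : ℝ) - 1)) ≤ M * γ := by
          rw [mul_add, ← mul_assoc]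
          linarith
        exact le_of_mul_le_mul_left h10 hMR

/-- the certificate: slopes, threshold `u / 1000` and tables of the nine classes -/
def cer (n : ℕ) (M s1 s2 A1 A2 b1 b2 G u : ℤ) (L : ℕ) (tabs : List (List (ℤ × ℕ))) : Bool :=
  decide (0 < M ∧ 3 * M < s1 ∧ s1 * s1 ≤ n * M * M ∧ n * M * M ≤ s2 * s2 ∧ 0 < s2 ∧
    0 ≤ b1 ∧ 3 * b1 * (s2 - 3 * M) ≤ M * M ∧ 0 ≤ b2 ∧ M * M ≤ 3 * b2 * (s1 - 3 * M) ∧
    0 ≤ A1 ∧ A1 * (n * M - 3 * s1) ≤ M * M ∧ 0 ≤ A2 ∧ M * M ≤ A2 * (n * M - 3 * s2) ∧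
    n * M - 3 * s1 ≤ L * M ∧ M ≤ 2 * G ∧ 1000 * (2 * G - M) * (s2 - 3 * M) ≤ M * M * u) &&
  (List.range 9).all fun z => okc n M A1 A2 b1 b2 G L z 0 (tabs.getD z [])

theorem bumps_int (L : ℕ) (α β c v : ℝ) (z : ℤ) : bumps L α β c (v + z) = bumps L α β c v := by
  unfold bumps
  congr 1
  ext i
  have e : v + z + β * i = v + β * i + z := by ring
  rw [e, Int.fract_add_intCast]

theorem cer_spec {n : ℕ} {M s1 s2 A1 A2 b1 b2 G u : ℤ} {L : ℕ} {tabs : List (List (ℤ × ℕ))}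
    (hn : 9 ≤ n) (hc : cer n M s1 s2 A1 A2 b1 b2 G u L tabs = true) {s g : ℝ} (hs : s * s = n) (hs3 : 3 < s)
    (hg : (u : ℝ) ≤ 1000 * ((2 * g - 1) * (s - 3))) :
    0 ≤ g ∧ s * (s - 3) ≤ L ∧ ∀ (ψ : ℝ) (z : ℤ), 0 ≤ ψ → ψ * (s * (s - 3)) < 1 →
      (bumps L (1 / (s * (s - 3))) (1 / (3 * (s - 3))) ψ ((n * ψ + z) / 9)).card = 0 ∨
      ψ + 1 / (s * (s - 3)) *
        (((bumps L (1 / (s * (s - 3))) (1 / (3 * (s - 3))) ψ ((n * ψ + z) / 9)).card : ℝ) - 1) ≤ g := by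
  have hs0 : 0 < s := by linarith
  have hs3' : 0 < s - 3 := by linarith
  have hD : 0 < s * (s - 3) := mul_pos hs0 hs3'
  unfold cer at hc
  rw [Bool.and_eq_true, decide_eq_true_eq, List.all_eq_true] at hc
  obtain ⟨⟨c1, c2, c3, c4, c5, c6, c7, c8, c9, c10, c11, c12, c13, c14, c15, c16⟩, ht⟩ := hc
  have c1R : (0 : ℝ) < M := by exact_mod_cast c1
  have c2R : 3 * (M : ℝ) < s1 := by exact_mod_cast c2
  have c3R : (s1 : ℝ) * s1 ≤ n * M * M := by exact_mod_cast c3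
  have c4R : (n : ℝ) * M * M ≤ s2 * s2 := by exact_mod_cast c4
  have c5R : (0 : ℝ) < s2 := by exact_mod_cast c5
  have c6R : (0 : ℝ) ≤ b1 := by exact_mod_cast c6
  have c7R : 3 * (b1 : ℝ) * (s2 - 3 * M) ≤ M * M := by exact_mod_cast c7
  have c8R : (0 : ℝ) ≤ b2 := by exact_mod_cast c8
  have c9R : (M : ℝ) * M ≤ 3 * b2 * (s1 - 3 * M) := by exact_mod_cast c9
  have c10R : (0 : ℝ) ≤ A1 := by exact_mod_cast c10
  have c11R : (A1 : ℝ) * (n * M - 3 * s1) ≤ M * M := by exact_mod_cast c11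
  have c12R : (0 : ℝ) ≤ A2 := by exact_mod_cast c12
  have c13R : (M : ℝ) * M ≤ A2 * (n * M - 3 * s2) := by exact_mod_cast c13
  have c14R : (n : ℝ) * M - 3 * s1 ≤ L * M := by exact_mod_cast c14
  have c15R : (M : ℝ) ≤ 2 * G := by exact_mod_cast c15
  have c16R : 1000 * (2 * (G : ℝ) - M) * (s2 - 3 * M) ≤ M * M * u := by exact_mod_cast c16
  have hlo : (s1 : ℝ) ≤ M * s := by
    refine abs_le_of_sq_le_sq' ?_ (by positivity) |>.2
    have e : (M * s) ^ 2 = n * M * M := by rw [← hs]; ring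
    rw [e]; linarith
  have hhi : (M : ℝ) * s ≤ s2 := by
    refine abs_le_of_sq_le_sq' ?_ c5R.le |>.2
    have e : (M * s) ^ 2 = n * M * M := by rw [← hs]; ring
    rw [e]; linarith
  obtain ⟨α, hα⟩ : ∃ α, α = 1 / (s * (s - 3)) := ⟨_, rfl⟩
  obtain ⟨β, hβ⟩ : ∃ β, β = 1 / (3 * (s - 3)) := ⟨_, rfl⟩
  rw [← hα, ← hβ]
  have hα0 : 0 < α := by rw [hα]; positivity
  have nb1 : (b1 : ℝ) ≤ M * β := by
    rw [hβ, mul_one_div, le_div_iff₀ (by positivity)]
    have h1 : 3 * (b1 : ℝ) * (M * s - 3 * M) ≤ 3 * b1 * (s2 - 3 * M) :=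
      mul_le_mul_of_nonneg_left (by linarith) (by positivity)
    have h2 : (M : ℝ) * (b1 * (3 * (s - 3))) ≤ M * M := by linarith
    exact le_of_mul_le_mul_left h2 c1R
  have nb2 : (M : ℝ) * β ≤ b2 := by
    rw [hβ, mul_one_div, div_le_iff₀ (by positivity)]
    have h1 : 3 * (b2 : ℝ) * (s1 - 3 * M) ≤ 3 * b2 * (M * s - 3 * M) :=
      mul_le_mul_of_nonneg_left (by linarith) (by positivity)
    have h2 : (M : ℝ) * M ≤ M * (b2 * (3 * (s - 3))) := by linarith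
    exact le_of_mul_le_mul_left h2 c1R
  have nA1 : (A1 : ℝ) ≤ M * α := by
    rw [hα, mul_one_div, le_div_iff₀ (by positivity)]
    have h1 : (A1 : ℝ) * (n * M - 3 * (M * s)) ≤ A1 * (n * M - 3 * s1) :=
      mul_le_mul_of_nonneg_left (by linarith) c10R
    have h2 : (M : ℝ) * (A1 * (s * (s - 3))) ≤ M * M := by
      have e : (M : ℝ) * (A1 * (s * (s - 3))) = A1 * (n * M - 3 * (M * s)) := by rw [← hs]; ring
      rw [e]; linarith
    exact le_of_mul_le_mul_left h2 c1R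
  have nA2 : (M : ℝ) * α ≤ A2 := by
    rw [hα, mul_one_div, div_le_iff₀ (by positivity)]
    have h1 : (A2 : ℝ) * (n * M - 3 * s2) ≤ A2 * (n * M - 3 * (M * s)) :=
      mul_le_mul_of_nonneg_left (by linarith) c12R
    have h2 : (M : ℝ) * M ≤ M * (A2 * (s * (s - 3))) := by
      have e : (M : ℝ) * (A2 * (s * (s - 3))) = A2 * (n * M - 3 * (M * s)) := by rw [← hs]; ring
      rw [e]; linarith
    exact le_of_mul_le_mul_left h2 c1R
  have hG : (G : ℝ) ≤ M * g := by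
    by_contra hcon
    push Not at hcon
    have h0 : 0 ≤ 2 * (G : ℝ) - M := by linarith
    have h1 : (2 * (G : ℝ) - M) * (M * (s - 3)) ≤ (2 * G - M) * (s2 - 3 * M) :=
      mul_le_mul_of_nonneg_left (by linarith) h0
    have h2 : M * M * (u : ℝ) ≤ M * M * (1000 * ((2 * g - 1) * (s - 3))) :=
      mul_le_mul_of_nonneg_left hg (by positivity)
    have h3 : 1000 * ((2 * (G : ℝ) - M) * (M * (s - 3))) ≤ M * M * (1000 * ((2 * g - 1) * (s - 3))) := by
      linarith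
    have h4 : (2 * (G : ℝ) - M) * (M * (s - 3)) ≤ M * ((2 * g - 1) * (M * (s - 3))) := by linarith
    have h5 : 0 < M * (s - 3) := by positivity
    have h6 : (2 * (G : ℝ) - M) * (M * (s - 3)) ≤ (M * (2 * g - 1)) * (M * (s - 3)) := by linarith
    have h7 := le_of_mul_le_mul_right h6 h5
    linarith
  have hg0 : 0 ≤ g := by
    by_contra hcon
    push Not at hcon
    have := mul_neg_of_pos_of_neg c1R hcon
    linarith
  refine ⟨hg0, ?_, ?_⟩
  · have e : (M : ℝ) * (s * (s - 3)) = n * M - 3 * (M * s) := by rw [← hs]; ring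
    have h1 : (M : ℝ) * (s * (s - 3)) ≤ M * L := by rw [e]; linarith
    exact le_of_mul_le_mul_left h1 c1R
  · intro ψ z hψ0 hψ1
    obtain ⟨r, q, hr0, hr9, hz⟩ : ∃ (r : ℕ) (q : ℤ), (0 : ℤ) ≤ r ∧ r < 9 ∧ z = 9 * q + r :=
      ⟨(z % 9).toNat, z / 9, by omega, by omega, by omega⟩
    have hv : ((n : ℝ) * ψ + z) / 9 = (n * ψ + ((r : ℤ) : ℝ)) / 9 + ((q : ℤ) : ℝ) := by
      rw [hz]; push_cast; ring
    rw [hv, bumps_int]
    have hψα : ψ < α := by
      rw [hα, lt_div_iff₀ hD]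
      exact hψ1
    have h1 := ht r (List.mem_range.2 hr9)
    exact okc_spec hn c1 hα0.le nb1 nb2 nA1 nA2 hG hψα _ 0 (by push_cast; positivity) h1

end Pool.Agent.K7.H2.RR
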