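import Pool.Agent.K7.H2.RR.Count
import Pool.Agent.K7.H2.RR.Coset
import Pool.Agent.K7.H2.FO.Inst
import Pool.Agent.TH603.Cut.FlatS

set_option autoImplicit false

/-! Independence at general points from a certificate. -/

namespace Pool.Agent.K7.H2.RR

open Finset Pool.Agent.K7.H2.FO Pool.Agent.TH176.Nag Pool.Agent.TH603.Sur Pool.Agent.TH603.Cut

/-- the triangle contains long rows -/
theorem rows' {n m d : ℕ} {M s1 s2 A1 A2 b1 b2 G u : ℤ} {L : ℕ} {tabs : List (List (ℤ × ℕ))}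
    (hn : 10 ≤ n) (hc : cer n M s1 s2 A1 A2 b1 b2 G u L tabs = true)
    (ht : (u : ℝ) ≤ 1000 * (2 * d + 3 - √(n : ℝ) * (2 * m + 1))) {p k : ℤ} (hk : 0 ≤ k)
    (hpk : p + n * k < n * m) :
    ∃ B : Finset ℤ, p < B.card ∧ ∀ c ∈ B, ∃ s0 : ℤ, ∀ y : ℤ, s0 ≤ y → y ≤ s0 + k →
      ((c, y) : ℤ × ℤ) ∈ Rg √(n : ℝ) d ∨ p < 0 := by
  have hnR : (10 : ℝ) ≤ n := by exact_mod_cast hn
  obtain ⟨s, hs⟩ : ∃ s, s = √(n : ℝ) := ⟨_, rfl⟩
  rw [← hs] at ht ⊢
  have hss : s * s = n := by rw [hs]; exact Real.mul_self_sqrt (by linarith)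
  have hs0 : 0 ≤ s := by rw [hs]; exact Real.sqrt_nonneg _
  have hs3 : 3 < s := by
    by_contra hcon
    push Not at hcon
    nlinarith
  have hs3' : s - 3 ≠ 0 := by linarith
  rcases lt_or_ge p 0 with hp | hp
  · exact ⟨∅, by simpa using hp, fun c hc => by simp at hc⟩
  obtain ⟨g, hg⟩ : ∃ g, g = ((d : ℝ) - s * m) / (s - 3) := ⟨_, rfl⟩
  have hg1 : g * (s - 3) = d - s * m := by rw [hg]; field_simp
  obtain ⟨hg0, hL, H⟩ := cer_spec (g := g) (by omega) hc hss hs3 (by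
    have e : (2 * g - 1) * (s - 3) = 2 * d + 3 - s * (2 * m + 1) := by linear_combination 2 * hg1
    rw [e]; exact ht)
  obtain ⟨k, rfl⟩ := Int.eq_ofNat_of_zero_le hk
  have hkm : k < m := by
    by_contra hcon
    push Not at hcon
    have h1 : (m : ℤ) ≤ k := by exact_mod_cast hcon
    have h2 : (n : ℤ) * m ≤ n * k := mul_le_mul_of_nonneg_left h1 (by positivity)
    omega
  obtain ⟨A, hA, hA'⟩ := rows (d := d) hss hs3 hg1 hg0 hL H hkm
  refine ⟨A, ?_, fun c hc => ?_⟩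
  · have h1 : ((n * (m - k) : ℕ) : ℤ) ≤ A.card := by exact_mod_cast hA
    rw [Nat.cast_mul, Nat.cast_sub hkm.le, mul_sub] at h1
    omega
  · obtain ⟨s0, hs0⟩ := hA' c hc
    exact ⟨s0, fun y h1 h2 => Or.inl (hs0 y h1 h2)⟩

/-- independence at general points -/
theorem sur_rg {n m d : ℕ} {M s1 s2 A1 A2 b1 b2 G u : ℤ} {L : ℕ} {tabs : List (List (ℤ × ℕ))}
    (hn : 10 ≤ n) (hc : cer n M s1 s2 A1 A2 b1 b2 G u L tabs = true)
    (ht : (u : ℝ) ≤ 1000 * (2 * d + 3 - √(n : ℝ) * (2 * m + 1))) :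
    Sur (fun _ : Fin n => m) (Rg √(n : ℝ) d) := by
  refine Sur_slabs (S' := {p : ℤ × ℤ | 0 ≤ p.1 ∧ 0 ≤ p.2 ∧ p.1 + n * p.2 < n * m}) 1 0 1 0 (by norm_num) ?_ ?_
  · rintro ⟨p, k⟩ ⟨hp, hk, hpk⟩
    simp only at hp hk hpk
    refine ⟨hp, hk, ?_⟩
    obtain ⟨B, hB, hB'⟩ := rows' (d := d) hn hc ht hk hpk
    refine ⟨B, hB, fun c hcB => ?_⟩
    obtain ⟨s0, hs0⟩ := hB' c hcB
    refine ⟨s0, fun y h1 h2 => ?_⟩
    have h3 := (hs0 y h1 h2).resolve_right (by omega)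
    have e : ((1 * c - 0 * y, 0 * c + 1 * y) : ℤ × ℤ) = (c, y) := by ext <;> simp
    simp only [e]
    exact h3
  · refine Sur_rows _ 0 fun k j hj => ?_
    simp only [sum_const, card_univ, Fintype.card_fin, smul_eq_mul] at hj
    refine ⟨?_, ?_, ?_⟩
    · simp only; omega
    · simp only; omega
    · simp only
      rcases le_or_gt m k with h | h
      · rw [Nat.sub_eq_zero_of_le h] at hj; omega
      · have h1 : (j : ℤ) < ((n * (m - k) : ℕ) : ℤ) := by exact_mod_cast hj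
        rw [Nat.cast_mul, Nat.cast_sub h.le, mul_sub] at h1
        omega

/-- **Independence in degree `d` at general points.** -/
theorem sur_at {n m d : ℕ} {M s1 s2 A1 A2 b1 b2 G u : ℤ} {L : ℕ} {tabs : List (List (ℤ × ℕ))}
    (hn : 10 ≤ n) (hirr : Irrational (√(n : ℝ))) (hc : cer n M s1 s2 A1 A2 b1 b2 G u L tabs = true)
    (ht : (u : ℝ) ≤ 1000 * (2 * d + 3 - √(n : ℝ) * (2 * m + 1))) :
    Sur (fun _ : Fin n => m) (TZ d) := sur_TZ hn hirr (sur_rg hn hc ht)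

end Pool.Agent.K7.H2.RR
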