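import Pool.Agent.K7.H2.RR.Asm
import Pool.Agent.TH183.QS.Fin

set_option autoImplicit false

/-! Independence for general collisions from a certificate. -/

namespace Pool.Agent.K7.H2.RR

open Finset Pool.Agent.K7.H2.FO Pool.Agent.TH176.Nag Pool.Agent.TH603.Sur Pool.Agent.TH183.QC
open Pool.Agent.TH183.QS
open Pool.Agent.TH183.QN (TT)

/-- from the triangle of slope `3 √n` to the plane -/
theorem surA_TT {w : SS} (key : KeyS w) {n d : ℕ} (hn : 10 ≤ n) (hirr : Irrational (√(n : ℝ)))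
    (h : SurA w (Rg √(n : ℝ) d)) : SurA w (TT d) := by
  obtain ⟨s, hs⟩ : ∃ s, s = √(n : ℝ) := ⟨_, rfl⟩
  rw [← hs] at h hirr
  have hnR : (10 : ℝ) ≤ n := by exact_mod_cast hn
  have hss : s * s = n := by rw [hs]; exact Real.mul_self_sqrt (by linarith)
  have hs0 : 0 ≤ s := by rw [hs]; exact Real.sqrt_nonneg _
  have hs3 : 3 < s := by
    by_contra hcon
    push Not at hcon
    nlinarith
  obtain ⟨u, hu⟩ : ∃ u : ℤ, u = ⌊s⌋ := ⟨_, rfl⟩
  have hfr : Int.fract s = s - u := by rw [hu]; rfl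
  refine key d (s - u) ?_ ?_ ?_ ?_
  · rw [← hfr]
    refine lt_of_le_of_ne (Int.fract_nonneg s) fun h0 => ?_
    have h1 : s = (⌊s⌋ : ℝ) := by
      have := Int.self_sub_floor s
      linarith [h0]
    exact (Int.not_irrational ⌊s⌋) (by rw [← h1]; exact hirr)
  · rw [← hfr]; exact Int.fract_lt_one s
  · exact hirr.sub_intCast u
  · refine h.comap (-1) (-(3 * (u - 1))) 0 1 ((u - 1) * d) 0 (by norm_num) ?_
    rintro ⟨x, y⟩ ⟨h1, h2, h3, h4⟩
    simp only at h1 h2 h3 h4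
    refine ⟨(-x - 3 * (u - 1) * y + (u - 1) * d, y), ⟨h2, ?_, ?_⟩, ?_⟩
    · simp only
      push_cast
      have h5 : (x : ℝ) ≤ s * d - 3 * s * y := by
        have h6 := mul_le_mul_of_nonneg_left h4 (show (0 : ℝ) ≤ 3 * s by linarith)
        have e : 3 * s * ((d : ℝ) / 3 - 1 / (3 * s) * (x : ℝ)) = s * d - x := by
          field_simp
        rw [e] at h6
        linarith
      nlinarith
    · simp only
      push_cast
      have h5 : (s - 3) * d - 3 * (s - 3) * y ≤ (x : ℝ) := by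
        have h6 := mul_le_mul_of_nonneg_left h3 (show (0 : ℝ) ≤ 3 * (s - 3) by linarith)
        have e : 3 * (s - 3) * ((d : ℝ) / 3 - 1 / (3 * (s - 3)) * (x : ℝ)) = (s - 3) * d - x := by
          have : s - 3 ≠ 0 := by linarith
          field_simp
        rw [e] at h6
        linarith
      nlinarith
    · ext
      · simp only; ring
      · simp only; ring

/-- **Independence in degree `d` for general collisions.** -/
theorem indAt_cer {n m d : ℕ} {M s1 s2 A1 A2 b1 b2 G u : ℤ} {L : ℕ} {tabs : List (List (ℤ × ℕ))}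
    (hn : 10 ≤ n) (hirr : Irrational (√(n : ℝ))) (hc : cer n M s1 s2 A1 A2 b1 b2 G u L tabs = true)
    (ht : (u : ℝ) ≤ 1000 * (2 * d + 3 - √(n : ℝ) * (2 * m + 1))) : IndAt n m d := by
  refine IndAt.of (surA_TT (keyS n m) hn hirr ?_)
  refine SurA_slabs 1 0 1 0 (by norm_num) ?_ (ss_op n m)
  rintro ⟨p, k⟩ ⟨hp, hk, hpk⟩
  simp only at hp hk hpk
  refine ⟨hp, hk, ?_⟩
  have hpk' : p + n * k < n * m := by
    have h1 : ((p + n * k : ℤ) : ℝ) < ((n * m : ℤ) : ℝ) := by
      push_cast at hpk ⊢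
      exact hpk
    exact_mod_cast h1
  obtain ⟨B, hB, hB'⟩ := rows' (d := d) hn hc ht hk hpk'
  refine ⟨B, hB, fun c hcB => ?_⟩
  obtain ⟨s0, hs0⟩ := hB' c hcB
  refine ⟨s0, fun y h1 h2 => ?_⟩
  have h3 := (hs0 y h1 h2).resolve_right (by omega)
  have e : ((1 * c - 0 * y, 0 * c + 1 * y) : ℤ × ℤ) = (c, y) := by ext <;> simp
  simp only [e]
  exact h3

end Pool.Agent.K7.H2.RR
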