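import Pool.Agent.K7.H2.RR.Count

set_option autoImplicit false

/-! The rows of the triangle of slope `3 s`, `s ^ 2 = n`: upper bounds for the number of columns with at
least `k + 1` points. -/

namespace Pool.Agent.K7.H2.RR

open Finset Pool.Agent.K7.H2.FO

/-- the column `a` contains two points at distance `k` -/
def Col (s : ℝ) (d : ℕ) (k a : ℤ) : Prop :=
  ∃ y : ℤ, ((a, y) : ℤ × ℤ) ∈ Rg s d ∧ ((a, y + k) : ℤ × ℤ) ∈ Rg s d

theorem Col.bounds {s : ℝ} {d : ℕ} {k a : ℤ} (hs3 : 3 < s) (h : Col s d k a) :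
    0 ≤ a ∧ (a : ℝ) ≤ s * (d - 3 * k) ∧
      k + Int.fract ((a : ℝ) * (1 / (3 * (s - 3))) - (d : ℝ) / 3) ≤ a * (1 / (s * (s - 3))) := by
  obtain ⟨y, ⟨h1, h2, h3, h4⟩, ⟨h5, h6, h7, h8⟩⟩ := h
  simp only at h1 h2 h3 h4 h5 h6 h7 h8
  have hs0 : 0 < s := by linarith
  have hs3' : 0 < s - 3 := by linarith
  have h2R : (0 : ℝ) ≤ y := by exact_mod_cast h2
  push_cast at h8
  refine ⟨h1, ?_, ?_⟩
  · have h9 := mul_le_mul_of_nonneg_left h8 (show (0 : ℝ) ≤ 3 * s by linarith)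
    have e : 3 * s * ((d : ℝ) / 3 - 1 / (3 * s) * (a : ℝ)) = s * d - a := by
      field_simp
    rw [e] at h9
    have h10 : 0 ≤ s * (y : ℝ) := mul_nonneg hs0.le h2R
    linarith
  · have h9 : -y ≤ ⌊(a : ℝ) * (1 / (3 * (s - 3))) - (d : ℝ) / 3⌋ := by
      apply Int.le_floor.2
      push_cast
      linarith
    have h10 : (-(y : ℝ)) ≤ ((⌊(a : ℝ) * (1 / (3 * (s - 3))) - (d : ℝ) / 3⌋ : ℤ) : ℝ) := by exact_mod_cast h9
    have h11 := Int.floor_add_fract ((a : ℝ) * (1 / (3 * (s - 3))) - (d : ℝ) / 3)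
    have e : (a : ℝ) * (1 / (s * (s - 3))) = a * (1 / (3 * (s - 3))) - 1 / (3 * s) * a := by
      field_simp
      ring
    rw [e]
    linarith

theorem rowE {n m d L k : ℕ} {s g : ℝ} (hs : s * s = n) (hs3 : 3 < s) (hg : g * (s - 3) = d - s * m)
    (hg1 : g < 1) (hL : s * (s - 3) ≤ L) (hkm : k ≤ m) (hk : s * k + s - 3 ≤ d) {A : Finset ℤ}
    (hA : ∀ a ∈ A, Col s d k a) :
    ∃ x0 : ℕ, s * (s - 3) * k ≤ x0 ∧ (x0 : ℝ) < s * (s - 3) * k + 1 ∧
      A.card + (bumps L (1 / (s * (s - 3))) (1 / (3 * (s - 3))) ((x0 : ℝ) * (1 / (s * (s - 3))) - k)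
        ((x0 : ℝ) * (1 / (3 * (s - 3))) - (d : ℝ) / 3)).card ≤ n * (m - k) +
        ((range L).filter fun i : ℕ => (x0 : ℝ) * (1 / (s * (s - 3))) - k + 1 / (s * (s - 3)) * i ≤ g).card := by
  classical
  have hs0 : 0 < s := by linarith
  have hs3' : 0 < s - 3 := by linarith
  have hD : 0 < s * (s - 3) := mul_pos hs0 hs3'
  have hAb : ∀ a ∈ A, 0 ≤ a ∧ (a : ℝ) ≤ s * (d - 3 * k) ∧
      k + Int.fract ((a : ℝ) * (1 / (3 * (s - 3))) - (d : ℝ) / 3) ≤ a * (1 / (s * (s - 3))) := by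
    intro a ha
    have h := (hA a ha).bounds hs3
    push_cast at h
    exact h
  obtain ⟨δ, hδ⟩ : ∃ δ, δ = 1 / (s * (s - 3)) := ⟨_, rfl⟩
  obtain ⟨β, hβ⟩ : ∃ β, β = 1 / (3 * (s - 3)) := ⟨_, rfl⟩
  rw [← hδ, ← hβ] at hAb
  rw [← hδ, ← hβ]
  have hδ0 : 0 < δ := by rw [hδ]; positivity
  have hDδ : s * (s - 3) * δ = 1 := by rw [hδ]; field_simp
  obtain ⟨x0, hx0⟩ : ∃ x0 : ℕ, x0 = ⌈s * (s - 3) * k⌉₊ := ⟨_, rfl⟩
  have hx1 : s * (s - 3) * k ≤ x0 := by rw [hx0]; exact Nat.le_ceil _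
  have hx2 : (x0 : ℝ) < s * (s - 3) * k + 1 := by
    rw [hx0]; exact Nat.ceil_lt_add_one (by positivity)
  refine ⟨x0, hx1, hx2, ?_⟩
  obtain ⟨ψ, hψ⟩ : ∃ ψ, ψ = (x0 : ℝ) * δ - k := ⟨_, rfl⟩
  obtain ⟨v, hv⟩ : ∃ v, v = (x0 : ℝ) * β - (d : ℝ) / 3 := ⟨_, rfl⟩
  rw [← hψ, ← hv]
  have hψD : s * (s - 3) * ψ = x0 - s * (s - 3) * k := by
    rw [hψ]; linear_combination (x0 : ℝ) * hDδ
  have hψ0 : 0 ≤ ψ := by
    by_contra hcon
    push Not at hcon
    have := mul_neg_of_pos_of_neg hD hcon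
    linarith
  -- the right end
  have htot : s * (d - 3 * (k : ℝ)) = s * (s - 3) * k + ((n * (m - k) : ℕ) : ℝ) + s * (s - 3) * g := by
    rw [Nat.cast_mul, Nat.cast_sub hkm, ← hs]
    linear_combination (-s) * hg
  obtain ⟨N0, hN0⟩ : ∃ N0, N0 = n * (m - k) := ⟨_, rfl⟩
  rw [← hN0] at htot ⊢
  obtain ⟨Fl, hFl⟩ : ∃ Fl, Fl = (range L).filter fun i : ℕ => ψ + δ * i ≤ g := ⟨_, rfl⟩
  rw [← hFl]
  obtain ⟨Bm, hBm⟩ : ∃ Bm, Bm = bumps L δ β ψ v := ⟨_, rfl⟩
  rw [← hBm]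
  -- the interval
  have hin : ∀ j : ℕ, ((x0 + j : ℕ) : ℝ) ≤ s * (d - 3 * (k : ℝ)) →
      ((x0 + j : ℕ) : ℤ) ∈ (range N0).image (fun i : ℕ => ((x0 + i : ℕ) : ℤ)) ∪
        Fl.image (fun i : ℕ => ((x0 + N0 + i : ℕ) : ℤ)) := by
    intro j hj
    rw [mem_union, mem_image, mem_image]
    rcases Nat.lt_or_ge j N0 with h | h
    · exact Or.inl ⟨j, mem_range.2 h, rfl⟩
    · right
      obtain ⟨i, rfl⟩ := Nat.exists_eq_add_of_le h
      refine ⟨i, ?_, by rw [Nat.add_assoc]⟩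
      rw [htot] at hj
      push_cast at hj
      have h1 : s * (s - 3) * (ψ + δ * i) ≤ s * (s - 3) * g := by
        have e : s * (s - 3) * (ψ + δ * i) = x0 - s * (s - 3) * k + i := by
          linear_combination hψD + (i : ℝ) * hDδ
        rw [e]
        linarith
      have h2 := le_of_mul_le_mul_left h1 hD
      rw [hFl, mem_filter, mem_range]
      refine ⟨?_, h2⟩
      have h3 : δ * i < 1 := by linarith
      have h4 : s * (s - 3) * (δ * i) < s * (s - 3) * 1 := mul_lt_mul_of_pos_left h3 hD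
      have h5 : (i : ℝ) < L := by
        have e3 : s * (s - 3) * (δ * i) = i := by linear_combination (i : ℝ) * hDδ
        linarith
      exact_mod_cast h5
  have hsub : A ∪ Bm.image (fun i : ℕ => ((x0 + i : ℕ) : ℤ)) ⊆
      (range N0).image (fun i : ℕ => ((x0 + i : ℕ) : ℤ)) ∪ Fl.image (fun i : ℕ => ((x0 + N0 + i : ℕ) : ℤ)) := by
    apply union_subset
    · intro a ha
      obtain ⟨h1, h2, h3⟩ := hAb a ha
      obtain ⟨a, rfl⟩ := Int.eq_ofNat_of_zero_le h1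
      push_cast at h2 h3
      have h4 : (k : ℝ) ≤ a * δ := by
        have := Int.fract_nonneg ((a : ℝ) * β - (d : ℝ) / 3)
        linarith
      have h5 : s * (s - 3) * k ≤ a := by
        have h6 := mul_le_mul_of_nonneg_left h4 hD.le
        have e : s * (s - 3) * (a * δ) = a := by linear_combination (a : ℝ) * hDδ
        linarith
      have h6 : x0 ≤ a := by rw [hx0]; exact Nat.ceil_le.2 h5
      obtain ⟨j, rfl⟩ := Nat.exists_eq_add_of_le h6
      exact hin j (by push_cast; push_cast at h2; exact h2)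
    · intro a ha
      rw [mem_image] at ha
      obtain ⟨i, hi, rfl⟩ := ha
      rw [hBm] at hi
      unfold bumps at hi
      rw [mem_filter] at hi
      apply hin
      have h1 := Int.fract_lt_one (v + β * i)
      have h2 : ψ + δ * i < 1 := by linarith [hi.2]
      have h3 : s * (s - 3) * (ψ + δ * i) < s * (s - 3) * 1 := mul_lt_mul_of_pos_left h2 hD
      have e : s * (s - 3) * (ψ + δ * i) = x0 - s * (s - 3) * k + i := by
        linear_combination hψD + (i : ℝ) * hDδ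
      rw [e] at h3
      push_cast
      have h4 : s * (s * k + s - 3) ≤ s * d := mul_le_mul_of_nonneg_left hk hs0.le
      nlinarith
  have hdisj : Disjoint A (Bm.image (fun i : ℕ => ((x0 + i : ℕ) : ℤ))) := by
    rw [disjoint_left]
    intro a ha hb
    rw [mem_image] at hb
    obtain ⟨i, hi, rfl⟩ := hb
    rw [hBm] at hi
    unfold bumps at hi
    rw [mem_filter] at hi
    obtain ⟨_, _, h3⟩ := hAb _ ha
    push_cast at h3
    have e1 : ((x0 : ℝ) + i) * δ = k + (ψ + δ * i) := by rw [hψ]; ring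
    have e2 : ((x0 : ℝ) + i) * β - (d : ℝ) / 3 = v + β * i := by rw [hv]; ring
    rw [e1, e2] at h3
    linarith [hi.2]
  have h1 := card_le_card hsub
  rw [card_union_of_disjoint hdisj] at h1
  have h2 := card_union_le ((range N0).image (fun i : ℕ => ((x0 + i : ℕ) : ℤ)))
    (Fl.image (fun i : ℕ => ((x0 + N0 + i : ℕ) : ℤ)))
  have h3 := card_image_le (s := range N0) (f := fun i : ℕ => ((x0 + i : ℕ) : ℤ))
  have h4 := card_image_le (s := Fl) (f := fun i : ℕ => ((x0 + N0 + i : ℕ) : ℤ))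
  have h5 : (Bm.image (fun i : ℕ => ((x0 + i : ℕ) : ℤ))).card = Bm.card := by
    apply card_image_of_injective
    intro i j hij
    have : ((x0 + i : ℕ) : ℤ) = ((x0 + j : ℕ) : ℤ) := hij
    omega
  rw [card_range] at h3
  omega

end Pool.Agent.K7.H2.RR
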