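import Pool.Agent.K7.H2.RR.CosetE
import Pool.Agent.K7.H2.RR.RowE

set_option autoImplicit false

/-! Certificates for the rows near the top of the triangle; they depend only on `η = d - s m`. -/

namespace Pool.Agent.K7.H2.RR

open Finset Pool.Agent.K7.H2.FO

/-- the test for the column `y` in row `i` from the top, `E ≤ M η ≤ E'` -/
def pg (M s1 s2 A1 A2 b1 b2 : ℤ) (i : ℕ) (E E' y : ℤ) : Bool :=
  decide (flo2 (M * M * M)
    ((y * (M * M) - s2 * E') * (if 0 ≤ y * (M * M) - s2 * E' then b1 else b2))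
    ((y * (M * M) - s1 * E) * (if 0 ≤ y * (M * M) - s1 * E then b2 else b1)) ≤
    (y * M - 3 * E) * (if 0 ≤ y * M - 3 * E then A2 else A1) * M + i * (M * M * M))

/-- computable bound for the number of columns -/
def cU (M s1 s2 A1 A2 b1 b2 : ℤ) (L i : ℕ) (Y E E' : ℤ) : ℕ :=
  ((E' * (s2 + 3 * M) + 3 * s2 * i * M) / (M * M) + 1 - (Y + L)).toNat +
    ((List.range L).filter fun q : ℕ => decide (Y + q ≤ (E' * (s2 + 3 * M) + 3 * s2 * i * M) / (M * M)) &&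
      pg M s1 s2 A1 A2 b1 b2 i E E' (Y + q)).length

theorem pg_spec {M s1 s2 A1 A2 b1 b2 E E' y : ℤ} {i : ℕ} {s α β η : ℝ} (hM : 0 < M) (h0 : 0 ≤ s1)
    (hs1 : (s1 : ℝ) ≤ M * s) (hs2 : (M : ℝ) * s ≤ s2) (hb0 : 0 ≤ β)
    (hb1 : (b1 : ℝ) ≤ M * β) (hb2 : (M : ℝ) * β ≤ b2) (hA1 : (A1 : ℝ) ≤ M * α)
    (hA2 : (M : ℝ) * α ≤ A2) (hα0 : 0 ≤ α) (hE0 : 0 ≤ E) (hE : (E : ℝ) ≤ M * η) (hE' : (M : ℝ) * η ≤ E')
    (hy : Int.fract ((y - s * η) * β) ≤ (y - 3 * η) * α + i) :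
    pg M s1 s2 A1 A2 b1 b2 i E E' y = true := by
  unfold pg
  rw [decide_eq_true_eq]
  have hMR : (0 : ℝ) < M := by exact_mod_cast hM
  have h0R : (0 : ℝ) ≤ s1 := by exact_mod_cast h0
  have hE0R : (0 : ℝ) ≤ E := by exact_mod_cast hE0
  have hMs : 0 ≤ (M : ℝ) * s := by linarith
  have hMη : 0 ≤ (M : ℝ) * η := by linarith
  have hMβ : 0 ≤ (M : ℝ) * β := by positivity
  have hMα : 0 ≤ (M : ℝ) * α := by positivity
  -- the argument of the fractional part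
  obtain ⟨Z, hZ⟩ : ∃ Z : ℝ, Z = y * (M * M) - (M * s) * (M * η) := ⟨_, rfl⟩
  have hZ1 : ((y * (M * M) - s2 * E' : ℤ) : ℝ) ≤ Z := by
    push_cast
    rw [hZ]
    have h1 : (M * s) * (M * η) ≤ s2 * E' := mul_le_mul hs2 hE' hMη (by linarith)
    linarith
  have hZ2 : Z ≤ ((y * (M * M) - s1 * E : ℤ) : ℝ) := by
    push_cast
    rw [hZ]
    have h1 : (s1 : ℝ) * E ≤ (M * s) * (M * η) := mul_le_mul hs1 hE hE0R hMs
    linarith
  have e1 : ((M * M * M : ℤ) : ℝ) * ((y - s * η) * β) = Z * (M * β) := by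
    push_cast
    rw [hZ]
    ring
  have lo : (((y * (M * M) - s2 * E') * (if 0 ≤ y * (M * M) - s2 * E' then b1 else b2) : ℤ) : ℝ) ≤
      ((M * M * M : ℤ) : ℝ) * ((y - s * η) * β) := by
    rw [e1, Int.cast_mul]
    have h1 := mul_le_mul_of_nonneg_right hZ1 hMβ
    split_ifs with hif
    · have h2 : (0 : ℝ) ≤ ((y * (M * M) - s2 * E' : ℤ) : ℝ) := by exact_mod_cast hif
      have h3 := mul_le_mul_of_nonneg_left hb1 h2
      linarith
    · have h2 : ((y * (M * M) - s2 * E' : ℤ) : ℝ) ≤ 0 := by exact_mod_cast (not_le.1 hif).le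
      have h3 := mul_le_mul_of_nonpos_left hb2 h2
      linarith
  have hi : ((M * M * M : ℤ) : ℝ) * ((y - s * η) * β) ≤
      (((y * (M * M) - s1 * E) * (if 0 ≤ y * (M * M) - s1 * E then b2 else b1) : ℤ) : ℝ) := by
    rw [e1, Int.cast_mul]
    have h1 := mul_le_mul_of_nonneg_right hZ2 hMβ
    split_ifs with hif
    · have h2 : (0 : ℝ) ≤ ((y * (M * M) - s1 * E : ℤ) : ℝ) := by exact_mod_cast hif
      have h3 := mul_le_mul_of_nonneg_left hb2 h2
      linarith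
    · have h2 : ((y * (M * M) - s1 * E : ℤ) : ℝ) ≤ 0 := by exact_mod_cast (not_le.1 hif).le
      have h3 := mul_le_mul_of_nonpos_left hb1 h2
      linarith
  have hM3 : 0 < M * M * M := by positivity
  have h1 := flo2_le hM3 lo hi
  have h2 := mul_le_mul_of_nonneg_left hy (show (0 : ℝ) ≤ ((M * M * M : ℤ) : ℝ) by exact_mod_cast hM3.le)
  have h3 : ((M * M * M : ℤ) : ℝ) * ((y - 3 * η) * α + i) ≤
      (((y * M - 3 * E) * (if 0 ≤ y * M - 3 * E then A2 else A1) * M + i * (M * M * M) : ℤ) : ℝ) := by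
    obtain ⟨l, hl⟩ : ∃ l : ℤ, l = y * M - 3 * E := ⟨_, rfl⟩
    rw [← hl]
    have hlR : (y : ℝ) * M - 3 * (M * η) ≤ l := by
      rw [hl]
      push_cast
      linarith
    have h4 := mul_le_mul_of_nonneg_right hlR hMα
    have h5 : (l : ℝ) * (M * α) ≤ l * ((if 0 ≤ l then A2 else A1 : ℤ) : ℝ) := by
      split_ifs with hif
      · exact mul_le_mul_of_nonneg_left hA2 (by exact_mod_cast hif)
      · exact mul_le_mul_of_nonpos_left hA1 (by exact_mod_cast (not_le.1 hif).le)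
    have h6 : M * ((y * M - 3 * (M * η)) * (M * α)) ≤ M * (l * ((if 0 ≤ l then A2 else A1 : ℤ) : ℝ)) :=
      mul_le_mul_of_nonneg_left (h4.trans h5) hMR.le
    push_cast at h6 ⊢
    linarith
  have h7 := (h1.trans h2).trans h3
  exact_mod_cast h7

theorem cU_spec {n : ℕ} {M s1 s2 A1 A2 b1 b2 E E' Y : ℤ} {i L : ℕ} {s α β η : ℝ} (hM : 0 < M)
    (hs : s * s = n) (hs3 : 3 < s) (hα : α = 1 / (s * (s - 3))) (hβ : β = 1 / (3 * (s - 3)))
    (h0 : 0 ≤ s1) (hs1 : (s1 : ℝ) ≤ M * s) (hs2 : (M : ℝ) * s ≤ s2)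
    (hb1 : (b1 : ℝ) ≤ M * β) (hb2 : (M : ℝ) * β ≤ b2) (hA1 : (A1 : ℝ) ≤ M * α)
    (hA2 : (M : ℝ) * α ≤ A2) (hE0 : 0 ≤ E) (hE : (E : ℝ) ≤ M * η) (hE' : (M : ℝ) * η ≤ E')
    (hY : M * (Y - 1) - 3 * E + i * (n * M - 3 * s1) < 0)
    {A : Finset ℤ} (hA : ∀ y ∈ A, (y : ℝ) ≤ (s + 3) * η + 3 * s * i ∧
      Int.fract ((y - s * η) * β) ≤ (y - 3 * η) * α + i) :
    A.card ≤ cU M s1 s2 A1 A2 b1 b2 L i Y E E' := by
  classical
  have hMR : (0 : ℝ) < M := by exact_mod_cast hM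
  have hs0 : 0 < s := by linarith
  have hs3' : 0 < s - 3 := by linarith
  have hD : 0 < s * (s - 3) := mul_pos hs0 hs3'
  have hE0R : (0 : ℝ) ≤ E := by exact_mod_cast hE0
  have hMη : 0 ≤ (M : ℝ) * η := by linarith
  obtain ⟨top, htop⟩ : ∃ top, top = (E' * (s2 + 3 * M) + 3 * s2 * i * M) / (M * M) := ⟨_, rfl⟩
  unfold cU
  rw [← htop]
  have hle : ∀ y ∈ A, y ≤ top := by
    intro y hy
    rw [htop, Int.le_ediv_iff_mul_le (by positivity)]
    have h1 := (hA y hy).1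
    have h2 : (y : ℝ) * (M * M) ≤ ((s + 3) * η + 3 * s * i) * (M * M) :=
      mul_le_mul_of_nonneg_right h1 (by positivity)
    have h3 : (M * η) * (M * s + 3 * M) ≤ E' * (s2 + 3 * M) :=
      mul_le_mul hE' (by linarith) (by positivity) (by linarith)
    have h4 : (M * s) * (3 * i * M) ≤ s2 * (3 * i * M) :=
      mul_le_mul_of_nonneg_right hs2 (by positivity)
    have h5 : (y : ℝ) * (M * M) ≤ E' * (s2 + 3 * M) + 3 * s2 * i * M := by linarith
    exact_mod_cast h5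
  have hge : ∀ y ∈ A, Y ≤ y := by
    intro y hy
    have h1 := (hA y hy).2
    have h2 := Int.fract_nonneg ((y - s * η) * β)
    have h3 : 0 ≤ s * (s - 3) * ((y - 3 * η) * α + i) := mul_nonneg hD.le (by linarith)
    have e : s * (s - 3) * ((y - 3 * η) * α + i) = y - 3 * η + i * (n - 3 * s) := by
      rw [hα, ← hs]
      field_simp
    rw [e] at h3
    have h4 : 0 ≤ M * (y - 3 * η + i * (n - 3 * s)) := mul_nonneg hMR.le h3
    have h5 : (i : ℝ) * s1 ≤ i * (M * s) := mul_le_mul_of_nonneg_left hs1 (Nat.cast_nonneg i)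
    have h6 : 0 ≤ (M : ℝ) * y - 3 * E + i * (n * M - 3 * s1) := by linarith
    have h7 : 0 ≤ M * y - 3 * E + i * (n * M - 3 * s1) := by exact_mod_cast h6
    have h8 : M * (Y - 1) < M * y := by linarith
    have h9 := lt_of_mul_lt_mul_left h8 hM.le
    omega
  have hsub : A ⊆ Finset.Icc (Y + L) top ∪ ((range L).filter fun q : ℕ =>
      (decide (Y + q ≤ top) && pg M s1 s2 A1 A2 b1 b2 i E E' (Y + q)) = true).image
        (fun q : ℕ => Y + (q : ℤ)) := by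
    intro y hy
    rw [mem_union, Finset.mem_Icc, mem_image]
    rcases le_or_gt (Y + L) y with h | h
    · exact Or.inl ⟨h, hle y hy⟩
    · right
      obtain ⟨q, hq⟩ := Int.eq_ofNat_of_zero_le (show 0 ≤ y - Y by linarith [hge y hy])
      have hyq : y = Y + q := by omega
      refine ⟨q, ?_, hyq.symm⟩
      rw [mem_filter, mem_range, Bool.and_eq_true, decide_eq_true_eq]
      refine ⟨by omega, by rw [← hyq]; exact hle y hy, ?_⟩
      rw [← hyq]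
      exact pg_spec hM h0 hs1 hs2 (by rw [hβ]; positivity) hb1 hb2 hA1 hA2 (by rw [hα]; positivity)
        hE0 hE hE' (hA y hy).2
  have h1 := card_le_card hsub
  have h2 := card_union_le (Finset.Icc (Y + L) top) (((range L).filter fun q : ℕ =>
      (decide (Y + q ≤ top) && pg M s1 s2 A1 A2 b1 b2 i E E' (Y + q)) = true).image
        (fun q : ℕ => Y + (q : ℤ)))
  have h3 := card_image_le (s := (range L).filter fun q : ℕ =>
      (decide (Y + q ≤ top) && pg M s1 s2 A1 A2 b1 b2 i E E' (Y + q)) = true)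
      (f := fun q : ℕ => Y + (q : ℤ))
  rw [Int.card_Icc] at h2
  have h4 := card_filter_list L (fun q : ℕ => (decide (Y + q ≤ top) && pg M s1 s2 A1 A2 b1 b2 i E E' (Y + q)) = true)
    (fun q : ℕ => decide (Y + q ≤ top) && pg M s1 s2 A1 A2 b1 b2 i E E' (Y + q)) (fun i _ h => h)
  omega

/-- one row of the table -/
def toprow (I n : ℕ) (M s1 s2 A1 A2 b1 b2 : ℤ) (L : ℕ) (E E' Y : ℤ) (wit : List (ℕ × ℤ)) : Bool :=
  decide (0 ≤ E ∧ M * (Y - 1) - 3 * E < 0 ∧ cU M s1 s2 A1 A2 b1 b2 L 0 Y E E' ≤ wit.length) &&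
    (List.range wit.length).all fun e => match wit[e]? with
      | none => false
      | some (i, Y') => decide (e < i ∧ i ≤ I ∧ M * (Y' - 1) - 3 * E + i * (n * M - 3 * s1) < 0 ∧
        cU M s1 s2 A1 A2 b1 b2 L i Y' E E' + i ≤ n * i + e)

/-- the table -/
def topok (I n : ℕ) (M s1 s2 A1 A2 b1 b2 : ℤ) (L : ℕ) (Ehi : ℤ) : ℤ → List (ℤ × ℤ × List (ℕ × ℤ)) → Bool
  | E, [] => decide (Ehi ≤ E)
  | E, (E', Y, wit) :: rest => toprow I n M s1 s2 A1 A2 b1 b2 L E E' Y wit &&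
    topok I n M s1 s2 A1 A2 b1 b2 L Ehi E' rest

/-- the conclusion -/
def TopC (I n : ℕ) (s η : ℝ) : Prop := ∃ C : ℕ,
  (∀ A : Finset ℤ, (∀ y ∈ A, (y : ℝ) ≤ (s + 3) * η + 3 * s * (0 : ℕ) ∧
    Int.fract ((y - s * η) * (1 / (3 * (s - 3)))) ≤ (y - 3 * η) * (1 / (s * (s - 3))) + (0 : ℕ)) →
    A.card ≤ C) ∧
  ∀ e < C, ∃ i : ℕ, e < i ∧ i ≤ I ∧ ∀ A : Finset ℤ, (∀ y ∈ A, (y : ℝ) ≤ (s + 3) * η + 3 * s * i ∧
    Int.fract ((y - s * η) * (1 / (3 * (s - 3)))) ≤ (y - 3 * η) * (1 / (s * (s - 3))) + i) →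
    A.card + i ≤ n * i + e

theorem topok_spec {I n : ℕ} {M s1 s2 A1 A2 b1 b2 Ehi : ℤ} {L : ℕ} {s η : ℝ} (hM : 0 < M)
    (hs : s * s = n) (hs3 : 3 < s) (h0 : 0 ≤ s1) (hs1 : (s1 : ℝ) ≤ M * s) (hs2 : (M : ℝ) * s ≤ s2)
    (hb1 : (b1 : ℝ) ≤ M * (1 / (3 * (s - 3)))) (hb2 : (M : ℝ) * (1 / (3 * (s - 3))) ≤ b2)
    (hA1 : (A1 : ℝ) ≤ M * (1 / (s * (s - 3)))) (hA2 : (M : ℝ) * (1 / (s * (s - 3))) ≤ A2)
    (hEhi : (M : ℝ) * η < Ehi) :
    ∀ (tab : List (ℤ × ℤ × List (ℕ × ℤ))) (E : ℤ), (E : ℝ) ≤ M * η →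
      topok I n M s1 s2 A1 A2 b1 b2 L Ehi E tab = true → TopC I n s η := by
  intro tab
  induction tab with
  | nil =>
    intro E hE h
    exfalso
    unfold topok at h
    rw [decide_eq_true_eq] at h
    have h' : (Ehi : ℝ) ≤ E := by exact_mod_cast h
    linarith
  | cons hd rest ih =>
    obtain ⟨E', Y, wit⟩ := hd
    intro E hE h
    unfold topok at h
    rw [Bool.and_eq_true] at h
    rcases le_or_gt (E' : ℝ) (M * η) with h1 | h1
    · exact ih E' h1 h.2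
    · have h2 := h.1
      unfold toprow at h2
      rw [Bool.and_eq_true, decide_eq_true_eq, List.all_eq_true] at h2
      obtain ⟨⟨h3, h4, h5⟩, h6⟩ := h2
      refine ⟨wit.length, fun A hA => ?_, fun e he => ?_⟩
      · refine (cU_spec (Y := Y) (E := E) (E' := E') (i := 0) hM hs hs3 rfl rfl h0 hs1 hs2 hb1 hb2 hA1 hA2
          h3 hE h1.le (by push_cast; linarith) hA).trans h5
      · have h7 := h6 e (List.mem_range.2 he)
        rw [List.getElem?_eq_getElem he] at h7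
        obtain ⟨⟨i, Y'⟩, hi⟩ : ∃ p, p = wit[e] := ⟨_, rfl⟩
        rw [← hi] at h7
        simp only [decide_eq_true_eq] at h7
        obtain ⟨g1, g2, g3, g4⟩ := h7
        refine ⟨i, g1, g2, fun A hA => ?_⟩
        have g5 := cU_spec (L := L) (Y := Y') (E := E) (E' := E') (i := i) hM hs hs3 rfl rfl h0 hs1 hs2 hb1
          hb2 hA1 hA2 h3 hE h1.le g3 hA
        omega

end Pool.Agent.K7.H2.RR
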