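import Pool.Agent.K7.H2.RR.Spread
import Pool.Agent.K7.H2.RR.Top
import Pool.Agent.K7.H2.FO.Inst
import Pool.Agent.TH183.QS.Fin

set_option autoImplicit false

/-! Emptiness from a certificate for the rows below the top and a certificate for the top rows. -/

namespace Pool.Agent.K7.H2.RR

open Finset Pool.Agent.K7.H2.FO Pool.Agent.TH176.Nag Pool.Agent.TH603.Sur Pool.Agent.TH183.QC
open Pool.Agent.TH183.QS
open Pool.Agent.TH183.QN (TT)

variable {w : ES}

/-- emptiness for the triangle of slope `3 s` -/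
theorem empA_rg {I n m d L : ℕ} {s g : ℝ} (hn : 10 ≤ n) (hs : s * s = n) (hs3 : 3 < s)
    (hg : g * (s - 3) = d - s * m) (hg0 : 0 ≤ g) (hg1 : g < 1) (hL : s * (s - 3) ≤ L)
    (H : ∀ (ψ : ℝ) (z : ℤ), 0 ≤ ψ → ψ * (s * (s - 3)) < 1 →
      ((range L).filter fun i : ℕ => ψ + 1 / (s * (s - 3)) * i ≤ g).card ≤
        (bumps L (1 / (s * (s - 3))) (1 / (3 * (s - 3))) ψ ((n * ψ + z) / 9)).card)
    (hT : TopC I n s (d - s * m)) (hm : I ≤ m)
    (h : EmpA w (Cl ((n * m : ℕ) : ℝ) (n : ℝ))) : EmpA w (Rg s d) := by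
  classical
  have hs0 : 0 < s := by linarith
  have hs3' : 0 < s - 3 := by linarith
  have hD : 0 < s * (s - 3) := mul_pos hs0 hs3'
  -- the columns
  have hflat : EmpA w {p : ℤ × ℤ | 0 ≤ p.2 ∧ Col s d p.2 p.1} → EmpA w (Rg s d) := by
    intro h'
    refine EmpA_flat 1 0 1 0 (by norm_num) ?_ h'
    rintro ⟨x, y⟩ T k ⟨h1, h2, h3, h4⟩ ⟨h5, h6, h7, h8⟩ hk
    simp only at h1 h2 h3 h4 h5 h6 h7 h8
    push_cast at h5 h6 h7 h8
    have hkR : (k : ℝ) ≤ T := by exact_mod_cast hk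
    have hk0 : (0 : ℝ) ≤ k := Nat.cast_nonneg k
    refine ⟨by simp, y, ?_, ?_⟩
    · simp only
      rw [show (1 * x + 0 * y : ℤ) = x by ring]
      exact ⟨h1, h2, h3, h4⟩
    · simp only
      rw [show (1 * x + 0 * y : ℤ) = x by ring]
      have h8' : (y : ℝ) + 1 * T ≤ d / 3 - 1 / (3 * s) * (x - 0 * T) := h8
      refine ⟨h1, by simp only; omega, ?_, ?_⟩
      · simp only; push_cast; linarith
      · simp only; push_cast
        have e : (x : ℝ) - 0 * T = x := by ring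
        rw [e] at h8'
        linarith
  refine hflat ?_
  obtain ⟨C, hC0, hC1⟩ := hT
  have e3 : s * (s - 3) * (1 / (s * (s - 3))) = 1 := by field_simp
  have e4 : (s - 3) * (1 / (3 * (s - 3))) = 1 / 3 := by field_simp
  have hη : 0 ≤ (d : ℝ) - s * m := by rw [← hg]; exact mul_nonneg hg0 hs3'.le
  have hη1 : (d : ℝ) - s * m < s - 3 := by
    rw [← hg]
    have := mul_lt_mul_of_pos_right hg1 hs3'
    linarith
  -- the rows near the top
  have key : ∀ (i : ℕ), i ≤ m → ∀ A : Finset ℤ, (∀ a ∈ A, Col s d ((m - i : ℕ) : ℤ) a) →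
      ∃ B : Finset ℤ, B.card = A.card ∧ ∀ y ∈ B, (y : ℝ) ≤ (s + 3) * (d - s * m) + 3 * s * i ∧
        Int.fract ((y - s * (d - s * m)) * (1 / (3 * (s - 3)))) ≤
          (y - 3 * (d - s * m)) * (1 / (s * (s - 3))) + i := by
    intro i hi A hA
    refine ⟨A.image fun a => a - (n * m - 3 * d), ?_, ?_⟩
    · exact card_image_of_injective _ fun a b hab => by simpa using hab
    · intro y hy
      rw [mem_image] at hy
      obtain ⟨a, ha, rfl⟩ := hy
      obtain ⟨b1, b2, b3⟩ := (hA a ha).bounds hs3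
      have e1 : (((m - i : ℕ) : ℤ) : ℝ) = (m : ℝ) - i := by
        rw [Int.cast_natCast, Nat.cast_sub hi]
      rw [e1] at b2 b3
      push_cast
      constructor
      · rw [← hs]
        linarith
      · have e5 : (a - ((n : ℝ) * m - 3 * d) - s * (d - s * m)) * (1 / (3 * (s - 3))) =
            a * (1 / (3 * (s - 3))) - (d : ℝ) / 3 := by
          rw [← hs]
          linear_combination (-(d : ℝ)) * e4
        rw [e5]
        have e6 : (a - ((n : ℝ) * m - 3 * d) - 3 * (d - s * m)) * (1 / (s * (s - 3))) =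
            a * (1 / (s * (s - 3))) - m := by
          rw [← hs]
          linear_combination (-(m : ℝ)) * e3
        rw [e6]
        linarith
  refine EmpA_top (n := n) (m := m) (C := C) (by omega) (fun p hp => hp.1) ?_ ?_ ?_ ?_ h
  · intro k hk A hA
    have hkR : (k : ℝ) + 1 ≤ m := by exact_mod_cast hk
    have h5 : s * (k + 1) ≤ s * m := mul_le_mul_of_nonneg_left hkR hs0.le
    obtain ⟨x0, hx1, hx2, hx3⟩ := rowE (d := d) (g := g) (L := L) hs hs3 hg hg1 hL hk.le (by linarith)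
      (A := A) (fun a ha => (hA a ha).2)
    obtain ⟨ψ, hψ⟩ : ∃ ψ, ψ = (x0 : ℝ) * (1 / (s * (s - 3))) - k := ⟨_, rfl⟩
    have hψD : ψ * (s * (s - 3)) = x0 - s * (s - 3) * k := by
      rw [hψ]; linear_combination (x0 : ℝ) * e3
    have hψ0 : 0 ≤ ψ := by
      by_contra hcon
      push Not at hcon
      have := mul_neg_of_neg_of_pos hcon hD
      linarith
    have hψ1 : ψ * (s * (s - 3)) < 1 := by linarith
    have hβ' : (s - 3) * (1 / (3 * (s - 3))) = 1 / 3 := e4
    have hv : (x0 : ℝ) * (1 / (3 * (s - 3))) - (d : ℝ) / 3 =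
        (n * ψ + ((n * k - 3 * d - x0 : ℤ) : ℝ)) / 9 := by
      obtain ⟨β, hβ⟩ : ∃ β, β = 1 / (3 * (s - 3)) := ⟨_, rfl⟩
      rw [← hβ] at hβ' ⊢
      push_cast
      have e1 : (n : ℝ) * ψ = s * s * ψ := by rw [hs]
      have e2 : s * s * ψ * (s - 3) = s * (ψ * (s * (s - 3))) := by ring
      have e3 : (n : ℝ) * ψ * (s - 3) = s * (x0 - s * (s - 3) * k) := by rw [e1, e2, hψD]
      have e4 : (n : ℝ) * k * (s - 3) = s * (s * (s - 3) * k) := by rw [← hs]; ring
      have e5 : ((x0 : ℝ) * β - (d : ℝ) / 3) * (s - 3) * 9 =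
          ((n * ψ + (n * k - 3 * d - x0)) / 9) * (s - 3) * 9 := by
        linear_combination 9 * (x0 : ℝ) * hβ' - e3 - e4
      have h9 : (s - 3) * 9 ≠ 0 := by positivity
      have e6 : ((x0 : ℝ) * β - (d : ℝ) / 3) * ((s - 3) * 9) =
          ((n * ψ + (n * k - 3 * d - x0)) / 9) * ((s - 3) * 9) := by linarith
      exact mul_right_cancel₀ h9 e6
    have h6 := H ψ (n * k - 3 * d - x0) hψ0 hψ1
    rw [hv, ← hψ] at hx3
    omega
  · intro A hA
    obtain ⟨B, hB1, hB2⟩ := key 0 (Nat.zero_le _) A (fun a ha => (hA a ha).2)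
    rw [← hB1]
    exact hC0 B hB2
  · intro k hk a hak
    obtain ⟨b1, b2, b3⟩ := hak.2.bounds hs3
    simp only at b1 b2 b3
    have h5 := Int.fract_nonneg ((a : ℝ) * (1 / (3 * (s - 3))) - (d : ℝ) / 3)
    have hkR : (m : ℝ) + 1 ≤ k := by exact_mod_cast hk
    push_cast at b2 b3
    have h6 : (k : ℝ) ≤ a * (1 / (s * (s - 3))) := by linarith
    have h7 : s * (s - 3) * k ≤ s * (s - 3) * (a * (1 / (s * (s - 3)))) :=
      mul_le_mul_of_nonneg_left h6 hD.le
    have e7 : s * (s - 3) * (a * (1 / (s * (s - 3)))) = a := by linear_combination (a : ℝ) * e3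
    rw [e7] at h7
    have h8 : s * (s * k) ≤ s * d := by linarith
    have h9 := le_of_mul_le_mul_left h8 hs0
    have h10 : s * (m + 1) ≤ s * k := mul_le_mul_of_nonneg_left hkR hs0.le
    linarith
  · intro e he
    obtain ⟨i, h1, h2, h3⟩ := hC1 e he
    refine ⟨i, h1, by omega, fun A hA => ?_⟩
    obtain ⟨B, hB1, hB2⟩ := key i (by omega) A (fun a ha => (hA a ha).2)
    rw [← hB1]
    exact h3 B hB2

/-- from the triangle of slope `3 √n` to the plane -/
theorem empA_TT (key : KeyE w) {n d : ℕ} (hn : 10 ≤ n) (hirr : Irrational (√(n : ℝ)))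
    (h : EmpA w (Rg √(n : ℝ) d)) : EmpA w (TT d) := by
  obtain ⟨s, hs⟩ : ∃ s, s = √(n : ℝ) := ⟨_, rfl⟩
  rw [← hs] at h hirr
  have hnR : (10 : ℝ) ≤ n := by exact_mod_cast hn
  have hss : s * s = n := by rw [hs]; exact Real.mul_self_sqrt (by linarith)
  have hs0 : 0 ≤ s := by rw [hs]; exact Real.sqrt_nonneg _
  have hs3 : 3 < s := by
    by_contra hcon
    push Not at hcon
    nlinarith
  obtain ⟨u, hu⟩ : ∃ u : ℤ, u = ⌊s⌋ := ⟨_, rfl⟩
  have hfr : Int.fract s = s - u := by rw [hu]; rfl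
  have h1u := Int.fract_lt_one s
  have hpos : 0 < Int.fract s := by
    refine lt_of_le_of_ne (Int.fract_nonneg s) fun h0 => ?_
    have h1 : s = (⌊s⌋ : ℝ) := by
      have := Int.self_sub_floor s
      linarith [h0]
    exact (Int.not_irrational ⌊s⌋) (by rw [← h1]; exact hirr)
  rw [hfr] at h1u hpos
  refine key d (s - u) hpos h1u ?_
  refine h.comap (-1) (-(3 * (u - 1))) 0 1 ((u - 1) * d) 0 (by norm_num) ?_
  rintro ⟨X, y⟩ ⟨h1, h2, h3⟩
  simp only at h1 h2 h3
  have g1 : 0 ≤ 3 * ((d : ℝ) - 3 * y) := by linarith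
  have g2 : 0 ≤ (s - 3) * ((d : ℝ) - 3 * y) := mul_nonneg (by linarith) (by linarith)
  refine ⟨?_, ?_, ?_, ?_⟩
  · simp only
    have g3 : (0 : ℝ) ≤ ((-1 * X + -(3 * (u - 1)) * y + (u - 1) * d : ℤ) : ℝ) := by
      push_cast
      linarith
    exact_mod_cast g3
  · simp only; omega
  · simp only
    push_cast
    have p1 : 0 < 3 * (s - 3) := by linarith
    have h5 : 3 * (s - 3) * ((d : ℝ) / 3 - 1 / (3 * (s - 3)) * (-1 * (X : ℝ) + -(3 * (u - 1)) * y + (u - 1) * d)) ≤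
        3 * (s - 3) * (0 * (X : ℝ) + 1 * y + 0) := by
      have e : 3 * (s - 3) * ((d : ℝ) / 3 - 1 / (3 * (s - 3)) * (-1 * (X : ℝ) + -(3 * (u - 1)) * y + (u - 1) * d)) =
          (s - 3) * d + X + 3 * (u - 1) * y - (u - 1) * d := by
        have hne : s - 3 ≠ 0 := by linarith
        field_simp
        ring
      rw [e]
      linarith
    have h6 := le_of_mul_le_mul_left h5 p1
    linarith
  · simp only
    push_cast
    have p1 : 0 < 3 * s := by linarith
    have h5 : 3 * s * (0 * (X : ℝ) + 1 * y + 0) ≤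
        3 * s * ((d : ℝ) / 3 - 1 / (3 * s) * (-1 * (X : ℝ) + -(3 * (u - 1)) * y + (u - 1) * d)) := by
      have e : 3 * s * ((d : ℝ) / 3 - 1 / (3 * s) * (-1 * (X : ℝ) + -(3 * (u - 1)) * y + (u - 1) * d)) =
          s * d + X + 3 * (u - 1) * y - (u - 1) * d := by
        field_simp
        ring
      rw [e]
      linarith
    have h6 := le_of_mul_le_mul_left h5 p1
    linarith

end Pool.Agent.K7.H2.RR
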