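import Pool.Agent.K7.H2.RR.CosetE

set_option autoImplicit false

/-! Numerical certificates for emptiness. -/

namespace Pool.Agent.K7.H2.RR

theorem e76 : cerE 76 100000000 871779788 871779789 2006154 2006155 5829750 5829751 47061806 336
      50
    [[211792, 902157, 1486626, 2006155], [276733, 861202, 1072994, 1551567, 1763359, 2006155],
      [341674, 926143, 1616508, 1828300, 2006155], [406615, 991084, 1681449, 1893241, 2006155],
      [471556, 1056025, 1746390, 1958182, 2006155], [536497, 1120966, 1811331, 2006155], [601438,
      1185907, 1876272, 2006155], [666379, 1250848, 1941213, 2006155], [625424, 1315789,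
      2006155]] = true := by
  decide +kernel

theorem e77 : cerE 77 100000000 877496438 877496439 1973355 1973356 5772041 5772042 46580066 395
      51
    [[438378, 1113032, 1568497, 1973356], [488985, 944450, 1382829, 1973356], [539592, 995057,
      1433436, 1973356], [590200, 1045665, 1484043, 1973356], [640807, 1096272, 1534650,
      1973356], [472225, 910603, 1366068, 1973356], [522832, 961211, 1416676, 1973356], [573439,
      1011818, 1467283, 1973356], [624047, 1062425, 1517890, 1973356]] = true := by
  decide +kernel

theorem e78 : cerE 78 100000000 883176086 883176087 1941569 1941570 5715826 5715827 46390456 421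
      52
    [[653294, 1312812, 1941570], [690279, 1023151, 1676445, 1941570], [400618, 1053912, 1713431,
      1941570], [437604, 1090898, 1750416, 1941570], [474589, 1127883, 1787402, 1941570],
      [511575, 1164869, 1824388, 1941570], [548561, 1201855, 1861373, 1941570], [585547, 1238841,
      1898359, 1941570], [622532, 1275826, 1935345, 1941570]] = true := by
  decide +kernel

theorem e79 : cerE 79 100000000 888819441 888819442 1910751 1910752 5661044 5661045 47562921 287
      53
    [[428609, 1073538, 1502147, 1718467, 1910752], [452644, 881253, 1309862, 1742502, 1910752],
      [476680, 905289, 1333898, 1766538, 1910752], [500715, 929324, 1357933, 1790574, 1910752],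
      [524751, 953360, 1381969, 1814609, 1910752], [548786, 977395, 1406005, 1838645, 1910752],
      [572822, 1001431, 1430040, 1862680, 1910752], [596858, 1025467, 1454076, 1886716, 1910752],
      [620893, 1049502, 1478111, 1910752]] = true := by
  decide +kernel

theorem e80 : cerE 80 100000000 894427190 894427191 1880859 1880860 5607639 5607640 47182162 335
      54
    [[419917, 1156248, 1681636, 1787107, 1880860], [431636, 1062496, 1587884, 1798826, 1880860],
      [443355, 1074215, 1599603, 1810545, 1880860], [455074, 1085934, 1611322, 1822264, 1880860],
      [466793, 1097653, 1623041, 1833983, 1880860], [478512, 1109372, 1634760, 1845702, 1880860],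
      [490231, 1121091, 1646479, 1857421, 1880860], [501950, 1132810, 1658198, 1869140, 1880860],
      [513669, 1144529, 1669917, 1880860]] = true := by
  decide +kernel

theorem e82 : cerE 82 100000000 905538513 905538514 1823691 1823692 5504742 5504743 47712780 277
      55
    [[100385, 704564, 1308744, 1509515, 1823692], [189617, 693410, 1297590, 1498361, 1823692],
      [178463, 682256, 1286436, 1487207, 1823692], [167309, 671102, 1275282, 1476053, 1823692],
      [156155, 659948, 1264128, 1464899, 1823692], [145001, 648795, 1252974, 1453745, 1823692],
      [133847, 637641, 1241820, 1442591, 1823692], [122693, 626487, 1230666, 1431437, 1823692],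
      [111539, 615333, 1219512, 1420283, 1823692]] = true := by
  decide +kernel

end Pool.Agent.K7.H2.RR
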