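import Pool.Agent.K7.H2.RR.CosetE

set_option autoImplicit false

/-! Numerical certificates for emptiness. -/

namespace Pool.Agent.K7.H2.RR

theorem e83 : cerE 83 100000000 911043357 911043358 1796341 1796342 5455150 5455151 47692472 282
      56
    [[195970, 787492, 1179433, 1574985, 1796342], [370166, 765718, 1157658, 1553210, 1796342],
      [348391, 743943, 1135884, 1531436, 1796342], [326617, 722169, 1114109, 1509662, 1796342],
      [304842, 700394, 1092335, 1487887, 1796342], [283068, 678620, 1070561, 1466113, 1796342],
      [261293, 656845, 1048786, 1444338, 1796342], [239519, 635071, 1027012, 1422564, 1796342],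
      [217744, 613296, 1005237, 1400789, 1796342]] = true := by
  decide +kernel

theorem e84 : cerE 84 100000000 916515138 916515139 1769769 1769770 5406733 5406734 46674859 410
      57
    [[287013, 866305, 1445598, 1769770], [542135, 834415, 1408441, 1769770], [510245, 802525,
      1376551, 1769770], [478355, 770634, 1344660, 1769770], [446464, 738744, 1312770, 1769770],
      [414574, 706854, 1280880, 1769770], [382684, 674963, 1248989, 1769770], [350793, 643073,
      930086, 1509379, 1769770], [318903, 611183, 898196, 1477489, 1769770]] = true := by
  decide +kernel

theorem e85 : cerE 85 100000000 921954445 921954446 1743941 1743942 5359449 5359450 46945114 380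
      58
    [[373754, 941225, 1314979, 1688733, 1743942], [512262, 899697, 1273451, 1647205, 1743942],
      [470734, 858168, 1231922, 1605677, 1743942], [429206, 816640, 1190394, 1564148, 1743942],
      [387678, 775112, 1148866, 1522620, 1743942], [539867, 913621, 1301055, 1674809, 1743942],
      [498338, 872092, 1259527, 1633281, 1743942], [456810, 830564, 1217998, 1591752, 1743942],
      [415282, 789036, 1176470, 1550224, 1743942]] = true := by
  decide +kernel

theorem e86 : cerE 86 100000000 927361849 927361850 1718828 1718829 5313254 5313255 47617006 299
      59
    [[356814, 912853, 1369279, 1718829], [405712, 862139, 1318565, 1718829], [354998, 811425,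
      1267851, 1718829], [304284, 760711, 1217137, 1718829], [253570, 709996, 1166423, 1365646,
      1718829], [202856, 659282, 1115709, 1314932, 1671747, 1718829], [152142, 608568, 1064995,
      1264218, 1621033, 1718829], [101428, 557854, 1014281, 1213504, 1570319, 1718829], [407529,
      606752, 963567, 1162790, 1419993, 1718829]] = true := by
  decide +kernel

theorem e87 : cerE 87 100000000 932737905 932737906 1694402 1694403 5268110 5268111 46894449 393
      60
    [[525506, 1070483, 1605724, 1694403], [475770, 1011011, 1546253, 1694403], [416299, 951540,
      1486782, 1694403], [356827, 892069, 1427310, 1694403], [297356, 832598, 1367839, 1694403],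
      [237885, 773126, 1308368, 1694403], [178413, 713655, 1248897, 1694403], [118942, 654184,
      1189425, 1694403], [59471, 594712, 1129954, 1149425, 1674931, 1694403]] = true := by
  decide +kernel

theorem e88 : cerE 88 100000000 938083151 938083152 1670634 1670635 5223979 5223980 47547342 313
      60
    [[152259, 686530, 1144671, 1670635], [160567, 618707, 1076848, 1611119, 1670635], [474755,
      1009026, 1543297, 1670635], [483063, 941204, 1475475, 1627734, 1670635], [415241, 873382,
      1407652, 1559912, 1670635], [347418, 805559, 1339830, 1492090, 1670635], [279596, 737737,
      889997, 1272008, 1424267, 1670635], [211774, 669915, 822174, 1204185, 1356445, 1670635],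
      [143952, 602092, 830482, 1136363, 1364752, 1670635]] = true := by
  decide +kernel

end Pool.Agent.K7.H2.RR
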