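import Pool.Agent.K7.H2.RR.CosetE

set_option autoImplicit false

/-! Numerical certificates for emptiness. -/

namespace Pool.Agent.K7.H2.RR

theorem e89 : cerE 89 100000000 943398113 943398114 1647499 1647500 5180825 5180826 47116871 371
      61
    [[316376, 840280, 1205995, 1647500], [398776, 764492, 1130207, 1647500], [322988, 688704,
      1054419, 1578323, 1647500], [454728, 771104, 1136820, 1502535, 1647500], [378940, 695316,
      1061032, 1426747, 1647500], [461340, 827055, 1143432, 1509147, 1647500], [385552, 751267,
      1067644, 1433359, 1647500], [309764, 675479, 991856, 1357571, 1647500], [233976, 599691,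
      916068, 1123595, 1598160, 1647500]] = true := by
  decide +kernel

theorem e90 : cerE 90 100000000 948683298 948683299 1624972 1624973 5138614 5138615 47286812 352
      62
    [[236631, 750493, 1264354, 1624973], [389874, 903736, 1417597, 1624973], [306486, 820348,
      1097578, 1570841, 1624973], [459730, 973591, 1487453, 1624973], [376342, 890203, 1404065,
      1624973], [292953, 806815, 1084045, 1361275, 1597906, 1624973], [250164, 723427, 1000657,
      1277887, 1514518, 1624973], [166776, 640039, 917269, 1194499, 1431130, 1624973], [83388,
      320019, 597249, 833881, 1111111, 1347742, 1624973]] = true := by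
  decide +kernel

theorem e91 : cerE 91 100000000 953939201 953939202 1603031 1603032 5097313 5097314 47843837 282
      63
    [[311640, 815770, 1127411, 1439052, 1603032], [340151, 725129, 1036770, 1348410, 1603032],
      [441999, 753639, 1138618, 1450258, 1603032], [351357, 662998, 1047977, 1359617, 1603032],
      [453205, 764846, 1076487, 1268976, 1461465, 1603032], [362564, 674205, 985846, 1178335,
      1370824, 1603032], [271923, 583564, 776053, 895205, 1087694, 1280183, 1399334, 1603032],
      [300433, 492923, 685412, 804563, 997053, 1189542, 1308693, 1501183, 1603032], [209792,
      521433, 713922, 1025563, 1218052, 1410541, 1603032]] = true := by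
  decide +kernel

theorem e92 : cerE 92 100000000 959166304 959166305 1581652 1581653 5056892 5056893 47527180 326
      64
    [[272071, 766767, 1261463, 1581653], [285819, 780515, 1163898, 1547282, 1581653], [188254,
      682950, 1066334, 1449718, 1581653], [362761, 857457, 1352153, 1574778, 1581653], [376509,
      871205, 1254589, 1477214, 1581653], [278945, 662328, 884953, 1157024, 1379649, 1581653],
      [181380, 564764, 787389, 1059460, 1282085, 1554156, 1581653], [83816, 467200, 689824,
      961896, 1184520, 1345279, 1567904, 1581653], [258323, 480948, 864331, 1247715, 1581653]] =
      true := by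
  decide +kernel

theorem e93 : cerE 93 100000000 964365076 964365077 1560816 1560817 5017321 5017322 46440211 473
      65
    [[452020, 937568, 1389588, 1560817], [766340, 1285414, 1560817], [662166, 1181240, 1560817],
      [557992, 1077066, 1529087, 1560817], [453818, 972892, 1424912, 1560817], [416696, 868717,
      1320738, 1560817], [312522, 764543, 1216564, 1560817], [208348, 660369, 1112390, 1179443,
      1560817], [104174, 556195, 1008215, 1460236, 1560817]] = true := by
  decide +kernel

theorem e94 : cerE 94 100000000 969535971 969535972 1540501 1540502 4978572 4978573 46856032 421
      65
    [[123091, 599763, 1035404, 1512076, 1540502], [489277, 924918, 1401590, 1540502], [378791,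
      814432, 1291104, 1540502], [268305, 703946, 1180618, 1540502], [157819, 593460, 1029101,
      1505773, 1540502], [441944, 918615, 1395287, 1477348, 1540502], [372488, 808129, 1284801,
      1366862, 1540502], [262002, 697643, 1174315, 1297407, 1540502], [192546, 628188, 1063829,
      1540502]] = true := by
  decide +kernel

end Pool.Agent.K7.H2.RR
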