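import Pool.Agent.K7.H2.RR.CosetE

set_option autoImplicit false

/-! Numerical certificates for emptiness. -/

namespace Pool.Agent.K7.H2.RR

theorem e95 : cerE 95 100000000 974679434 974679435 1520690 1520691 4940617 4940618 47391354 352
      66
    [[225026, 693085, 1161143, 1520691], [464057, 1044629, 1400174, 1520691], [460056, 928114,
      1283659, 1508686, 1520691], [343541, 811600, 1167145, 1392171, 1520691], [227027, 582572,
      1050630, 1275657, 1520691], [223025, 466057, 934116, 1159143, 1514688, 1520691], [349543,
      574569, 817602, 1042628, 1285660, 1398173, 1510687, 1520691], [233028, 345542, 701087,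
      926114, 1169146, 1394172, 1520691], [229027, 454054, 809599, 1165144, 1520691]] = true := by
  decide +kernel

theorem e96 : cerE 96 100000000 979795897 979795898 1501363 1501364 4903432 4903433 47947914 279
      67
    [[362126, 821823, 1100456, 1462583, 1501364], [420916, 880613, 1159246, 1437880, 1501364],
      [396214, 758340, 1036973, 1315607, 1496670, 1501364], [455004, 733637, 1095764, 1374397,
      1501364], [332731, 611364, 973491, 1252124, 1433187, 1501364], [210458, 489091, 670155,
      851218, 948788, 1129851, 1310915, 1408485, 1501364], [269248, 366818, 547882, 728945,
      826515, 1007578, 1188642, 1286212, 1369705, 1467275, 1501364], [244545, 425609, 606672,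
      787735, 885305, 1066369, 1247432, 1501364], [205765, 484399, 763032, 1041666, 1222729,
      1501364]] = true := by
  decide +kernel

theorem e97 : cerE 97 100000000 984885780 984885781 1482504 1482505 4866991 4866992 47284219 372
      68
    [[288880, 740456, 1192033, 1482505], [570620, 1022197, 1473774, 1482505], [484907, 894422,
      1345999, 1482505], [357132, 766648, 1013467, 1260286, 1465043, 1482505], [434115, 680934,
      1090449, 1337268, 1482505], [306341, 553160, 757917, 1004736, 1209494, 1414251, 1482505],
      [383324, 630143, 834900, 1081719, 1286477, 1328538, 1482505], [255549, 544429, 749187,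
      996006, 1200763, 1405521, 1482505], [374593, 621412, 868231, 1277746, 1482505]] = true := by
  decide +kernel

theorem e98 : cerE 98 100000000 989949493 989949494 1464096 1464097 4831271 4831272 47825928 300
      69
    [[309908, 753596, 1063505, 1464097], [353005, 620565, 930473, 1240382, 1464097], [353753,
      663662, 931221, 1107350, 1464097], [354501, 664410, 974318, 1241878, 1464097], [221470,
      531378, 841287, 975066, 1284975, 1464097], [264567, 398347, 532126, 708255, 842035, 975814,
      1151943, 1419503, 1464097], [265315, 399095, 575223, 709003, 842783, 885132, 1018912,
      1286471, 1462600, 1464097], [266063, 442192, 709751, 885880, 1153439, 1463348, 1464097],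
      [309160, 576719, 752848, 1020408, 1330316, 1464097]] = true := by
  decide +kernel

theorem e99 : cerE 99 100000000 994987437 994987438 1446123 1446124 4796249 4796250 47122251 400
      70
    [[370454, 806477, 1176931, 1446124], [537285, 1038876, 1446124], [399229, 835252, 1271275,
      1446124], [392310, 762765, 1133219, 1446124], [254255, 624709, 995164, 1431186, 1446124],
      [116199, 486654, 857108, 1293131, 1424267, 1446124], [348598, 719053, 850189, 1155075,
      1286212, 1446124], [210542, 515429, 712133, 951452, 1387474, 1446124], [138055, 508510,
      878964, 1314987, 1446124]] = true := by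
  decide +kernel

end Pool.Agent.K7.H2.RR
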