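import Pool.Agent.K7.H2.RR.TopD

set_option autoImplicit false

/-! Numerical certificates for the top rows. -/

namespace Pool.Agent.K7.H2.RR

theorem f61 : topE 7 61 100000000 781024967 781024968 2661751 2661752 6929647 6929648 39 357
      192775001 222662485
    [(202046542, 6, [(2, -69), (2, -69), (4, -144), (4, -144), (5, -182), (6, -219)]),
      (208995700, 7, [(2, -69), (2, -69), (3, -106), (4, -144), (5, -181), (7, -256), (7,
      -256)]), (215323461, 7, [(1, -31), (2, -68), (4, -144), (4, -144), (5, -181), (7, -256),
      (7, -256)]), (218840246, 7, [(2, -68), (2, -68), (3, -106), (4, -143), (5, -181), (7,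
      -256), (7, -256)]), (220589306, 7, [(2, -68), (2, -68), (4, -143), (4, -143), (5, -181),
      (6, -218)]), (221921603, 7, [(2, -68), (2, -68), (4, -143), (4, -143), (5, -181), (6,
      -218)]), (222662485, 7, [(1, -30), (2, -68), (4, -143), (4, -143), (5, -181), (6, -218),
      (7, -256)])] = true := by
  decide +kernel

theorem f62 : topE 7 62 100000000 787400787 787400788 2605661 2605662 6838998 6838999 40 366
      196079545 225400395
    [(204195901, 6, [(1, -32), (2, -70), (4, -147), (4, -147), (5, -186), (6, -224), (7, -262)]),
      (210500875, 7, [(1, -32), (2, -70), (3, -109), (4, -147), (5, -185), (6, -224)]),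
      (214150623, 7, [(1, -32), (2, -70), (4, -147), (4, -147), (5, -185), (7, -262), (7,
      -262)]), (217651831, 7, [(2, -70), (2, -70), (4, -147), (4, -147), (5, -185), (7, -262),
      (7, -262)]), (221131477, 7, [(1, -31), (2, -70), (3, -108), (4, -146), (5, -185), (6,
      -223), (7, -262)]), (223555078, 7, [(1, -31), (2, -70), (4, -146), (4, -146), (5, -185),
      (7, -262), (7, -262)]), (225400395, 7, [(2, -70), (2, -70), (4, -146), (4, -146), (5,
      -185), (7, -261), (7, -261)])] = true := by
  decide +kernel

theorem f63 : topE 8 63 100000000 793725393 793725394 2551786 2551787 6751391 6751392 41 476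
      199355695 223062698
    [(208174539, 6, [(1, -33), (2, -72), (3, -111), (5, -189), (5, -189), (7, -268), (7, -268)]),
      (214320807, 7, [(1, -32), (2, -72), (3, -111), (4, -150), (5, -189), (8, -307), (7,
      -268)]), (219163848, 7, [(1, -32), (2, -71), (3, -111), (5, -189), (5, -189), (6, -228)]),
      (222875655, 7, [(2, -71), (2, -71), (4, -150), (4, -150), (5, -189), (8, -306), (8,
      -306)]), (223062698, 7, [(1, -32), (2, -71), (3, -110), (4, -150), (5, -189), (7, -267),
      (7, -267)])] = true := by
  decide +kernel

theorem f65 : topE 8 65 100000000 806225774 806225775 2450186 2450187 6584677 6584678 42 459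
      205825646 230162888
    [(212928014, 7, [(1, -34), (2, -75), (3, -116), (5, -197), (5, -197), (6, -238), (7, -279)]),
      (219240118, 7, [(2, -75), (2, -75), (3, -116), (4, -156), (5, -197), (6, -238), (8,
      -320)]), (224543308, 7, [(1, -34), (3, -115), (3, -115), (5, -197), (5, -197), (6, -238),
      (7, -279)]), (228279864, 7, [(2, -74), (2, -74), (3, -115), (4, -156), (5, -197), (6,
      -238), (8, -319)]), (230158670, 7, [(1, -33), (2, -74), (3, -115), (5, -197), (5, -197),
      (6, -238), (7, -278)]), (230162888, 7, [(1, -33), (2, -74), (3, -115), (5, -197), (5,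
      -197), (6, -237), (7, -278)])] = true := by
  decide +kernel

theorem f66 : topE 9 66 100000000 812403840 812403841 2402235 2402236 6505285 6505286 43 345
      209020793 238951921
    [(218048236, 7, [(2, -76), (2, -76), (3, -118), (6, -243), (6, -243), (6, -243), (7, -285),
      (9, -368)]), (223646598, 7, [(2, -76), (2, -76), (3, -118), (5, -201), (5, -201), (6,
      -243), (7, -284)]), (228291133, 7, [(1, -34), (2, -76), (3, -118), (4, -159), (6, -243),
      (6, -243), (7, -284)]), (231724307, 7, [(2, -76), (2, -76), (3, -118), (5, -201), (5,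
      -201), (6, -242), (8, -326)]), (234981423, 7, [(1, -34), (2, -76), (3, -117), (4, -159),
      (5, -201), (6, -242), (7, -284), (8, -326)]), (235705202, 8, [(1, -34), (2, -76), (3,
      -117), (4, -159), (5, -201), (6, -242), (7, -284)]), (237610083, 8, [(1, -34), (2, -76),
      (3, -117), (4, -159), (6, -242), (6, -242), (7, -284)]), (238326569, 8, [(1, -34), (2,
      -76), (3, -117), (4, -159), (5, -201), (6, -242), (9, -367)]), (238870635, 8, [(1, -34),
      (2, -76), (3, -117), (4, -159), (5, -200), (6, -242), (9, -367)]), (238944825, 8, [(1,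
      -34), (2, -76), (3, -117), (4, -159), (5, -200), (6, -242), (9, -367)]), (238951921, 8,
      [(1, -34), (2, -76), (3, -117), (4, -159), (5, -200), (6, -242), (9, -367)])] = true := by
  decide +kernel

theorem f67 : topE 8 67 100000000 818535277 818535278 2356048 2356049 6428363 6428364 44 357
      212190242 241417640
    [(221153436, 7, [(2, -78), (2, -78), (3, -120), (4, -163), (5, -205), (6, -248), (7, -290)]),
      (225793315, 7, [(1, -35), (2, -78), (3, -120), (4, -163), (5, -205), (6, -248), (7,
      -290)]), (230442142, 7, [(2, -78), (2, -78), (3, -120), (4, -163), (5, -205), (6, -247),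
      (7, -290)]), (233947309, 7, [(1, -35), (2, -77), (3, -120), (5, -205), (5, -205), (6,
      -247), (7, -290), (8, -332)]), (236951903, 8, [(1, -35), (2, -77), (3, -120), (4, -162),
      (6, -247), (6, -247), (7, -290)]), (239382406, 8, [(2, -77), (2, -77), (3, -120), (4,
      -162), (5, -205), (6, -247), (7, -289)]), (240284782, 8, [(1, -35), (2, -77), (3, -120),
      (4, -162), (5, -205), (6, -247), (7, -289)]), (240405997, 8, [(1, -35), (2, -77), (3,
      -120), (4, -162), (5, -205), (6, -247), (7, -289)]), (241289876, 8, [(1, -35), (2, -77),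
      (3, -120), (5, -205), (5, -205), (6, -247), (7, -289)]), (241408606, 8, [(1, -35), (2,
      -77), (3, -120), (5, -204), (5, -204), (6, -247), (7, -289), (8, -332)]), (241417640, 8,
      [(1, -35), (2, -77), (3, -120), (5, -204), (5, -204), (6, -247), (7, -289), (8, -332)])] =
      true := by
  decide +kernel

end Pool.Agent.K7.H2.RR
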