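import Pool.Agent.K7.H2.RR.TopD

set_option autoImplicit false

/-! Numerical certificates for the top rows. -/

namespace Pool.Agent.K7.H2.RR

theorem f68 : topE 8 68 100000000 824621125 824621126 2311531 2311532 6353791 6353792 45 391
      215334599 242760564
    [(222701355, 7, [(1, -36), (2, -80), (3, -123), (4, -166), (5, -209), (6, -253), (7, -296),
      (8, -339)]), (228049150, 7, [(1, -36), (2, -79), (3, -123), (4, -166), (5, -209), (6,
      -252), (7, -296)]), (232088145, 7, [(1, -36), (2, -79), (3, -122), (4, -166), (5, -209),
      (6, -252), (7, -295), (8, -339)]), (235837046, 7, [(2, -79), (2, -79), (3, -122), (4,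
      -166), (5, -209), (6, -252), (7, -295)]), (238817440, 8, [(2, -79), (2, -79), (3, -122),
      (4, -165), (5, -209), (6, -252), (7, -295)]), (241228377, 8, [(1, -36), (2, -79), (3,
      -122), (4, -165), (5, -209), (6, -252), (7, -295), (8, -338)]), (242760564, 8, [(1, -36),
      (2, -79), (3, -122), (5, -209), (5, -209), (6, -252), (7, -295), (8, -338)])] = true := by
  decide +kernel

theorem f69 : topE 8 69 100000000 830662386 830662387 2268595 2268596 6281457 6281458 46 525
      218454450 239081194
    [(225372300, 7, [(1, -37), (2, -81), (3, -125), (4, -169), (5, -213), (6, -257), (7, -302)]),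
      (231500160, 7, [(2, -81), (2, -81), (3, -125), (4, -169), (5, -213), (6, -257), (7, -301),
      (8, -345)]), (235997290, 7, [(1, -37), (2, -81), (4, -169), (4, -169), (5, -213), (6,
      -257), (7, -301)]), (239081194, 8, [(2, -81), (2, -81), (3, -125), (4, -169), (5, -213),
      (6, -257), (7, -301), (8, -345)])] = true := by
  decide +kernel

theorem f70 : topE 8 70 100000000 836660026 836660027 2227161 2227162 6211256 6211257 46 439
      221550357 246380014
    [(230111234, 7, [(2, -83), (2, -83), (3, -128), (4, -172), (5, -217), (8, -352), (8, -352),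
      (8, -352)]), (235037414, 7, [(1, -37), (2, -82), (3, -127), (4, -172), (5, -217), (6,
      -262), (7, -307)]), (240261377, 8, [(2, -82), (2, -82), (3, -127), (4, -172), (5, -217),
      (6, -262), (8, -352), (8, -352)]), (241945659, 8, [(1, -37), (2, -82), (3, -127), (4,
      -172), (5, -217), (6, -262), (7, -307)]), (244225556, 8, [(1, -37), (2, -82), (3, -127),
      (4, -172), (5, -217), (6, -262), (7, -307)]), (246380014, 8, [(1, -37), (2, -82), (3,
      -127), (4, -172), (5, -217), (7, -306), (7, -306), (8, -351)])] = true := by
  decide +kernel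

theorem f71 : topE 8 71 100000000 842614977 842614978 2187152 2187153 6143091 6143092 47 379
      224622861 252357490
    [(233172327, 7, [(1, -38), (2, -84), (4, -176), (4, -176), (5, -221), (6, -267), (8, -359),
      (8, -359)]), (239182090, 7, [(1, -38), (2, -84), (3, -130), (4, -175), (5, -221), (6,
      -267), (7, -313), (8, -358)]), (243049373, 8, [(2, -84), (2, -84), (3, -129), (4, -175),
      (5, -221), (8, -358), (7, -312)]), (246926091, 8, [(1, -38), (2, -84), (3, -129), (4,
      -175), (5, -221), (6, -267), (7, -312), (8, -358)]), (249545489, 8, [(1, -38), (2, -84),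
      (3, -129), (4, -175), (5, -221), (6, -266), (7, -312), (8, -358)]), (251366831, 8, [(1,
      -38), (2, -83), (3, -129), (4, -175), (5, -221), (6, -266), (7, -312)]), (252236383, 8,
      [(2, -83), (2, -83), (3, -129), (4, -175), (5, -221), (6, -266), (7, -312)]), (252346608,
      8, [(2, -83), (2, -83), (3, -129), (4, -175), (5, -221), (6, -266), (7, -312)]),
      (252357490, 8, [(2, -83), (2, -83), (3, -129), (4, -175), (5, -221), (6, -266), (7,
      -312)])] = true := by
  decide +kernel

theorem f72 : topE 8 72 100000000 848528137 848528138 2148497 2148498 6076868 6076869 48 317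
      227672482 258414070
    [(235852399, 7, [(2, -86), (2, -86), (3, -132), (4, -179), (5, -225), (6, -272), (7, -318),
      (8, -365)]), (241359165, 8, [(1, -39), (2, -86), (5, -225), (4, -179), (5, -225), (6,
      -272), (7, -318)]), (246097019, 8, [(1, -39), (2, -85), (3, -132), (4, -178), (5, -225),
      (6, -272), (7, -318), (8, -365)]), (249678408, 8, [(2, -85), (2, -85), (3, -132), (4,
      -178), (5, -225), (6, -271), (7, -318), (8, -364)]), (251471875, 8, [(1, -39), (2, -85),
      (3, -132), (4, -178), (5, -225), (6, -271), (7, -318)]), (253265991, 8, [(2, -85), (2,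
      -85), (3, -132), (4, -178), (5, -225), (6, -271), (7, -318), (8, -364)]), (254803815, 8,
      [(1, -38), (2, -85), (3, -132), (4, -178), (5, -225), (6, -271), (7, -318), (8, -364)]),
      (255572727, 8, [(1, -38), (2, -85), (3, -131), (4, -178), (5, -225), (8, -364), (7, -318),
      (8, -364)]), (256462629, 8, [(1, -38), (3, -131), (3, -131), (4, -178), (5, -225), (7,
      -318), (7, -318), (8, -364)]), (257234932, 8, [(1, -38), (2, -85), (3, -131), (4, -178),
      (5, -225), (6, -271), (7, -318), (8, -364)]), (258414070, 8, [(2, -85), (2, -85), (3,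
      -131), (4, -178), (5, -225), (6, -271), (7, -318), (8, -364)])] = true := by
  decide +kernel

theorem f73 : topE 8 73 100000000 854400374 854400375 2111130 2111131 6012501 6012502 49 419
      230699724 256250188
    [(238294445, 7, [(1, -40), (2, -87), (3, -135), (4, -182), (5, -229), (6, -277), (7, -324),
      (8, -372)]), (243666752, 8, [(1, -40), (2, -87), (4, -182), (4, -182), (5, -229), (6,
      -277), (7, -324), (8, -371)]), (247539084, 8, [(2, -87), (2, -87), (3, -134), (4, -182),
      (5, -229), (6, -276), (7, -324), (8, -371)]), (251212669, 8, [(1, -39), (3, -134), (3,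
      -134), (4, -182), (5, -229), (6, -276), (7, -324)]), (254400374, 8, [(1, -39), (2, -87),
      (3, -134), (4, -181), (5, -229), (6, -276), (7, -324), (8, -371)]), (256201590, 8, [(1,
      -39), (2, -87), (3, -134), (4, -181), (5, -229), (6, -276), (7, -323), (8, -371)]),
      (256250188, 8, [(1, -39), (2, -87), (3, -134), (4, -181), (5, -229), (6, -276), (7, -323),
      (8, -371)])] = true := by
  decide +kernel

end Pool.Agent.K7.H2.RR
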