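import Pool.Agent.K7.H2.RR.TopD

set_option autoImplicit false

/-! Numerical certificates for the top rows. -/

namespace Pool.Agent.K7.H2.RR

theorem f74 : topE 9 74 100000000 860232526 860232527 2074989 2074990 5949910 5949911 50 331
      233705070 263566264
    [(242656484, 8, [(1, -41), (2, -89), (4, -185), (4, -185), (6, -282), (6, -282), (7, -330),
      (8, -378)]), (249326753, 8, [(1, -40), (2, -89), (3, -137), (5, -233), (5, -233), (6,
      -281), (7, -330), (8, -378)]), (253277232, 8, [(1, -40), (2, -88), (3, -137), (4, -185),
      (5, -233), (6, -281), (7, -329), (9, -426)]), (256463929, 8, [(1, -40), (3, -136), (3,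
      -136), (4, -185), (5, -233), (6, -281), (7, -329), (8, -377)]), (258576747, 8, [(1, -40),
      (2, -88), (3, -136), (4, -185), (5, -233), (6, -281), (7, -329), (8, -377)]), (260558957,
      8, [(2, -88), (2, -88), (4, -185), (4, -185), (5, -233), (6, -281), (7, -329), (8, -377)]),
      (261896194, 8, [(2, -88), (2, -88), (3, -136), (4, -184), (5, -233), (6, -281), (7, -329),
      (9, -425)]), (263559862, 8, [(1, -40), (3, -136), (3, -136), (4, -184), (5, -233), (6,
      -281), (7, -329), (9, -425)]), (263566264, 8, [(1, -40), (3, -136), (3, -136), (4, -184),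
      (5, -233), (6, -281), (7, -329), (9, -425)])] = true := by
  decide +kernel

theorem f75 : topE 9 75 100000000 866025403 866025404 2040015 2040016 5889017 5889018 51 413
      236688987 262362703
    [(245087115, 8, [(1, -41), (2, -90), (3, -139), (4, -188), (5, -237), (6, -287), (7, -336),
      (8, -385)]), (253641897, 8, [(1, -41), (2, -90), (3, -139), (4, -188), (5, -237), (6,
      -286), (7, -335), (8, -384)]), (257614247, 8, [(2, -90), (2, -90), (3, -139), (4, -188),
      (5, -237), (6, -286), (7, -335), (8, -384), (9, -433)]), (262362703, 8, [(1, -41), (2,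
      -90), (3, -139), (4, -188), (5, -237), (6, -286), (7, -335), (8, -384)])] = true := by
  decide +kernel

theorem f76 : topE 9 76 100000000 871779788 871779789 2006154 2006155 5829750 5829751 51 336
      239651925 269089895
    [(247712972, 8, [(1, -42), (2, -92), (4, -192), (4, -192), (5, -242), (6, -291), (8, -391),
      (8, -391), (9, -441)]), (253283454, 8, [(1, -42), (3, -142), (3, -142), (4, -191), (5,
      -241), (6, -291), (7, -341), (8, -391)]), (258559000, 8, [(2, -92), (2, -92), (3, -141),
      (4, -191), (5, -241), (6, -291), (7, -341), (8, -391)]), (262091272, 8, [(1, -42), (3,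
      -141), (3, -141), (4, -191), (5, -241), (6, -291), (7, -341), (8, -391)]), (265417102, 8,
      [(1, -41), (2, -91), (4, -191), (4, -191), (5, -241), (6, -291), (8, -390), (8, -390), (9,
      -440)]), (267519299, 8, [(2, -91), (2, -91), (3, -141), (4, -191), (5, -241), (6, -291),
      (7, -340), (8, -390)]), (268922215, 9, [(1, -41), (2, -91), (3, -141), (5, -241), (5,
      -241), (6, -291), (7, -340), (9, -440)]), (269088349, 9, [(1, -41), (2, -91), (3, -141),
      (5, -241), (5, -241), (6, -291), (7, -340), (8, -390)]), (269089895, 9, [(1, -41), (2,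
      -91), (3, -141), (5, -241), (5, -241), (6, -291), (7, -340), (8, -390)])] = true := by
  decide +kernel

theorem f77 : topE 9 77 100000000 877496438 877496439 1973355 1973356 5772041 5772042 52 395
      242594321 268998220
    [(250537044, 8, [(1, -43), (3, -144), (3, -144), (4, -195), (5, -246), (6, -296), (7, -347),
      (8, -398)]), (257752063, 8, [(1, -43), (2, -93), (3, -144), (4, -195), (5, -245), (6,
      -296), (7, -347), (8, -397), (9, -448)]), (260511249, 8, [(1, -42), (2, -93), (3, -144),
      (4, -194), (5, -245), (6, -296), (7, -346), (8, -397)]), (263485471, 8, [(1, -42), (2,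
      -93), (3, -144), (4, -194), (5, -245), (6, -296), (7, -346), (8, -397), (9, -448)]),
      (266244657, 8, [(1, -42), (2, -93), (3, -144), (4, -194), (5, -245), (6, -296), (7, -346),
      (8, -397)]), (268998220, 8, [(1, -42), (2, -93), (3, -144), (4, -194), (5, -245), (6,
      -296), (7, -346), (8, -397)])] = true := by
  decide +kernel

theorem f78 : topE 9 78 100000000 883176086 883176087 1941569 1941570 5715826 5715827 53 421
      245516593 270538044
    [(253634561, 8, [(1, -44), (2, -95), (3, -147), (4, -198), (5, -250), (6, -301), (7, -353),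
      (8, -404), (9, -456)]), (257820604, 8, [(1, -43), (2, -95), (3, -146), (4, -198), (5,
      -249), (6, -301), (7, -352), (8, -404)]), (262086388, 8, [(1, -43), (2, -95), (3, -146),
      (4, -198), (5, -249), (6, -301), (7, -352), (8, -404), (9, -455)]), (266272431, 8, [(1,
      -43), (2, -95), (3, -146), (4, -198), (5, -249), (6, -301), (7, -352), (8, -404)]),
      (270538044, 8, [(1, -43), (2, -95), (3, -146), (4, -198), (5, -249), (6, -301), (7, -352),
      (8, -404), (9, -455)])] = true := by
  decide +kernel

theorem f79 : topE 9 79 100000000 888819441 888819442 1910751 1910752 5661044 5661045 54 287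
      248419148 280059722
    [(256669662, 8, [(1, -44), (2, -97), (3, -149), (4, -201), (5, -254), (6, -306), (7, -358),
      (8, -411)]), (262516210, 8, [(1, -44), (2, -96), (3, -149), (4, -201), (5, -253), (6,
      -306), (7, -358), (8, -410), (9, -463)]), (268182376, 8, [(1, -44), (2, -96), (3, -149),
      (4, -201), (5, -253), (6, -306), (7, -358), (8, -410)]), (271281197, 9, [(1, -44), (2,
      -96), (3, -148), (4, -201), (5, -253), (6, -305), (7, -358), (8, -410), (9, -462)]),
      (274181023, 9, [(1, -44), (2, -96), (3, -148), (4, -201), (5, -253), (6, -305), (7, -358),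
      (8, -410)]), (276964691, 9, [(1, -44), (2, -96), (3, -148), (4, -201), (5, -253), (6,
      -305), (7, -358), (8, -410)]), (277375306, 9, [(1, -44), (2, -96), (3, -148), (4, -201),
      (5, -253), (6, -305), (7, -358), (9, -462)]), (277638883, 9, [(1, -44), (3, -148), (3,
      -148), (4, -201), (5, -253), (6, -305), (7, -358), (8, -410), (9, -462)]), (279811932, 9,
      [(1, -44), (2, -96), (3, -148), (4, -201), (5, -253), (6, -305), (7, -358), (8, -410), (9,
      -462)]), (280059495, 9, [(1, -43), (2, -96), (3, -148), (4, -200), (5, -253), (6, -305),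
      (7, -357), (8, -410), (9, -462)]), (280059722, 9, [(1, -43), (2, -96), (3, -148), (4,
      -200), (5, -253), (6, -305), (7, -357), (8, -410), (9, -462)])] = true := by
  decide +kernel

theorem f80 : topE 9 80 100000000 894427190 894427191 1880859 1880860 5607639 5607640 55 335
      251302379 280463596
    [(258588675, 8, [(2, -98), (2, -98), (3, -151), (4, -205), (6, -311), (6, -311), (8, -417),
      (8, -417)]), (263737740, 8, [(1, -45), (3, -151), (3, -151), (4, -204), (5, -258), (6,
      -311), (7, -364), (9, -470)]), (268613467, 8, [(1, -45), (2, -98), (3, -151), (4, -204),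
      (5, -257), (6, -311), (7, -364), (8, -417), (9, -470)]), (272109954, 9, [(1, -45), (3,
      -151), (3, -151), (4, -204), (5, -257), (6, -310), (7, -364), (9, -470)]), (275790208, 9,
      [(2, -98), (2, -98), (3, -151), (4, -204), (6, -310), (6, -310), (8, -417), (8, -417)]),
      (277708763, 9, [(1, -44), (2, -98), (3, -151), (4, -204), (5, -257), (7, -363), (7, -363),
      (8, -417), (9, -470)]), (280463596, 9, [(1, -44), (3, -151), (3, -151), (4, -204), (5,
      -257), (7, -363), (7, -363), (9, -470), (9, -470)])] = true := by
  decide +kernel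

end Pool.Agent.K7.H2.RR
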