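import Pool.Agent.K7.H2.RR.TopD

set_option autoImplicit false

/-! Numerical certificates for the top rows. -/

namespace Pool.Agent.K7.H2.RR

theorem f82 : topE 10 82 100000000 905538513 905538514 1823691 1823692 5504742 5504743 56 277
      257012376 288919258
    [(264088717, 8, [(1, -47), (2, -101), (3, -156), (4, -211), (5, -266), (6, -321), (7, -376),
      (8, -430)]), (270980053, 8, [(1, -46), (2, -101), (3, -156), (4, -211), (5, -266), (6,
      -321), (7, -375), (8, -430), (9, -485)]), (275841887, 9, [(1, -46), (2, -101), (3, -156),
      (4, -211), (5, -266), (7, -375), (7, -375), (8, -430), (9, -485)]), (278852390, 9, [(1,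
      -46), (2, -101), (3, -156), (5, -265), (5, -265), (6, -320), (7, -375), (8, -430), (9,
      -485)]), (280678814, 9, [(1, -46), (2, -101), (3, -156), (4, -210), (6, -320), (6, -320),
      (7, -375), (8, -430)]), (283064070, 9, [(1, -46), (2, -101), (3, -156), (4, -210), (5,
      -265), (6, -320), (7, -375), (8, -430), (10, -539)]), (284552799, 9, [(1, -46), (2, -101),
      (3, -156), (4, -210), (5, -265), (7, -375), (7, -375), (8, -430), (9, -485)]), (285943128,
      9, [(1, -46), (2, -101), (3, -155), (5, -265), (5, -265), (7, -375), (7, -375), (8, -430),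
      (9, -484)]), (287345680, 9, [(1, -46), (2, -101), (3, -155), (5, -265), (5, -265), (6,
      -320), (7, -375), (8, -430), (9, -484)]), (288703529, 9, [(1, -46), (2, -101), (3, -155),
      (4, -210), (5, -265), (6, -320), (7, -375), (8, -430)]), (288852561, 9, [(1, -46), (2,
      -101), (3, -155), (4, -210), (5, -265), (6, -320), (7, -375), (8, -430)]), (288914962, 9,
      [(1, -46), (2, -101), (3, -155), (4, -210), (6, -320), (6, -320), (7, -375), (8, -430)]),
      (288919258, 9, [(1, -46), (2, -101), (3, -155), (4, -210), (6, -320), (6, -320), (7, -375),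
      (8, -430)])] = true := by
  decide +kernel

theorem f83 : topE 9 83 100000000 911043357 911043358 1796341 1796342 5455150 5455151 57 282
      259839866 291421680
    [(268410775, 8, [(1, -47), (2, -103), (3, -159), (4, -214), (5, -270), (6, -326), (7, -381),
      (8, -437), (9, -493)]), (274218056, 9, [(1, -47), (2, -103), (3, -158), (4, -214), (5,
      -270), (6, -325), (7, -381), (8, -437), (9, -492)]), (278013987, 9, [(1, -47), (3, -158),
      (3, -158), (4, -214), (5, -270), (6, -325), (7, -381), (8, -437), (9, -492)]), (282621338,
      9, [(1, -47), (2, -102), (3, -158), (4, -214), (5, -270), (6, -325), (7, -381), (8, -437),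
      (9, -492)]), (285604994, 9, [(1, -47), (2, -102), (3, -158), (4, -214), (5, -269), (6,
      -325), (7, -381), (8, -436), (9, -492)]), (288412587, 9, [(1, -47), (2, -102), (3, -158),
      (4, -214), (5, -269), (6, -325), (7, -381), (8, -436)]), (288717025, 9, [(1, -47), (2,
      -102), (3, -158), (4, -214), (5, -269), (6, -325), (7, -381), (8, -436)]), (288930483, 9,
      [(1, -47), (2, -102), (3, -158), (5, -269), (5, -269), (6, -325), (7, -381), (8, -436)]),
      (291167023, 9, [(2, -102), (2, -102), (3, -158), (4, -214), (5, -269), (6, -325), (7,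
      -381), (8, -436), (9, -492)]), (291409540, 9, [(1, -46), (2, -102), (3, -158), (4, -213),
      (5, -269), (6, -325), (7, -380), (8, -436), (9, -492)]), (291421680, 9, [(1, -46), (2,
      -102), (3, -158), (4, -213), (5, -269), (6, -325), (7, -380), (8, -436), (9, -492)])] =
      true := by
  decide +kernel

theorem f84 : topE 10 84 100000000 916515138 916515139 1769769 1769770 5406733 5406734 58 410
      262649479 287757570
    [(271341396, 8, [(1, -48), (2, -105), (3, -161), (4, -218), (5, -274), (6, -331), (7, -387),
      (8, -444), (9, -500)]), (275488865, 9, [(1, -48), (2, -104), (3, -161), (4, -217), (5,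
      -274), (6, -330), (7, -387), (8, -443), (9, -500)]), (279561598, 9, [(1, -48), (2, -104),
      (3, -161), (4, -217), (5, -274), (6, -330), (7, -387), (8, -443), (9, -500)]), (283634331,
      9, [(1, -48), (2, -104), (3, -161), (4, -217), (5, -274), (6, -330), (7, -387), (8, -443),
      (9, -500)]), (287757570, 9, [(1, -47), (2, -104), (3, -161), (4, -217), (5, -274), (6,
      -330), (7, -387), (8, -443), (9, -500), (10, -556)])] = true := by
  decide +kernel

theorem f85 : topE 9 85 100000000 921954445 921954446 1743941 1743942 5359449 5359450 59 380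
      265441551 291977224
    [(273050002, 8, [(1, -49), (2, -106), (3, -164), (4, -221), (5, -278), (6, -336), (7, -393),
      (8, -450), (9, -508)]), (278440002, 9, [(1, -49), (2, -106), (3, -163), (4, -221), (5,
      -278), (6, -335), (7, -393), (8, -450), (9, -507)]), (283830001, 9, [(1, -48), (2, -106),
      (3, -163), (4, -221), (5, -278), (6, -335), (7, -393), (8, -450), (9, -507)]), (286623613,
      9, [(1, -48), (2, -106), (3, -163), (4, -220), (5, -278), (6, -335), (7, -392), (8, -450),
      (9, -507)]), (289220001, 9, [(1, -48), (2, -106), (3, -163), (4, -220), (5, -278), (6,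
      -335), (7, -392), (8, -450), (9, -507)]), (291977224, 9, [(1, -48), (2, -106), (3, -163),
      (4, -220), (5, -278), (6, -335), (7, -392), (8, -450), (9, -507)])] = true := by
  decide +kernel

end Pool.Agent.K7.H2.RR
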