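import Pool.Agent.K7.H2.RR.TopD

set_option autoImplicit false

/-! Numerical certificates for the top rows. -/

namespace Pool.Agent.K7.H2.RR

theorem f86 : topE 10 86 100000000 927361849 927361850 1718828 1718829 5313254 5313255 60 299
      268216404 298730926
    [(275549428, 9, [(1, -50), (2, -108), (3, -166), (4, -224), (5, -282), (6, -341), (7, -399),
      (8, -457), (10, -573)]), (281395690, 9, [(1, -49), (3, -166), (3, -166), (5, -282), (5,
      -282), (6, -340), (7, -398), (8, -457), (9, -515)]), (285774460, 9, [(1, -49), (2, -107),
      (4, -224), (4, -224), (6, -340), (6, -340), (7, -398), (8, -456), (9, -515)]), (289543246,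
      9, [(1, -49), (3, -165), (3, -165), (5, -282), (5, -282), (6, -340), (7, -398), (9, -515),
      (9, -515)]), (292371120, 9, [(1, -49), (2, -107), (3, -165), (4, -224), (5, -282), (6,
      -340), (7, -398), (8, -456), (10, -573)]), (293922016, 9, [(1, -49), (2, -107), (4, -223),
      (4, -223), (6, -340), (6, -340), (7, -398), (8, -456), (9, -514)]), (295381606, 9, [(2,
      -107), (2, -107), (3, -165), (4, -223), (7, -398), (6, -340), (7, -398), (8, -456), (9,
      -514)]), (296902846, 9, [(1, -49), (3, -165), (3, -165), (4, -223), (5, -282), (6, -340),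
      (7, -398), (9, -514), (9, -514)]), (297690803, 9, [(1, -49), (3, -165), (3, -165), (4,
      -223), (5, -281), (6, -340), (7, -398), (8, -456), (9, -514)]), (298451418, 9, [(1, -49),
      (3, -165), (3, -165), (5, -281), (5, -281), (6, -340), (7, -398), (8, -456), (9, -514)]),
      (298730926, 9, [(1, -49), (3, -165), (3, -165), (4, -223), (5, -281), (6, -340), (7, -398),
      (8, -456), (9, -514)])] = true := by
  decide +kernel

theorem f87 : topE 9 87 100000000 932737905 932737906 1694402 1694403 5268110 5268111 61 393
      270974352 296718954
    [(280112623, 9, [(1, -50), (2, -109), (3, -168), (4, -227), (5, -286), (6, -345), (7, -404),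
      (8, -464), (9, -523)]), (288330811, 9, [(1, -50), (2, -109), (3, -168), (4, -227), (5,
      -286), (6, -345), (7, -404), (8, -463), (9, -522)]), (291260090, 9, [(1, -50), (2, -109),
      (3, -168), (4, -227), (5, -286), (6, -345), (7, -404), (8, -463), (9, -522)]), (296718954,
      9, [(1, -50), (2, -109), (3, -168), (4, -227), (5, -286), (6, -345), (7, -404), (8, -463),
      (9, -522)])] = true := by
  decide +kernel

theorem f88 : topE 11 88 100000000 938083151 938083152 1670634 1670635 5223979 5223980 61 313
      273715702 303391577
    [(280724871, 9, [(1, -51), (3, -171), (3, -171), (4, -231), (5, -291), (6, -350), (7, -410),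
      (8, -470), (10, -590)]), (286607610, 9, [(2, -111), (2, -111), (3, -171), (5, -290), (5,
      -290), (6, -350), (7, -410), (8, -470), (9, -530)]), (290290094, 9, [(1, -51), (2, -111),
      (3, -170), (4, -230), (5, -290), (6, -350), (7, -410), (8, -470), (10, -589)]), (294245355,
      9, [(2, -111), (2, -111), (3, -170), (4, -230), (5, -290), (6, -350), (7, -410), (9, -530),
      (9, -530)]), (297326386, 9, [(1, -51), (3, -170), (3, -170), (4, -230), (5, -290), (6,
      -350), (7, -410), (8, -470), (10, -589)]), (298637278, 9, [(1, -50), (2, -110), (3, -170),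
      (4, -230), (5, -290), (6, -350), (7, -410), (8, -469), (10, -589)]), (300875095, 9, [(1,
      -50), (2, -110), (4, -230), (4, -230), (5, -290), (6, -350), (7, -410), (8, -469), (9,
      -529), (11, -649)]), (302322357, 10, [(2, -110), (2, -110), (3, -170), (4, -230), (5,
      -290), (6, -350), (7, -409), (9, -529), (9, -529)]), (303318335, 10, [(2, -110), (2, -110),
      (3, -170), (5, -290), (5, -290), (6, -350), (7, -409), (9, -529), (9, -529)]), (303391577,
      10, [(1, -50), (2, -110), (3, -170), (5, -290), (5, -290), (6, -350), (7, -409), (8, -469),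
      (9, -529)])] = true := by
  decide +kernel

end Pool.Agent.K7.H2.RR
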