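import Pool.Agent.K7.H2.RR.TopD

set_option autoImplicit false

/-! Numerical certificates for the top rows. -/

namespace Pool.Agent.K7.H2.RR

theorem f89 : topE 10 89 100000000 943398113 943398114 1647499 1647500 5180825 5180826 62 371
      276440746 303149058
    [(283758748, 9, [(1, -52), (2, -113), (3, -173), (4, -234), (5, -295), (6, -355), (7, -416),
      (8, -477), (9, -537)]), (288264748, 9, [(1, -52), (2, -112), (3, -173), (4, -234), (5,
      -294), (6, -355), (7, -416), (8, -477), (9, -537)]), (292545108, 9, [(1, -52), (2, -112),
      (3, -173), (4, -234), (5, -294), (6, -355), (7, -416), (8, -476), (9, -537)]), (295143254,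
      9, [(1, -51), (2, -112), (3, -173), (4, -234), (5, -294), (6, -355), (7, -416), (8, -476),
      (9, -537)]), (298287116, 9, [(2, -112), (2, -112), (3, -173), (4, -233), (5, -294), (6,
      -355), (7, -416), (8, -476), (9, -537), (10, -598)]), (300106900, 9, [(1, -51), (2, -112),
      (3, -173), (4, -233), (5, -294), (6, -355), (7, -415), (8, -476), (10, -598), (10, -598)]),
      (301512654, 10, [(1, -51), (2, -112), (3, -173), (4, -233), (5, -294), (6, -355), (7,
      -415), (8, -476), (9, -537)]), (302272073, 10, [(1, -51), (3, -173), (3, -173), (4, -233),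
      (5, -294), (6, -355), (7, -415), (8, -476), (9, -537)]), (303149058, 10, [(1, -51), (2,
      -112), (3, -173), (4, -233), (5, -294), (6, -355), (7, -415), (9, -537), (9, -537)])] =
      true := by
  decide +kernel

theorem f90 : topE 10 90 100000000 948683298 948683299 1624972 1624973 5138614 5138615 63 352
      279149774 306741650
    [(285881177, 9, [(1, -53), (2, -114), (5, -299), (4, -237), (5, -299), (6, -360), (7, -422),
      (8, -483), (9, -545)]), (290241400, 9, [(1, -52), (2, -114), (3, -176), (4, -237), (5,
      -299), (6, -360), (7, -422), (8, -483), (9, -545)]), (294522295, 9, [(1, -52), (2, -114),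
      (4, -237), (4, -237), (5, -298), (6, -360), (7, -422), (8, -483), (9, -545)]), (298214826,
      9, [(1, -52), (2, -114), (3, -175), (5, -298), (5, -298), (6, -360), (7, -421), (8, -483),
      (9, -545), (10, -606)]), (300632682, 9, [(1, -52), (2, -114), (3, -175), (4, -237), (5,
      -298), (6, -360), (7, -421), (8, -483), (9, -544), (10, -606)]), (302243165, 10, [(1, -52),
      (2, -114), (3, -175), (4, -237), (5, -298), (6, -360), (7, -421), (8, -483), (9, -544)]),
      (303543313, 10, [(1, -52), (2, -114), (3, -175), (4, -237), (5, -298), (6, -360), (7,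
      -421), (8, -483), (9, -544)]), (304953242, 10, [(2, -113), (2, -113), (3, -175), (4, -237),
      (5, -298), (6, -360), (7, -421), (8, -483), (9, -544), (10, -606)]), (306465514, 10, [(1,
      -52), (2, -113), (3, -175), (5, -298), (5, -298), (6, -360), (7, -421), (8, -483), (9,
      -544), (10, -606)]), (306715020, 10, [(1, -52), (2, -113), (3, -175), (4, -236), (5, -298),
      (6, -360), (7, -421), (8, -483), (9, -544)]), (306739970, 10, [(1, -52), (2, -113), (3,
      -175), (4, -236), (5, -298), (6, -360), (7, -421), (8, -483), (9, -544)]), (306741650, 10,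
      [(1, -52), (2, -113), (3, -175), (4, -236), (5, -298), (6, -360), (7, -421), (8, -483), (9,
      -544)])] = true := by
  decide +kernel

theorem f91 : topE 11 91 100000000 953939201 953939202 1603031 1603032 5097313 5097314 64 282
      281843062 312869602
    [(288534865, 9, [(1, -53), (2, -116), (3, -178), (4, -241), (5, -303), (6, -365), (7, -428),
      (8, -490), (9, -552), (10, -615)]), (295076804, 9, [(1, -53), (2, -116), (3, -178), (4,
      -240), (5, -303), (6, -365), (8, -490), (8, -490), (9, -552), (11, -677)]), (298467664, 9,
      [(2, -115), (2, -115), (3, -178), (4, -240), (5, -303), (6, -365), (7, -427), (8, -490),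
      (9, -552)]), (301546878, 9, [(1, -53), (2, -115), (3, -178), (4, -240), (5, -302), (6,
      -365), (7, -427), (8, -490), (9, -552), (10, -614)]), (304595271, 10, [(1, -53), (2, -115),
      (3, -178), (4, -240), (5, -302), (6, -365), (7, -427), (9, -552), (9, -552), (10, -614)]),
      (306089991, 10, [(1, -53), (2, -115), (3, -178), (4, -240), (5, -302), (6, -365), (7,
      -427), (8, -489), (9, -552)]), (306743025, 10, [(2, -115), (2, -115), (3, -177), (4, -240),
      (5, -302), (6, -365), (7, -427), (8, -489), (9, -552)]), (308410228, 10, [(1, -53), (2,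
      -115), (3, -177), (4, -240), (5, -302), (7, -427), (7, -427), (8, -489), (9, -552), (10,
      -614)]), (309716354, 10, [(1, -53), (2, -115), (3, -177), (4, -240), (5, -302), (6, -365),
      (7, -427), (8, -489), (9, -552), (10, -614)]), (311455224, 10, [(1, -53), (2, -115), (3,
      -177), (4, -240), (5, -302), (6, -364), (8, -489), (8, -489), (9, -552), (11, -676), (11,
      -676)]), (312761362, 10, [(1, -53), (2, -115), (3, -177), (4, -240), (5, -302), (6, -364),
      (7, -427), (9, -552), (9, -552), (10, -614)]), (312869602, 10, [(1, -52), (2, -115), (3,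
      -177), (4, -240), (5, -302), (6, -364), (7, -427), (9, -552), (9, -552), (10, -614)])] =
      true := by
  decide +kernel

theorem f92 : topE 11 92 100000000 959166304 959166305 1581652 1581653 5056892 5056893 65 326
      284520883 313283153
    [(290424655, 9, [(3, -181), (2, -117), (3, -181), (4, -244), (5, -307), (6, -370), (7, -434),
      (8, -497), (9, -560)]), (295838843, 9, [(1, -54), (2, -117), (3, -180), (4, -244), (5,
      -307), (6, -370), (7, -433), (8, -497), (9, -560), (10, -623)]), (300199319, 9, [(1, -54),
      (2, -117), (3, -180), (4, -244), (5, -307), (8, -496), (7, -433), (8, -496), (9, -560),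
      (10, -623)]), (303773285, 10, [(1, -54), (2, -117), (3, -180), (4, -243), (5, -307), (6,
      -370), (7, -433), (8, -496), (9, -560), (10, -623)]), (305921754, 10, [(1, -54), (2, -117),
      (3, -180), (4, -243), (5, -307), (6, -370), (7, -433), (8, -496), (9, -559)]), (308279907,
      10, [(1, -54), (2, -117), (3, -180), (4, -243), (5, -306), (6, -370), (7, -433), (8, -496),
      (9, -559), (10, -623)]), (310122811, 10, [(1, -53), (2, -117), (3, -180), (4, -243), (5,
      -306), (6, -370), (7, -433), (8, -496), (9, -559), (10, -623), (11, -686)]), (311735079,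
      10, [(1, -53), (2, -117), (3, -180), (4, -243), (5, -306), (6, -370), (7, -433), (8, -496),
      (9, -559), (10, -622), (11, -686)]), (312789024, 10, [(2, -117), (2, -117), (3, -180), (4,
      -243), (5, -306), (7, -433), (7, -433), (8, -496), (9, -559), (10, -622)]), (313283153, 10,
      [(2, -117), (2, -117), (3, -180), (4, -243), (5, -306), (6, -369), (7, -433), (8, -496),
      (9, -559)])] = true := by
  decide +kernel

end Pool.Agent.K7.H2.RR
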