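import Pool.Agent.K7.H2.RR.TopD

set_option autoImplicit false

/-! Numerical certificates for the top rows. -/

namespace Pool.Agent.K7.H2.RR

theorem f93 : topE 11 93 100000000 964365076 964365077 1560816 1560817 5017321 5017322 66 473
      287183497 308532539
    [(293826902, 9, [(2, -119), (2, -119), (3, -183), (4, -247), (5, -311), (6, -375), (7, -439),
      (8, -503), (9, -568), (11, -696)]), (298909314, 9, [(1, -55), (4, -247), (3, -183), (4,
      -247), (5, -311), (6, -375), (7, -439), (8, -503), (9, -567)]), (303585203, 9, [(1, -55),
      (2, -119), (3, -183), (4, -247), (6, -375), (6, -375), (7, -439), (8, -503), (9, -567),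
      (10, -631), (11, -695)]), (306997376, 10, [(1, -54), (4, -247), (4, -247), (4, -247), (5,
      -311), (6, -375), (7, -439), (8, -503), (9, -567)]), (308532539, 10, [(2, -118), (2, -118),
      (3, -182), (4, -247), (5, -311), (6, -375), (7, -439), (8, -503), (9, -567), (11, -695),
      (11, -695)])] = true := by
  decide +kernel

theorem f94 : topE 13 94 100000000 969535971 969535972 1540501 1540502 4978572 4978573 66 421
      289831163 313717987
    [(295931781, 9, [(4, -250), (2, -121), (3, -186), (4, -250), (5, -315), (6, -380), (7, -445),
      (8, -510), (9, -575)]), (300691191, 9, [(1, -56), (2, -120), (3, -185), (4, -250), (5,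
      -315), (6, -380), (7, -445), (8, -510), (9, -575), (12, -770), (12, -770)]), (303808675,
      10, [(4, -250), (2, -120), (3, -185), (4, -250), (5, -315), (6, -380), (7, -445), (8,
      -510), (9, -575)]), (307108153, 10, [(1, -55), (2, -120), (3, -185), (4, -250), (5, -315),
      (6, -380), (7, -445), (8, -510), (9, -575)]), (310489295, 10, [(3, -185), (2, -120), (3,
      -185), (4, -250), (5, -315), (6, -380), (8, -510), (8, -510), (9, -575), (10, -639), (13,
      -834)]), (311685569, 10, [(3, -185), (2, -120), (3, -185), (4, -250), (5, -315), (6, -380),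
      (7, -445), (8, -509), (9, -574)]), (313717987, 10, [(1, -55), (2, -120), (3, -185), (4,
      -250), (5, -315), (6, -380), (7, -445), (8, -509), (10, -639)])] = true := by
  decide +kernel

theorem f95 : topE 11 95 100000000 974679434 974679435 1520690 1520691 4940617 4940618 67 352
      292464127 319739718
    [(298466373, 9, [(1, -56), (2, -122), (3, -188), (4, -254), (6, -385), (6, -385), (7, -451),
      (8, -517), (10, -648), (10, -648)]), (304073446, 9, [(1, -56), (2, -122), (3, -188), (4,
      -254), (5, -319), (6, -385), (7, -451), (8, -517), (9, -582), (10, -648)]), (307828790, 10,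
      [(1, -56), (2, -122), (3, -188), (4, -253), (5, -319), (6, -385), (7, -451), (8, -516),
      (10, -648), (10, -648), (11, -714)]), (311918556, 10, [(1, -56), (2, -122), (3, -188), (4,
      -253), (5, -319), (6, -385), (7, -451), (8, -516), (9, -582), (10, -648)]), (313352505, 10,
      [(2, -122), (2, -122), (3, -187), (4, -253), (6, -385), (6, -385), (7, -450), (8, -516),
      (9, -582)]), (315809747, 10, [(1, -56), (2, -122), (3, -187), (4, -253), (7, -450), (6,
      -385), (7, -450), (8, -516), (10, -648), (10, -648), (11, -713)]), (318296169, 10, [(1,
      -56), (2, -122), (3, -187), (4, -253), (5, -319), (7, -450), (7, -450), (8, -516), (9,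
      -582), (10, -648), (11, -713)]), (319739718, 10, [(1, -56), (2, -121), (3, -187), (4,
      -253), (5, -319), (6, -385), (7, -450), (8, -516), (9, -582), (10, -648)])] = true := by
  decide +kernel

end Pool.Agent.K7.H2.RR
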