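import Pool.Agent.K7.H2.RR.TopD

set_option autoImplicit false

/-! Numerical certificates for the top rows. -/

namespace Pool.Agent.K7.H2.RR

theorem f96 : topE 11 96 100000000 979795897 979795898 1501363 1501364 4903432 4903433 68 279
      295082631 325947950
    [(302328046, 9, [(1, -57), (2, -124), (3, -190), (4, -257), (5, -324), (6, -390), (7, -457),
      (8, -523), (9, -590), (10, -657), (11, -723)]), (307934220, 10, [(1, -57), (2, -124), (3,
      -190), (4, -257), (6, -390), (6, -390), (7, -457), (8, -523), (9, -590), (10, -656), (11,
      -723)]), (311369840, 10, [(2, -123), (2, -123), (3, -190), (4, -257), (5, -323), (6, -390),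
      (7, -457), (8, -523), (9, -590), (10, -656)]), (314208274, 10, [(2, -123), (2, -123), (3,
      -190), (4, -257), (5, -323), (6, -390), (7, -456), (8, -523), (9, -590), (10, -656)]),
      (317285929, 10, [(1, -57), (2, -123), (3, -190), (4, -256), (5, -323), (6, -390), (7,
      -456), (8, -523), (10, -656), (10, -656), (11, -723)]), (319206798, 10, [(2, -123), (2,
      -123), (3, -190), (4, -256), (5, -323), (6, -390), (7, -456), (9, -589), (9, -589), (10,
      -656)]), (320889951, 10, [(1, -57), (2, -123), (3, -190), (4, -256), (6, -390), (6, -390),
      (7, -456), (8, -523), (9, -589), (10, -656), (11, -723)]), (322022020, 10, [(2, -123), (2,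
      -123), (3, -190), (4, -256), (5, -323), (6, -390), (7, -456), (9, -589), (9, -589), (10,
      -656)]), (323091096, 10, [(3, -190), (2, -123), (3, -190), (4, -256), (6, -389), (6, -389),
      (7, -456), (8, -523), (9, -589), (10, -656)]), (324260246, 10, [(1, -56), (2, -123), (3,
      -190), (4, -256), (6, -389), (6, -389), (7, -456), (8, -523), (10, -656), (10, -656), (11,
      -722)]), (325099675, 10, [(1, -56), (2, -123), (3, -190), (4, -256), (5, -323), (6, -389),
      (7, -456), (8, -523), (10, -656), (10, -656), (11, -722)]), (325947950, 10, [(1, -56), (2,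
      -123), (3, -190), (4, -256), (5, -323), (7, -456), (7, -456), (8, -523), (9, -589), (10,
      -656), (11, -722)])] = true := by
  decide +kernel

theorem f97 : topE 12 97 100000000 984885780 984885781 1482504 1482505 4866991 4866992 69 372
      297686911 323842891
    [(305046031, 9, [(1, -58), (2, -125), (3, -193), (4, -260), (5, -328), (6, -395), (7, -463),
      (8, -530), (9, -598), (10, -665), (12, -800)]), (310159182, 10, [(2, -125), (2, -125), (3,
      -193), (4, -260), (5, -328), (6, -395), (7, -463), (9, -597), (9, -597), (10, -665)]),
      (313835146, 10, [(1, -58), (2, -125), (3, -193), (4, -260), (5, -327), (6, -395), (7,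
      -462), (8, -530), (9, -597), (10, -665)]), (317644625, 10, [(2, -125), (2, -125), (3,
      -192), (4, -260), (5, -327), (6, -395), (7, -462), (9, -597), (9, -597), (10, -665), (11,
      -732)]), (320447921, 10, [(1, -57), (2, -125), (3, -192), (4, -260), (5, -327), (6, -395),
      (7, -462), (8, -530), (10, -665), (10, -665), (11, -732)]), (322508033, 10, [(1, -57), (2,
      -125), (3, -192), (4, -260), (5, -327), (6, -395), (7, -462), (9, -597), (9, -597), (10,
      -664)]), (323842891, 10, [(1, -57), (2, -125), (3, -192), (4, -260), (5, -327), (6, -395),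
      (7, -462), (8, -529), (9, -597), (10, -664), (11, -732)])] = true := by
  decide +kernel

theorem f98 : topE 13 98 100000000 989949493 989949494 1464096 1464097 4831271 4831272 70 300
      300277197 329974748
    [(307630404, 10, [(3, -195), (2, -127), (3, -195), (6, -400), (6, -400), (6, -400), (7,
      -469), (9, -605), (9, -605), (10, -674), (13, -878)]), (312551320, 10, [(1, -59), (2,
      -127), (3, -195), (5, -332), (5, -332), (6, -400), (7, -468), (8, -537), (9, -605), (10,
      -673), (11, -742)]), (317248862, 10, [(1, -58), (2, -127), (3, -195), (4, -263), (5, -332),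
      (6, -400), (7, -468), (8, -537), (10, -673), (10, -673), (11, -741)]), (320474949, 10, [(1,
      -58), (2, -127), (3, -195), (5, -331), (5, -331), (6, -400), (7, -468), (8, -536), (9,
      -605), (10, -673), (12, -810)]), (323374184, 10, [(3, -195), (2, -126), (3, -195), (6,
      -400), (6, -400), (6, -400), (7, -468), (9, -605), (9, -605), (10, -673), (13, -878)]),
      (325283100, 10, [(1, -58), (2, -126), (3, -195), (4, -263), (5, -331), (6, -400), (7,
      -468), (8, -536), (9, -605), (10, -673)]), (327474017, 10, [(1, -58), (2, -126), (3, -195),
      (5, -331), (5, -331), (6, -400), (8, -536), (8, -536), (9, -604), (10, -673), (11, -741)]),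
      (328454296, 10, [(1, -58), (2, -126), (3, -195), (5, -331), (5, -331), (6, -399), (7,
      -468), (8, -536), (9, -604), (10, -673), (12, -809)]), (329216191, 10, [(2, -126), (2,
      -126), (3, -195), (5, -331), (5, -331), (6, -399), (7, -468), (8, -536), (9, -604), (10,
      -673), (12, -809)]), (329974748, 10, [(2, -126), (2, -126), (3, -195), (6, -399), (5,
      -331), (6, -399), (9, -604), (9, -604), (9, -604), (10, -673), (12, -809)])] = true := by
  decide +kernel

theorem f99 : topE 13 99 100000000 994987437 994987438 1446123 1446124 4796249 4796250 71 400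
      302853709 327493720
    [(310022601, 10, [(1, -60), (2, -129), (3, -198), (4, -267), (5, -336), (6, -405), (8, -544),
      (8, -544), (9, -613), (10, -682), (11, -751)]), (316257115, 10, [(1, -59), (2, -129), (3,
      -198), (5, -336), (5, -336), (6, -405), (7, -474), (8, -543), (9, -613), (11, -751), (11,
      -751), (13, -889)]), (319686825, 10, [(1, -59), (2, -128), (3, -197), (4, -267), (5, -336),
      (6, -405), (7, -474), (8, -543), (9, -612), (10, -682), (11, -751)]), (323481604, 10, [(1,
      -59), (2, -128), (3, -197), (5, -336), (5, -336), (6, -405), (7, -474), (8, -543), (9,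
      -612), (11, -751), (11, -751), (12, -820)]), (325895168, 10, [(2, -128), (2, -128), (3,
      -197), (4, -266), (5, -336), (6, -405), (8, -543), (8, -543), (9, -612), (10, -681), (11,
      -750)]), (327493720, 10, [(1, -59), (2, -128), (3, -197), (4, -266), (6, -405), (6, -405),
      (7, -474), (8, -543), (9, -612), (10, -681), (12, -820)])] = true := by
  decide +kernel

end Pool.Agent.K7.H2.RR
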