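import Pool.Agent.K7.H2.RR.Coset
import Pool.Agent.K7.H2.FO.ArcsE

set_option autoImplicit false

/-! Certificates for the number of bumps from below when the two rotations satisfy `9 v - n ψ ∈ ℤ`. -/

namespace Pool.Agent.K7.H2.RR

open Finset Pool.Agent.K7.H2.FO

/-- the test of an index which is a bump for all `c ≤ M ψ < c'` -/
def tstE (n : ℕ) (M A2 b1 b2 z c c' : ℤ) (i : ℕ) : Bool :=
  decide ((n * c + M * z + 9 * b1 * i) / (9 * M) = (n * c' + M * z + 9 * b2 * i - 1) / (9 * M)) &&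
    decide (9 * M * ((n * c + M * z + 9 * b1 * i) / (9 * M)) <
      (n - 9) * c + M * z + 9 * (b1 - A2) * i)

/-- computable lower bound for the number of bumps -/
def cntE (n : ℕ) (M A2 b1 b2 z c c' : ℤ) (L : ℕ) : ℕ :=
  ((List.range L).filter (tstE n M A2 b1 b2 z c c')).length

theorem bumps_geE {n : ℕ} {M A2 b1 b2 z c c' : ℤ} (hn : 9 ≤ n) (hM : 0 < M) {α β ψ : ℝ}
    (h1 : (b1 : ℝ) ≤ M * β) (h2 : (M : ℝ) * β ≤ b2) (h3 : (M : ℝ) * α ≤ A2) (h4 : (c : ℝ) ≤ M * ψ)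
    (h5 : (M : ℝ) * ψ < c') (L : ℕ) :
    cntE n M A2 b1 b2 z c c' L ≤ (bumps L α β ψ ((n * ψ + z) / 9)).card := by
  unfold bumps cntE
  refine card_filter_list_ge L (fun i => ψ + α * i < Int.fract ((n * ψ + z) / 9 + β * i)) _
    fun i hi hlt => ?_
  unfold tstE at hlt
  rw [Bool.and_eq_true, decide_eq_true_eq, decide_eq_true_eq] at hlt
  obtain ⟨hfl, hlt⟩ := hlt
  have hMR : (0 : ℝ) < M := by exact_mod_cast hM
  have h7 : (0 : ℝ) ≤ i := Nat.cast_nonneg i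
  have hM9 : (0 : ℤ) < 9 * M := by omega
  have hn0 : (0 : ℝ) < n := by
    have : (9 : ℝ) ≤ n := by exact_mod_cast hn
    linarith
  have hn9 : (0 : ℝ) ≤ (n : ℝ) - 9 := by
    have : (9 : ℝ) ≤ n := by exact_mod_cast hn
    linarith
  obtain ⟨k, hk⟩ : ∃ k, k = (n * c + M * z + 9 * b1 * i) / (9 * M) := ⟨_, rfl⟩
  rw [← hk] at hlt
  have e1 : 9 * M * k + (n * c + M * z + 9 * b1 * i) % (9 * M) = n * c + M * z + 9 * b1 * i := by
    rw [hk]; exact Int.mul_ediv_add_emod _ (9 * M)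
  have e2 : 9 * M * k + (n * c' + M * z + 9 * b2 * i - 1) % (9 * M) =
      n * c' + M * z + 9 * b2 * i - 1 := by
    rw [hk, hfl]; exact Int.mul_ediv_add_emod _ (9 * M)
  have e3 := Int.emod_lt_of_pos (n * c' + M * z + 9 * b2 * i - 1) hM9
  have e4 := Int.emod_nonneg (n * c + M * z + 9 * b1 * i) hM9.ne'
  have f1 : 9 * M * k ≤ n * c + M * z + 9 * b1 * i := by omega
  have f2 : n * c' + M * z + 9 * b2 * i ≤ 9 * M * k + 9 * M := by omega
  have f1R : 9 * (M : ℝ) * k ≤ n * c + M * z + 9 * b1 * i := by exact_mod_cast f1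
  have f2R : (n : ℝ) * c' + M * z + 9 * b2 * i ≤ 9 * M * k + 9 * M := by exact_mod_cast f2
  have g1 : (n : ℝ) * c ≤ n * (M * ψ) := mul_le_mul_of_nonneg_left h4 hn0.le
  have g2 : (n : ℝ) * (M * ψ) < n * c' := mul_lt_mul_of_pos_left h5 hn0
  have g3 : (b1 : ℝ) * i ≤ M * β * i := mul_le_mul_of_nonneg_right h1 h7
  have g4 : M * β * i ≤ (b2 : ℝ) * i := mul_le_mul_of_nonneg_right h2 h7
  have g5 : M * α * i ≤ (A2 : ℝ) * i := mul_le_mul_of_nonneg_right h3 h7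
  have g6 : ((n : ℝ) - 9) * c ≤ (n - 9) * (M * ψ) := mul_le_mul_of_nonneg_left h4 hn9
  have e5 : 9 * (M : ℝ) * ((n * ψ + z) / 9 + β * i) = n * (M * ψ) + M * z + 9 * (M * β * i) := by ring
  have hflr : ⌊((n : ℝ) * ψ + z) / 9 + β * i⌋ = k := by
    rw [Int.floor_eq_iff]
    have hM9R : (0 : ℝ) < 9 * M := by positivity
    constructor
    · have : 9 * (M : ℝ) * k ≤ 9 * M * ((n * ψ + z) / 9 + β * i) := by rw [e5]; linarith
      exact le_of_mul_le_mul_left this hM9R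
    · have : 9 * (M : ℝ) * ((n * ψ + z) / 9 + β * i) < 9 * M * (k + 1) := by rw [e5]; linarith
      exact lt_of_mul_lt_mul_left this hM9R.le
  rw [Int.fract, hflr]
  have h8 : (((9 * M * k : ℤ)) : ℝ) < (((n - 9) * c + M * z + 9 * (b1 - A2) * i : ℤ) : ℝ) := by
    exact_mod_cast hlt
  push_cast at h8
  have e6 : 9 * (M : ℝ) * ((n * ψ + z) / 9 + β * i - k) =
      n * (M * ψ) + M * z + 9 * (M * β * i) - 9 * M * k := by ring
  have h9 : 9 * (M : ℝ) * (ψ + α * i) < 9 * M * ((n * ψ + z) / 9 + β * i - k) := by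
    rw [e6]
    linarith
  exact lt_of_mul_lt_mul_left h9 (by positivity)

/-- the table of a class -/
def okcE (n : ℕ) (M A1 A2 b1 b2 G : ℤ) (L : ℕ) (z : ℤ) : ℤ → List ℤ → Bool
  | c, [] => decide (A2 ≤ c)
  | c, c' :: rest =>
    decide (gcnt M A1 G c L ≤ cntE n M A2 b1 b2 z c c' L) && okcE n M A1 A2 b1 b2 G L z c' rest

theorem okcE_spec {n : ℕ} {M A1 A2 b1 b2 G : ℤ} {L : ℕ} {z : ℤ} (hn : 9 ≤ n) (hM : 0 < M)
    {α β γ : ℝ} (hb1 : (b1 : ℝ) ≤ M * β) (hb2 : (M : ℝ) * β ≤ b2) (hA1 : (A1 : ℝ) ≤ M * α)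
    (hA2 : (M : ℝ) * α ≤ A2) (hG : (M : ℝ) * γ ≤ G)
    {ψ : ℝ} (hψα : ψ < α) : ∀ (tab : List ℤ) (c : ℤ), (c : ℝ) ≤ M * ψ →
    okcE n M A1 A2 b1 b2 G L z c tab = true →
    ((range L).filter fun i : ℕ => ψ + α * i ≤ γ).card ≤ (bumps L α β ψ ((n * ψ + z) / 9)).card := by
  have hMR : (0 : ℝ) < M := by exact_mod_cast hM
  intro tab
  induction tab with
  | nil =>
    intro c hc h
    exfalso
    unfold okcE at h
    rw [decide_eq_true_eq] at h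
    have h' : (A2 : ℝ) ≤ c := by exact_mod_cast h
    have := mul_lt_mul_of_pos_left hψα hMR
    linarith
  | cons c' rest ih =>
    intro c hc h
    unfold okcE at h
    rw [Bool.and_eq_true, decide_eq_true_eq] at h
    rcases le_or_gt (c' : ℝ) (M * ψ) with h1 | h1
    · exact ih c' h1 h.2
    · have h6 := gcnt_spec hM hA1 hG hc L (γ := γ)
      have h7 := bumps_geE (z := z) (c' := c') hn hM hb1 hb2 hA2 hc h1 L
      exact h6.trans (h.1.trans h7)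

/-- the certificate: slopes, threshold `w / 1000` and tables of the nine classes -/
def cerE (n : ℕ) (M s1 s2 A1 A2 b1 b2 G u : ℤ) (L : ℕ) (tabs : List (List ℤ)) : Bool :=
  decide (0 < M ∧ 3 * M < s1 ∧ s1 * s1 ≤ n * M * M ∧ n * M * M ≤ s2 * s2 ∧ 0 < s2 ∧
    0 ≤ b1 ∧ 3 * b1 * (s2 - 3 * M) ≤ M * M ∧ 0 ≤ b2 ∧ M * M ≤ 3 * b2 * (s1 - 3 * M) ∧
    0 ≤ A1 ∧ A1 * (n * M - 3 * s1) ≤ M * M ∧ 0 ≤ A2 ∧ M * M ≤ A2 * (n * M - 3 * s2) ∧
    n * M - 3 * s1 ≤ L * M ∧ 0 < u ∧ 1000 * (M - 2 * G) * (s2 - 3 * M) ≤ M * M * u) &&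
  (List.range 9).all fun z => okcE n M A1 A2 b1 b2 G L z 0 (tabs.getD z [])

/-- the consequences of the bounds of the slopes -/
theorem slopes {n : ℕ} {M s1 s2 A1 A2 b1 b2 : ℤ} {L : ℕ}
    (h : 0 < M ∧ 3 * M < s1 ∧ s1 * s1 ≤ n * M * M ∧ n * M * M ≤ s2 * s2 ∧ 0 < s2 ∧
    0 ≤ b1 ∧ 3 * b1 * (s2 - 3 * M) ≤ M * M ∧ 0 ≤ b2 ∧ M * M ≤ 3 * b2 * (s1 - 3 * M) ∧
    0 ≤ A1 ∧ A1 * (n * M - 3 * s1) ≤ M * M ∧ 0 ≤ A2 ∧ M * M ≤ A2 * (n * M - 3 * s2) ∧
    n * M - 3 * s1 ≤ L * M) {s : ℝ} (hs : s * s = n) (hs3 : 3 < s) :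
    (s1 : ℝ) ≤ M * s ∧ (M : ℝ) * s ≤ s2 ∧ (b1 : ℝ) ≤ M * (1 / (3 * (s - 3))) ∧
      (M : ℝ) * (1 / (3 * (s - 3))) ≤ b2 ∧ (A1 : ℝ) ≤ M * (1 / (s * (s - 3))) ∧
      (M : ℝ) * (1 / (s * (s - 3))) ≤ A2 ∧ s * (s - 3) ≤ L := by
  have hs0 : 0 < s := by linarith
  have hs3' : 0 < s - 3 := by linarith
  have hD : 0 < s * (s - 3) := mul_pos hs0 hs3'
  obtain ⟨c1, c2, c3, c4, c5, c6, c7, c8, c9, c10, c11, c12, c13, c14⟩ := h
  have c1R : (0 : ℝ) < M := by exact_mod_cast c1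
  have c2R : 3 * (M : ℝ) < s1 := by exact_mod_cast c2
  have c3R : (s1 : ℝ) * s1 ≤ n * M * M := by exact_mod_cast c3
  have c4R : (n : ℝ) * M * M ≤ s2 * s2 := by exact_mod_cast c4
  have c5R : (0 : ℝ) < s2 := by exact_mod_cast c5
  have c6R : (0 : ℝ) ≤ b1 := by exact_mod_cast c6
  have c7R : 3 * (b1 : ℝ) * (s2 - 3 * M) ≤ M * M := by exact_mod_cast c7
  have c8R : (0 : ℝ) ≤ b2 := by exact_mod_cast c8
  have c9R : (M : ℝ) * M ≤ 3 * b2 * (s1 - 3 * M) := by exact_mod_cast c9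
  have c10R : (0 : ℝ) ≤ A1 := by exact_mod_cast c10
  have c11R : (A1 : ℝ) * (n * M - 3 * s1) ≤ M * M := by exact_mod_cast c11
  have c12R : (0 : ℝ) ≤ A2 := by exact_mod_cast c12
  have c13R : (M : ℝ) * M ≤ A2 * (n * M - 3 * s2) := by exact_mod_cast c13
  have c14R : (n : ℝ) * M - 3 * s1 ≤ L * M := by exact_mod_cast c14
  have hlo : (s1 : ℝ) ≤ M * s := by
    refine abs_le_of_sq_le_sq' ?_ (by positivity) |>.2
    have e : (M * s) ^ 2 = n * M * M := by rw [← hs]; ring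
    rw [e]; linarith
  have hhi : (M : ℝ) * s ≤ s2 := by
    refine abs_le_of_sq_le_sq' ?_ c5R.le |>.2
    have e : (M * s) ^ 2 = n * M * M := by rw [← hs]; ring
    rw [e]; linarith
  refine ⟨hlo, hhi, ?_, ?_, ?_, ?_, ?_⟩
  · rw [mul_one_div, le_div_iff₀ (by positivity)]
    have h1 : 3 * (b1 : ℝ) * (M * s - 3 * M) ≤ 3 * b1 * (s2 - 3 * M) :=
      mul_le_mul_of_nonneg_left (by linarith) (by positivity)
    have h2 : (M : ℝ) * (b1 * (3 * (s - 3))) ≤ M * M := by linarith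
    exact le_of_mul_le_mul_left h2 c1R
  · rw [mul_one_div, div_le_iff₀ (by positivity)]
    have h1 : 3 * (b2 : ℝ) * (s1 - 3 * M) ≤ 3 * b2 * (M * s - 3 * M) :=
      mul_le_mul_of_nonneg_left (by linarith) (by positivity)
    have h2 : (M : ℝ) * M ≤ M * (b2 * (3 * (s - 3))) := by linarith
    exact le_of_mul_le_mul_left h2 c1R
  · rw [mul_one_div, le_div_iff₀ (by positivity)]
    have h1 : (A1 : ℝ) * (n * M - 3 * (M * s)) ≤ A1 * (n * M - 3 * s1) :=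
      mul_le_mul_of_nonneg_left (by linarith) c10R
    have h2 : (M : ℝ) * (A1 * (s * (s - 3))) ≤ M * M := by
      have e : (M : ℝ) * (A1 * (s * (s - 3))) = A1 * (n * M - 3 * (M * s)) := by rw [← hs]; ring
      rw [e]; linarith
    exact le_of_mul_le_mul_left h2 c1R
  · rw [mul_one_div, div_le_iff₀ (by positivity)]
    have h1 : (A2 : ℝ) * (n * M - 3 * s2) ≤ A2 * (n * M - 3 * (M * s)) :=
      mul_le_mul_of_nonneg_left (by linarith) c12R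
    have h2 : (M : ℝ) * M ≤ M * (A2 * (s * (s - 3))) := by
      have e : (M : ℝ) * (A2 * (s * (s - 3))) = A2 * (n * M - 3 * (M * s)) := by rw [← hs]; ring
      rw [e]; linarith
    exact le_of_mul_le_mul_left h2 c1R
  · have e : (M : ℝ) * (s * (s - 3)) = n * M - 3 * (M * s) := by rw [← hs]; ring
    have h1 : (M : ℝ) * (s * (s - 3)) ≤ M * L := by rw [e]; linarith
    exact le_of_mul_le_mul_left h1 c1R

theorem cerE_spec {n : ℕ} {M s1 s2 A1 A2 b1 b2 G u : ℤ} {L : ℕ} {tabs : List (List ℤ)}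
    (hn : 9 ≤ n) (hc : cerE n M s1 s2 A1 A2 b1 b2 G u L tabs = true) {s g : ℝ} (hs : s * s = n)
    (hs3 : 3 < s) (hg : 1000 * ((2 * g - 1) * (s - 3)) ≤ -(u : ℝ)) :
    g < 1 ∧ s * (s - 3) ≤ L ∧ ∀ (ψ : ℝ) (z : ℤ), 0 ≤ ψ → ψ * (s * (s - 3)) < 1 →
      ((range L).filter fun i : ℕ => ψ + 1 / (s * (s - 3)) * i ≤ g).card ≤
        (bumps L (1 / (s * (s - 3))) (1 / (3 * (s - 3))) ψ ((n * ψ + z) / 9)).card := by
  have hs0 : 0 < s := by linarith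
  have hs3' : 0 < s - 3 := by linarith
  have hD : 0 < s * (s - 3) := mul_pos hs0 hs3'
  unfold cerE at hc
  rw [Bool.and_eq_true, decide_eq_true_eq, List.all_eq_true] at hc
  obtain ⟨⟨c1, c2, c3, c4, c5, c6, c7, c8, c9, c10, c11, c12, c13, c14, c15, c16⟩, ht⟩ := hc
  obtain ⟨hlo, hhi, nb1, nb2, nA1, nA2, hL⟩ :=
    slopes ⟨c1, c2, c3, c4, c5, c6, c7, c8, c9, c10, c11, c12, c13, c14⟩ hs hs3
  have c1R : (0 : ℝ) < M := by exact_mod_cast c1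
  have c15R : (0 : ℝ) < u := by exact_mod_cast c15
  have c16R : 1000 * ((M : ℝ) - 2 * G) * (s2 - 3 * M) ≤ M * M * u := by exact_mod_cast c16
  have hg2 : (2 * g - 1) * (s - 3) < 0 := by linarith
  have hg1 : g < 1 := by
    by_contra hcon
    push Not at hcon
    have : 0 ≤ (2 * g - 1) * (s - 3) := mul_nonneg (by linarith) hs3'.le
    linarith
  have hG : (M : ℝ) * g ≤ G := by
    by_contra hcon
    push Not at hcon
    rcases le_or_gt ((M : ℝ) - 2 * G) 0 with h0 | h0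
    · have h1 : 2 * g - 1 < 0 := by
        by_contra h2
        push Not at h2
        have := mul_nonneg h2 hs3'.le
        linarith
      have h3 := mul_neg_of_pos_of_neg c1R h1
      linarith
    · have h1 : ((M : ℝ) - 2 * G) * (M * (s - 3)) ≤ (M - 2 * G) * (s2 - 3 * M) :=
        mul_le_mul_of_nonneg_left (by linarith) h0.le
      have h2 : M * M * (1000 * ((2 * g - 1) * (s - 3))) ≤ M * M * (-(u : ℝ)) :=
        mul_le_mul_of_nonneg_left hg (by positivity)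
      have h4 : ((M : ℝ) - 2 * G) * (M * (s - 3)) ≤ (M * (1 - 2 * g)) * (M * (s - 3)) := by linarith
      have h5 : 0 < M * (s - 3) := by positivity
      have h7 := le_of_mul_le_mul_right h4 h5
      linarith
  refine ⟨hg1, hL, fun ψ z hψ0 hψ1 => ?_⟩
  obtain ⟨α, hα⟩ : ∃ α, α = 1 / (s * (s - 3)) := ⟨_, rfl⟩
  obtain ⟨β, hβ⟩ : ∃ β, β = 1 / (3 * (s - 3)) := ⟨_, rfl⟩
  rw [← hα] at nA1 nA2 ⊢
  rw [← hβ] at nb1 nb2 ⊢
  obtain ⟨r, q, hr0, hr9, hz⟩ : ∃ (r : ℕ) (q : ℤ), (0 : ℤ) ≤ r ∧ r < 9 ∧ z = 9 * q + r :=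
    ⟨(z % 9).toNat, z / 9, by omega, by omega, by omega⟩
  have hv : ((n : ℝ) * ψ + z) / 9 = (n * ψ + ((r : ℤ) : ℝ)) / 9 + ((q : ℤ) : ℝ) := by
    rw [hz]; push_cast; ring
  rw [hv, bumps_int]
  have hψα : ψ < α := by
    rw [hα, lt_div_iff₀ hD]
    exact hψ1
  have h1 := ht r (List.mem_range.2 hr9)
  exact okcE_spec hn c1 nb1 nb2 nA1 nA2 hG hψα _ 0 (by push_cast; positivity) h1

end Pool.Agent.K7.H2.RR
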