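import Pool.Agent.K7.H2.FO.Arcs

set_option autoImplicit false

/-! The rows of the triangle of slope `3 s`, `s ^ 2 = n`: the number of columns with at least `k + 1`
points, from a count of bumps with the lattice relation between the two rotations. -/

namespace Pool.Agent.K7.H2.RR

open Finset Pool.Agent.K7.H2.FO

/-- the exponents of the triangle -/
def Rg (s : ℝ) (d : ℕ) : Set (ℤ × ℤ) := {p : ℤ × ℤ | 0 ≤ p.1 ∧ 0 ≤ p.2 ∧
  (d : ℝ) / 3 - 1 / (3 * (s - 3)) * (p.1 : ℝ) ≤ (p.2 : ℝ) ∧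
  (p.2 : ℝ) ≤ (d : ℝ) / 3 - 1 / (3 * s) * (p.1 : ℝ)}

theorem rows {n m d L : ℕ} {s g : ℝ} (hs : s * s = n) (hs3 : 3 < s) (hg : g * (s - 3) = d - s * m)
    (hg0 : 0 ≤ g) (hL : s * (s - 3) ≤ L)
    (H : ∀ (ψ : ℝ) (z : ℤ), 0 ≤ ψ → ψ * (s * (s - 3)) < 1 →
      (bumps L (1 / (s * (s - 3))) (1 / (3 * (s - 3))) ψ ((n * ψ + z) / 9)).card = 0 ∨
      ψ + 1 / (s * (s - 3)) *
        (((bumps L (1 / (s * (s - 3))) (1 / (3 * (s - 3))) ψ ((n * ψ + z) / 9)).card : ℝ) - 1) ≤ g)
    {k : ℕ} (hk : k < m) :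
    ∃ A : Finset ℤ, n * (m - k) ≤ A.card ∧
      ∀ a ∈ A, ∃ s0 : ℤ, ∀ y : ℤ, s0 ≤ y → y ≤ s0 + k → ((a, y) : ℤ × ℤ) ∈ Rg s d := by
  classical
  have hs0 : 0 < s := by linarith
  have hs3' : 0 < s - 3 := by linarith
  have hD : 0 < s * (s - 3) := mul_pos hs0 hs3'
  obtain ⟨δ, hδ⟩ : ∃ δ, δ = 1 / (s * (s - 3)) := ⟨_, rfl⟩
  obtain ⟨β, hβ⟩ : ∃ β, β = 1 / (3 * (s - 3)) := ⟨_, rfl⟩
  rw [← hδ, ← hβ] at H
  have hδ0 : 0 < δ := by rw [hδ]; positivity
  have hDδ : s * (s - 3) * δ = 1 := by rw [hδ]; field_simp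
  have hβ' : 3 * (s - 3) * β = 1 := by rw [hβ]; field_simp
  have hβδ : β - δ = 1 / (3 * s) := by rw [hβ, hδ]; field_simp
  obtain ⟨bad, hbad⟩ : ∃ bad : ℕ → Prop, bad = fun x : ℕ => (x : ℝ) < (s - 3) * d ∧
    (x : ℝ) * δ < k + Int.fract ((x : ℝ) * β - (d : ℝ) / 3) := ⟨_, rfl⟩
  -- the number of columns
  have htot : s * (d - 3 * (k : ℝ)) = ((n * (m - k) : ℕ) : ℝ) + s * (s - 3) * (k + g) := by
    rw [Nat.cast_mul, Nat.cast_sub hk.le, ← hs]
    linear_combination (-s) * hg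
  have hkg : 0 ≤ s * (s - 3) * (k + g) := mul_nonneg hD.le (by positivity)
  obtain ⟨D, hDd⟩ : ∃ D : ℕ, D = ⌊s * (s - 3) * (k + g)⌋₊ := ⟨_, rfl⟩
  obtain ⟨N, hN⟩ : ∃ N : ℕ, N = ⌊s * (d - 3 * (k : ℝ))⌋₊ := ⟨_, rfl⟩
  have hND : N = n * (m - k) + D := by
    rw [hN, htot, add_comm, Nat.floor_add_natCast hkg, ← hDd, add_comm]
  have hNle : (N : ℝ) ≤ s * (d - 3 * (k : ℝ)) := by
    rw [hN]
    apply Nat.floor_le
    rw [htot]
    positivity
  have hD1 : s * (s - 3) * (k + g) < D + 1 := by rw [hDd]; exact Nat.lt_floor_add_one _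
  -- the bad columns
  have hbc : ((range (N + 1)).filter bad).card ≤ D + 1 := by
    obtain ⟨x0, hx0⟩ : ∃ x0 : ℕ, x0 = ⌈s * (s - 3) * k⌉₊ := ⟨_, rfl⟩
    have hx1 : s * (s - 3) * k ≤ x0 := by rw [hx0]; exact Nat.le_ceil _
    have hx2 : (x0 : ℝ) < s * (s - 3) * k + 1 := by
      rw [hx0]; exact Nat.ceil_lt_add_one (by positivity)
    obtain ⟨ψ, hψ⟩ : ∃ ψ, ψ = (x0 : ℝ) * δ - k := ⟨_, rfl⟩
    have hψD : ψ * (s * (s - 3)) = x0 - s * (s - 3) * k := by
      rw [hψ]; linear_combination (x0 : ℝ) * hDδ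
    have hψ0 : 0 ≤ ψ := by
      by_contra hcon
      push Not at hcon
      have := mul_neg_of_neg_of_pos hcon hD
      linarith
    have hψ1 : ψ * (s * (s - 3)) < 1 := by linarith
    have hv : (x0 : ℝ) * β - (d : ℝ) / 3 = (n * ψ + ((n * k - 3 * d - x0 : ℤ) : ℝ)) / 9 := by
      push_cast
      have e1 : (n : ℝ) * ψ = s * s * ψ := by rw [hs]
      have e2 : s * s * ψ * (s - 3) = s * (ψ * (s * (s - 3))) := by ring
      have e3 : (n : ℝ) * ψ * (s - 3) = s * (x0 - s * (s - 3) * k) := by rw [e1, e2, hψD]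
      have e4 : (n : ℝ) * k * (s - 3) = s * (s * (s - 3) * k) := by rw [← hs]; ring
      have e5 : ((x0 : ℝ) * β - (d : ℝ) / 3) * (s - 3) * 9 =
          ((n * ψ + (n * k - 3 * d - x0)) / 9) * (s - 3) * 9 := by
        linear_combination 3 * (x0 : ℝ) * hβ' - e3 - e4
      have h9 : (s - 3) * 9 ≠ 0 := by positivity
      have e6 : ((x0 : ℝ) * β - (d : ℝ) / 3) * ((s - 3) * 9) =
          ((n * ψ + (n * k - 3 * d - x0)) / 9) * ((s - 3) * 9) := by linarith
      exact mul_right_cancel₀ h9 e6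
    obtain ⟨Bm, hBm⟩ : ∃ Bm : Finset ℕ, Bm = bumps L δ β ψ ((n * ψ + ((n * k - 3 * d - x0 : ℤ) : ℝ)) / 9) :=
      ⟨_, rfl⟩
    have hH := H ψ (n * k - 3 * d - x0) hψ0 hψ1
    rw [← hBm] at hH
    have hsub : ((range (N + 1)).filter bad) ⊆ range x0 ∪ Bm.image (fun i => x0 + i) := by
      intro x hx
      rw [mem_filter, hbad] at hx
      obtain ⟨_, hx3, hx4⟩ := hx
      rw [mem_union, mem_range, mem_image]
      rcases Nat.lt_or_ge x x0 with h | h
      · exact Or.inl h
      · right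
        obtain ⟨i, rfl⟩ := Nat.exists_eq_add_of_le h
        refine ⟨i, ?_, rfl⟩
        rw [hBm]
        unfold bumps
        rw [mem_filter, mem_range, ← hv]
        have e1 : ((x0 + i : ℕ) : ℝ) * δ = k + (ψ + δ * i) := by rw [hψ]; push_cast; ring
        have e2 : ((x0 + i : ℕ) : ℝ) * β - (d : ℝ) / 3 = (x0 : ℝ) * β - (d : ℝ) / 3 + β * i := by
          push_cast; ring
        rw [e1, e2] at hx4
        have h5 : ψ + δ * i < Int.fract ((x0 : ℝ) * β - (d : ℝ) / 3 + β * i) := by linarith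
        refine ⟨?_, h5⟩
        have h6 := Int.fract_lt_one ((x0 : ℝ) * β - (d : ℝ) / 3 + β * i)
        have h7 : δ * i < 1 := by linarith
        have h8 : s * (s - 3) * (δ * i) < s * (s - 3) * 1 := mul_lt_mul_of_pos_left h7 hD
        have h9 : (i : ℝ) < L := by
          have e3 : s * (s - 3) * (δ * i) = i := by linear_combination (i : ℝ) * hDδ
          linarith
        exact_mod_cast h9
    have h1 := card_le_card hsub
    have h2 := card_union_le (range x0) (Bm.image (fun i => x0 + i))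
    have h3 := card_image_le (s := Bm) (f := fun i => x0 + i)
    rw [card_range] at h2
    rcases hH with hH | hH
    · have h4 : x0 ≤ D + 1 := by
        rw [hx0]
        apply Nat.ceil_le.2
        push_cast
        have : s * (s - 3) * (k + g) = s * (s - 3) * k + s * (s - 3) * g := by ring
        have h5 : 0 ≤ s * (s - 3) * g := mul_nonneg hD.le hg0
        linarith
      omega
    · rcases Nat.eq_zero_or_pos Bm.card with h0 | h0
      · have h4 : x0 ≤ D + 1 := by
          rw [hx0]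
          apply Nat.ceil_le.2
          push_cast
          have : s * (s - 3) * (k + g) = s * (s - 3) * k + s * (s - 3) * g := by ring
          have h5 : 0 ≤ s * (s - 3) * g := mul_nonneg hD.le hg0
          linarith
        omega
      · have h4 : x0 + (Bm.card - 1) ≤ D := by
          rw [hDd]
          apply Nat.le_floor
          rw [Nat.cast_add, Nat.cast_sub h0]
          push_cast
          have h5 : s * (s - 3) * (ψ + δ * ((Bm.card : ℝ) - 1)) ≤ s * (s - 3) * g :=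
            mul_le_mul_of_nonneg_left hH hD.le
          have e3 : s * (s - 3) * (ψ + δ * ((Bm.card : ℝ) - 1)) =
              x0 - s * (s - 3) * k + ((Bm.card : ℝ) - 1) := by
            linear_combination hψD + ((Bm.card : ℝ) - 1) * hDδ
          rw [e3] at h5
          linarith
        omega
  refine ⟨((range (N + 1)).filter fun x => ¬ bad x).image (fun x : ℕ => (x : ℤ)), ?_, ?_⟩
  · rw [card_image_of_injective _ Nat.cast_injective]
    have h1 := card_filter_add_card_filter_not (s := range (N + 1)) bad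
    rw [card_range] at h1
    omega
  · intro a ha
    rw [mem_image] at ha
    obtain ⟨x, hx, rfl⟩ := ha
    rw [mem_filter, mem_range, hbad] at hx
    obtain ⟨hxN, hx1⟩ := hx
    have hxN' : (x : ℝ) ≤ s * (d - 3 * (k : ℝ)) := by
      have : (x : ℝ) ≤ N := by exact_mod_cast Nat.lt_succ_iff.1 hxN
      linarith
    rcases le_or_gt ((s - 3) * d) (x : ℝ) with h | h
    · refine ⟨0, fun y hy1 hy2 => ⟨Int.natCast_nonneg x, hy1, ?_, ?_⟩⟩
      · simp only
        push_cast
        have hy1R : (0 : ℝ) ≤ y := by exact_mod_cast hy1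
        have h1 : (d : ℝ) / 3 - 1 / (3 * (s - 3)) * x ≤ 0 := by
          rw [← hβ]
          have h2 : β * ((s - 3) * d) ≤ β * x := mul_le_mul_of_nonneg_left h (by rw [hβ]; positivity)
          have e : β * ((s - 3) * d) = d / 3 := by linear_combination (d : ℝ) / 3 * hβ'
          linarith
        linarith
      · simp only
        push_cast
        have hy2R : (y : ℝ) ≤ k := by
          have : (y : ℤ) ≤ k := by omega
          exact_mod_cast this
        have h1 : 1 / (3 * s) * (x : ℝ) ≤ 1 / (3 * s) * (s * (d - 3 * (k : ℝ))) :=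
          mul_le_mul_of_nonneg_left hxN' (by positivity)
        have e : 1 / (3 * s) * (s * (d - 3 * (k : ℝ))) = d / 3 - k := by field_simp
        linarith
    · have h1 : (k : ℝ) + Int.fract ((x : ℝ) * β - (d : ℝ) / 3) ≤ (x : ℝ) * δ := by
        by_contra hcon
        push Not at hcon
        exact hx1 ⟨h, hcon⟩
      have hfr : ((⌈(d : ℝ) / 3 - x * β⌉ : ℤ) : ℝ) = (d : ℝ) / 3 - x * β +
          Int.fract ((x : ℝ) * β - (d : ℝ) / 3) := by
        have e : (x : ℝ) * β - (d : ℝ) / 3 = -((d : ℝ) / 3 - x * β) := by ring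
        rw [e, Int.fract, Int.floor_neg]
        push_cast
        ring
      have hpos : 0 < (d : ℝ) / 3 - x * β := by
        have h2 : x * β < (s - 3) * d * β := mul_lt_mul_of_pos_right h (by rw [hβ]; positivity)
        have e : (s - 3) * d * β = d / 3 := by linear_combination (d : ℝ) / 3 * hβ'
        linarith
      refine ⟨⌈(d : ℝ) / 3 - x * β⌉, fun y hy1 hy2 => ⟨Int.natCast_nonneg x, ?_, ?_, ?_⟩⟩
      · have := Int.ceil_pos.2 hpos
        show (0 : ℤ) ≤ y
        omega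
      · simp only
        push_cast
        rw [← hβ]
        have hy1R : ((⌈(d : ℝ) / 3 - x * β⌉ : ℤ) : ℝ) ≤ y := by exact_mod_cast hy1
        have h2 := Int.fract_nonneg ((x : ℝ) * β - (d : ℝ) / 3)
        linarith
      · simp only
        push_cast
        rw [← hβδ]
        have hy2R : (y : ℝ) ≤ ((⌈(d : ℝ) / 3 - x * β⌉ : ℤ) : ℝ) + k := by exact_mod_cast hy2
        linarith

end Pool.Agent.K7.H2.RR
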