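import Pool.Agent.K7.H2.RR.TopE
import Pool.Agent.K7.H2.RR.Asm
import Pool.Agent.K7.H2.FO.Final

set_option autoImplicit false

/-! General points: the expected dimension outside the window given by certificates. -/

namespace Pool.Agent.K7.H2.RR

open Finset Pool.Agent.K7.H2.FO Pool.Agent.TH176.Nag Pool.Agent.TH603.Sur Pool.Agent.H932R3

/-- `u / 1000` is an upper end of the window -/
def UpOK (r u : ℕ) : Prop :=
  (∃ (M s1 s2 A1 A2 b1 b2 G : ℤ) (L : ℕ) (tabs : List (List (ℤ × ℕ))),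
      cer r M s1 s2 A1 A2 b1 b2 G u L tabs = true) ∨
    ((thr r : ℝ) / 500 - 1) * (Real.sqrt r - 3) ≤ u / 1000

/-- **General points, both ends of the window.** -/
theorem expDim_window {n l u m : ℕ} (hn : 10 ≤ n) (hsq : ¬ IsSquare n) (hE : CerE n l) (hU : UpOK n u)
    (hm : 1 ≤ m) {L : Type} [Field L] [CharZero L] :
    ∃ F : MvPolynomial (Fin n × Fin 2) ℚ, F ≠ 0 ∧ ∀ (P : Fin n → Fin 2 → L),
      MvPolynomial.aeval (fun ij : Fin n × Fin 2 => P ij.1 ij.2) F ≠ 0 →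
      ∀ d : ℕ, (2 * (d : ℝ) + 3 - √(n : ℝ) * (2 * m + 1) ≤ -((l : ℝ) / 1000) ∨
        (u : ℝ) / 1000 ≤ 2 * d + 3 - √(n : ℝ) * (2 * m + 1)) → ExpDim L (fun _ => m) P d := by
  have hirr : Irrational √(n : ℝ) := irrational_sqrt_natCast_iff.2 hsq
  rcases le_or_gt (((m + 1 : ℕ) : ℝ)) ((n : ℝ) - 6 * √(n : ℝ) + 11) with hsm | hlg
  · obtain ⟨F, hF, hF'⟩ := near_points (L := L) (n := n) (m := m) hn hm (w := fun _ => m)
      (fun _ => Or.inl rfl) (near_cond (by omega) (fun _ => Or.inl rfl) (Or.inl hsm))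
    exact ⟨F, hF, fun P hP d _ => hF' P hP d⟩
  have hmR : (n : ℝ) - 6 * √(n : ℝ) + 10 < m := by push_cast at hlg; linarith
  obtain ⟨F1, hF1, hF1'⟩ := expDim_new (L := L) hn hsq hm
  obtain ⟨F2, hF2, hF2'⟩ := expDim_two (n := n) (w := fun _ => m)
    (A := fun d : ℕ => -min (√(n : ℝ) - 3) (2 / 3 + 9 / (4 * √(n : ℝ))) ≤
        2 * d + 3 - √(n : ℝ) * (2 * m + 1) ∧
      2 * (d : ℝ) + 3 - √(n : ℝ) * (2 * m + 1) ≤ -(l : ℝ) / 1000)
    (B := fun d : ℕ => (∃ (M s1 s2 A1 A2 b1 b2 G : ℤ) (K : ℕ) (tabs : List (List (ℤ × ℕ))),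
      cer n M s1 s2 A1 A2 b1 b2 G u K tabs = true) ∧
        (u : ℝ) / 1000 ≤ 2 * d + 3 - √(n : ℝ) * (2 * m + 1)) (⌈√(n : ℝ) * (2 * m + 1)⌉₊)
    (fun d hd => by
      have h1 := Nat.le_ceil (√(n : ℝ) * (2 * m + 1))
      have h2 : (0 : ℝ) ≤ (l : ℝ) / 1000 := by positivity
      have h3 : (0 : ℝ) ≤ d := Nat.cast_nonneg d
      have h4 : (d : ℝ) ≤ ⌈√(n : ℝ) * (2 * m + 1)⌉₊ := by linarith [hd.2]
      exact_mod_cast h4)
    (fun d hd => emp_cer hn hirr hmR hE hd.1 hd.2)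
    (fun d hd => by
      obtain ⟨⟨M, s1, s2, A1, A2, b1, b2, G, K, tabs, hc⟩, h1⟩ := hd
      exact sur_at hn hirr hc (by push_cast; linarith))
  refine ⟨F1 * F2, mul_ne_zero hF1 hF2, fun P hP d hd => ?_⟩
  rw [map_mul] at hP
  rcases hd with hd | hd
  · rcases lt_or_ge (2 * (d : ℝ) + 3 - √(n : ℝ) * (2 * m + 1))
      (-min (√(n : ℝ) - 3) (2 / 3 + 9 / (4 * √(n : ℝ)))) with h0 | h0
    · exact hF1' P (left_ne_zero_of_mul hP) d (Or.inl (by linarith))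
    · exact hF2' P (right_ne_zero_of_mul hP) d (Or.inl ⟨h0, by linarith⟩)
  · rcases hU with hU | hU
    · exact hF2' P (right_ne_zero_of_mul hP) d (Or.inr ⟨hU, hd⟩)
    · exact hF1' P (left_ne_zero_of_mul hP) d (Or.inr (Or.inr (by linarith)))

end Pool.Agent.K7.H2.RR
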