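import Pool.Agent.TH183.QC.FlatE

set_option autoImplicit false

/-! Emptiness from the rows of a region when one more row at the top is not empty: the rows near the
top must have some slack. -/

namespace Pool.Agent.K7.H2.RR

open Finset Pool.Agent.TH183.QC

variable {w : ES}

/-- sorting rows, emptiness -/
theorem EmpA_sort {S S' : Set (ℤ × ℤ)}
    (hS : ∀ (k : ℤ) (A : Finset ℤ), (∀ a ∈ A, ((a, k) : ℤ × ℤ) ∈ S) →
      ∀ p : ℕ, p < A.card → (((p : ℤ), k) : ℤ × ℤ) ∈ S')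
    (h : EmpA w S') : EmpA w S := by
  have h1 : EmpA w {m : ℤ × ℤ | (m.2, m.1) ∈ S'} := by
    refine h.comap 0 1 1 0 0 0 (by norm_num) ?_
    rintro ⟨a, b⟩ hab
    simpa using hab
  have h2 : EmpA w {m : ℤ × ℤ | (m.2, m.1) ∈ S} := by
    refine EmpA_flat0 ?_ h1
    intro k A hA p hp
    exact hS k A hA p hp
  refine h2.comap 0 1 1 0 0 0 (by norm_num) ?_
  rintro ⟨a, b⟩ hab
  simpa using hab

/-- **the spread**: `C` exponents in row `m`, and slack in the rows near it -/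
theorem EmpA_top {n m C : ℕ} {S : Set (ℤ × ℤ)} (hn : 1 ≤ n) (hpos : ∀ p ∈ S, 0 ≤ p.2)
    (h1 : ∀ k : ℕ, k < m → ∀ A : Finset ℤ, (∀ a ∈ A, ((a, (k : ℤ)) : ℤ × ℤ) ∈ S) →
      A.card ≤ n * (m - k))
    (h0 : ∀ A : Finset ℤ, (∀ a ∈ A, ((a, (m : ℤ)) : ℤ × ℤ) ∈ S) → A.card ≤ C)
    (h2 : ∀ k : ℕ, m < k → ∀ a : ℤ, ((a, (k : ℤ)) : ℤ × ℤ) ∉ S)
    (h3 : ∀ e < C, ∃ i : ℕ, e < i ∧ i ≤ m ∧ ∀ A : Finset ℤ,
      (∀ a ∈ A, ((a, ((m - i : ℕ) : ℤ)) : ℤ × ℤ) ∈ S) → A.card + i ≤ n * i + e)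
    (h : EmpA w (Cl ((n * m : ℕ) : ℝ) (n : ℝ))) : EmpA w S := by
  classical
  obtain ⟨S1, hS1⟩ : ∃ S1 : Set (ℤ × ℤ), S1 = {p : ℤ × ℤ | 0 ≤ p.1 ∧ 0 ≤ p.2 ∧ ∃ A : Finset ℤ,
    (∀ a ∈ A, ((a, p.2) : ℤ × ℤ) ∈ S) ∧ p.1 < A.card} := ⟨_, rfl⟩
  -- the rows of `S1`
  have r1 : ∀ (a : ℤ) (k : ℕ), k < m → ((a, (k : ℤ)) : ℤ × ℤ) ∈ S1 → 0 ≤ a ∧ a + 1 + n * k ≤ n * m := by
    intro a k hk hak
    rw [hS1] at hak
    obtain ⟨g1, g2, A, g3, g4⟩ := hak
    simp only at g1 g2 g3 g4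
    have g5 := h1 k hk A g3
    have g6 : ((A.card : ℕ) : ℤ) ≤ ((n * (m - k) : ℕ) : ℤ) := by exact_mod_cast g5
    rw [Nat.cast_mul, Nat.cast_sub hk.le, mul_sub] at g6
    exact ⟨g1, by omega⟩
  have r0 : ∀ a : ℤ, ((a, (m : ℤ)) : ℤ × ℤ) ∈ S1 → 0 ≤ a ∧ a < C := by
    intro a hak
    rw [hS1] at hak
    obtain ⟨g1, g2, A, g3, g4⟩ := hak
    simp only at g1 g2 g3 g4
    have g5 := h0 A g3
    exact ⟨g1, by omega⟩
  have r2 : ∀ (a : ℤ) (k : ℕ), m < k → ((a, (k : ℤ)) : ℤ × ℤ) ∉ S1 := by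
    intro a k hk hak
    rw [hS1] at hak
    obtain ⟨g1, g2, A, g3, g4⟩ := hak
    simp only at g1 g2 g3 g4
    have hne : A.Nonempty := by
      rw [← card_pos]
      omega
    obtain ⟨x, hx⟩ := hne
    exact h2 k hk x (g3 x hx)
  have r3 : ∀ e < C, ∃ i : ℕ, e < i ∧ i ≤ m ∧ ∀ a : ℤ, ((a, ((m - i : ℕ) : ℤ)) : ℤ × ℤ) ∈ S1 →
      a + 1 + i ≤ n * i + e := by
    intro e he
    obtain ⟨i, i1, i2, i3⟩ := h3 e he
    refine ⟨i, i1, i2, fun a hak => ?_⟩
    rw [hS1] at hak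
    obtain ⟨g1, g2, A, g3, g4⟩ := hak
    simp only at g1 g2 g3 g4
    have g5 := i3 A g3
    have g6 : ((A.card + i : ℕ) : ℤ) ≤ ((n * i + e : ℕ) : ℤ) := by exact_mod_cast g5
    push_cast at g6
    omega
  have rpos : ∀ p ∈ S1, 0 ≤ p.1 ∧ 0 ≤ p.2 := by
    intro p hp
    rw [hS1] at hp
    exact ⟨hp.1, hp.2.1⟩
  obtain ⟨σ, hσ⟩ : ∃ σ : ℤ, σ = (n : ℤ) - 1 := ⟨_, rfl⟩
  have hσ0 : 0 ≤ σ := by omega
  -- the target
  have hA : EmpA w {p : ℤ × ℤ | 0 ≤ p.2 ∧ 0 ≤ p.1 - σ * p.2 ∧ p.1 + 1 + p.2 ≤ n * m} := by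
    refine h.comap 1 (-σ) 0 1 0 0 (by norm_num) ?_
    rintro ⟨a, b⟩ ⟨g1, g2, g3⟩
    simp only at g1 g2 g3
    refine ⟨by simp only; linarith, by simp only; linarith, ?_⟩
    simp only
    have g3R : (a : ℝ) + 1 + b ≤ n * m := by exact_mod_cast g3
    rw [hσ]
    push_cast
    linarith
  -- the columns
  have hB : EmpA w {p : ℤ × ℤ | ((p.1 - σ * p.2, p.2) : ℤ × ℤ) ∈ S1} := by
    refine EmpA_flat0 ?_ hA
    intro a B hB k hk
    have hne : B.Nonempty := card_pos.1 (by omega)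
    have hBpos : ∀ b ∈ B, 0 ≤ a - σ * b ∧ 0 ≤ b := fun b hb => rpos _ (hB b hb)
    -- the main inequality
    have key : a + B.card ≤ n * m := by
      have hBm : ∀ b ∈ B, b ≤ m := by
        intro b hb
        obtain ⟨b', rfl⟩ := Int.eq_ofNat_of_zero_le (hBpos b hb).2
        by_contra hcon
        have hlt : m < b' := by
          have := not_le.1 hcon
          omega
        exact r2 _ b' hlt (hB _ hb)
      have hlow : ∀ b ∈ B, b < m → a + b + 1 ≤ n * m := by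
        intro b hb hbm
        obtain ⟨b', rfl⟩ := Int.eq_ofNat_of_zero_le (hBpos b hb).2
        have h5 := (r1 _ b' (by omega) (hB _ hb)).2
        rw [hσ] at h5
        linarith
      by_cases hmB : (m : ℤ) ∈ B
      · have h5 := r0 _ (hB _ hmB)
        simp only at h5
        obtain ⟨e, he⟩ := Int.eq_ofNat_of_zero_le h5.1
        obtain ⟨i, i1, i2, i3⟩ := r3 e (by omega)
        have hbi : (((m - i : ℕ) : ℤ)) ∉ B := by
          intro hb
          have h6 := i3 _ (hB _ hb)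
          have e1 : (((m - i : ℕ) : ℤ)) = (m : ℤ) - i := by omega
          simp only at h6
          have h7 : a - σ * ((m : ℤ) - i) + 1 + i ≤ n * i + e := by
            rw [← e1]
            exact h6
          rw [hσ] at h7 he
          nlinarith
        have hsub : B.erase (m : ℤ) ⊆ (Finset.Ico (0 : ℤ) ((m : ℤ) - e)).erase (((m - i : ℕ) : ℤ)) := by
          intro b hb
          rw [mem_erase] at hb
          rw [mem_erase, Finset.mem_Ico]
          refine ⟨fun h6 => hbi (h6 ▸ hb.2), (hBpos b hb.2).2, ?_⟩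
          have h6 := hlow b hb.2 (lt_of_le_of_ne (hBm b hb.2) hb.1)
          rw [hσ] at he
          nlinarith
        have h6 := card_le_card hsub
        have hmem : (((m - i : ℕ) : ℤ)) ∈ Finset.Ico (0 : ℤ) ((m : ℤ) - e) := by
          rw [Finset.mem_Ico, Nat.cast_sub i2]
          omega
        rw [card_erase_of_mem hmem, Int.card_Ico] at h6
        have h7 := card_erase_of_mem hmB
        have h8 : 0 < (Finset.Ico (0 : ℤ) ((m : ℤ) - e)).card := card_pos.2 ⟨_, hmem⟩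
        rw [Int.card_Ico] at h8
        have h9 : (B.card : ℤ) ≤ m - e := by omega
        rw [hσ] at he
        nlinarith
      · have hmax := B.max'_mem hne
        have h5 := hlow _ hmax (lt_of_le_of_ne (hBm _ hmax) fun h6 => hmB (h6 ▸ hmax))
        have hsub : B ⊆ Finset.Icc (0 : ℤ) (B.max' hne) := by
          intro b hb
          rw [Finset.mem_Icc]
          exact ⟨(hBpos b hb).2, B.le_max' b hb⟩
        have h6 := card_le_card hsub
        rw [Int.card_Icc] at h6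
        have h7 := (hBpos _ hmax).2
        omega
    have hmax := B.max'_mem hne
    have hsub : B ⊆ Finset.Icc (0 : ℤ) (B.max' hne) := by
      intro b hb
      rw [Finset.mem_Icc]
      exact ⟨(hBpos b hb).2, B.le_max' b hb⟩
    have h6 := card_le_card hsub
    rw [Int.card_Icc] at h6
    have h7 := hBpos _ hmax
    have hkm : (k : ℤ) ≤ B.max' hne := by omega
    refine ⟨by simp, ?_, ?_⟩
    · simp only
      have h8 : σ * k ≤ σ * B.max' hne := mul_le_mul_of_nonneg_left hkm hσ0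
      linarith
    · simp only
      have h8 : (k : ℤ) + 1 ≤ B.card := by exact_mod_cast hk
      linarith
  have hC : EmpA w S1 := by
    refine hB.comap 1 σ 0 1 0 0 (by norm_num) ?_
    rintro ⟨a, b⟩ hab
    show ((1 * a + σ * b + 0 - σ * (0 * a + 1 * b + 0), 0 * a + 1 * b + 0) : ℤ × ℤ) ∈ S1
    have e : ((1 * a + σ * b + 0 - σ * (0 * a + 1 * b + 0), 0 * a + 1 * b + 0) : ℤ × ℤ) = (a, b) := by
      ext <;> ring
    rw [e]
    exact hab
  refine EmpA_sort ?_ hC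
  intro k A hA p hp
  rw [hS1]
  have hne : A.Nonempty := card_pos.1 (by omega)
  obtain ⟨x, hx⟩ := hne
  have hk0 := hpos _ (hA x hx)
  exact ⟨by simp, hk0, A, hA, by simp only; exact_mod_cast hp⟩

end Pool.Agent.K7.H2.RR
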