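import Pool.Agent.K7.H2.RR.CertA
import Pool.Agent.K7.H2.RR.CertB
import Pool.Agent.K7.H2.RR.CertC

set_option autoImplicit false

/-! The table of thresholds. -/

namespace Pool.Agent.K7.H2.RR

/-- the pairs of `r` and `1000 * up r` -/
def tableC : List (ℕ × ℕ) :=
  [(10, 130), (12, 310), (14, 434), (15, 524), (17, 465), (18, 553), (19, 620), (20, 589),
    (21, 528), (22, 596), (23, 547), (24, 475), (26, 416), (27, 407), (28, 492), (29, 380),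
    (30, 331), (31, 415), (32, 333), (33, 208), (34, 167), (35, 250), (37, 246), (38, 245),
    (39, 197), (40, 313), (41, 376), (42, 286), (43, 317), (44, 425), (45, 483), (46, 392),
    (47, 374), (48, 474), (50, 481), (51, 390), (52, 373), (53, 516), (54, 601), (55, 466),
    (56, 477), (57, 410), (58, 502), (59, 584), (60, 442), (61, 357), (62, 327), (63, 476),
    (65, 459), (66, 326), (67, 345), (68, 286), (69, 525), (70, 439), (71, 339), (72, 317),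
    (73, 248), (74, 331), (75, 413), (76, 319), (77, 177), (78, 205), (79, 137), (80, 217),
    (82, 215), (83, 184), (84, 198), (85, 165), (86, 299), (87, 393), (88, 307), (89, 226),
    (90, 285), (91, 252), (92, 246), (93, 473), (94, 397), (95, 309), (96, 279), (97, 372),
    (98, 300), (99, 400)]

/-- every entry has a certificate -/
theorem tableC_cer {r u : ℕ} (h : (r, u) ∈ tableC) : 10 ≤ r ∧ ¬ IsSquare r ∧
    ∃ (M s1 s2 A1 A2 b1 b2 G : ℤ) (L : ℕ) (tabs : List (List (ℤ × ℕ))),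
      cer r M s1 s2 A1 A2 b1 b2 G u L tabs = true := by
  simp only [tableC, List.mem_cons, Prod.mk.injEq, List.not_mem_nil, or_false] at h
  rcases h with ⟨rfl, rfl⟩ | ⟨rfl, rfl⟩ | ⟨rfl, rfl⟩ | ⟨rfl, rfl⟩ | ⟨rfl, rfl⟩ | ⟨rfl, rfl⟩ |
    ⟨rfl, rfl⟩ | ⟨rfl, rfl⟩ | ⟨rfl, rfl⟩ | ⟨rfl, rfl⟩ | ⟨rfl, rfl⟩ | ⟨rfl, rfl⟩ | ⟨rfl, rfl⟩ |
    ⟨rfl, rfl⟩ | ⟨rfl, rfl⟩ | ⟨rfl, rfl⟩ | ⟨rfl, rfl⟩ | ⟨rfl, rfl⟩ | ⟨rfl, rfl⟩ | ⟨rfl, rfl⟩ |
    ⟨rfl, rfl⟩ | ⟨rfl, rfl⟩ | ⟨rfl, rfl⟩ | ⟨rfl, rfl⟩ | ⟨rfl, rfl⟩ | ⟨rfl, rfl⟩ | ⟨rfl, rfl⟩ |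
    ⟨rfl, rfl⟩ | ⟨rfl, rfl⟩ | ⟨rfl, rfl⟩ | ⟨rfl, rfl⟩ | ⟨rfl, rfl⟩ | ⟨rfl, rfl⟩ | ⟨rfl, rfl⟩ |
    ⟨rfl, rfl⟩ | ⟨rfl, rfl⟩ | ⟨rfl, rfl⟩ | ⟨rfl, rfl⟩ | ⟨rfl, rfl⟩ | ⟨rfl, rfl⟩ | ⟨rfl, rfl⟩ |
    ⟨rfl, rfl⟩ | ⟨rfl, rfl⟩ | ⟨rfl, rfl⟩ | ⟨rfl, rfl⟩ | ⟨rfl, rfl⟩ | ⟨rfl, rfl⟩ | ⟨rfl, rfl⟩ |
    ⟨rfl, rfl⟩ | ⟨rfl, rfl⟩ | ⟨rfl, rfl⟩ | ⟨rfl, rfl⟩ | ⟨rfl, rfl⟩ | ⟨rfl, rfl⟩ | ⟨rfl, rfl⟩ |
    ⟨rfl, rfl⟩ | ⟨rfl, rfl⟩ | ⟨rfl, rfl⟩ | ⟨rfl, rfl⟩ | ⟨rfl, rfl⟩ | ⟨rfl, rfl⟩ | ⟨rfl, rfl⟩ |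
    ⟨rfl, rfl⟩ | ⟨rfl, rfl⟩ | ⟨rfl, rfl⟩ | ⟨rfl, rfl⟩ | ⟨rfl, rfl⟩ | ⟨rfl, rfl⟩ | ⟨rfl, rfl⟩ |
    ⟨rfl, rfl⟩ | ⟨rfl, rfl⟩ | ⟨rfl, rfl⟩ | ⟨rfl, rfl⟩ | ⟨rfl, rfl⟩ | ⟨rfl, rfl⟩ | ⟨rfl, rfl⟩ |
    ⟨rfl, rfl⟩ | ⟨rfl, rfl⟩ | ⟨rfl, rfl⟩ | ⟨rfl, rfl⟩ | ⟨rfl, rfl⟩ | ⟨rfl, rfl⟩
  · exact ⟨by norm_num, by decide +kernel, _, _, _, _, _, _, _, _, _, _, c10⟩
  · exact ⟨by norm_num, by decide +kernel, _, _, _, _, _, _, _, _, _, _, c12⟩
  · exact ⟨by norm_num, by decide +kernel, _, _, _, _, _, _, _, _, _, _, c14⟩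
  · exact ⟨by norm_num, by decide +kernel, _, _, _, _, _, _, _, _, _, _, c15⟩
  · exact ⟨by norm_num, by decide +kernel, _, _, _, _, _, _, _, _, _, _, c17⟩
  · exact ⟨by norm_num, by decide +kernel, _, _, _, _, _, _, _, _, _, _, c18⟩
  · exact ⟨by norm_num, by decide +kernel, _, _, _, _, _, _, _, _, _, _, c19⟩
  · exact ⟨by norm_num, by decide +kernel, _, _, _, _, _, _, _, _, _, _, c20⟩
  · exact ⟨by norm_num, by decide +kernel, _, _, _, _, _, _, _, _, _, _, c21⟩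
  · exact ⟨by norm_num, by decide +kernel, _, _, _, _, _, _, _, _, _, _, c22⟩
  · exact ⟨by norm_num, by decide +kernel, _, _, _, _, _, _, _, _, _, _, c23⟩
  · exact ⟨by norm_num, by decide +kernel, _, _, _, _, _, _, _, _, _, _, c24⟩
  · exact ⟨by norm_num, by decide +kernel, _, _, _, _, _, _, _, _, _, _, c26⟩
  · exact ⟨by norm_num, by decide +kernel, _, _, _, _, _, _, _, _, _, _, c27⟩
  · exact ⟨by norm_num, by decide +kernel, _, _, _, _, _, _, _, _, _, _, c28⟩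
  · exact ⟨by norm_num, by decide +kernel, _, _, _, _, _, _, _, _, _, _, c29⟩
  · exact ⟨by norm_num, by decide +kernel, _, _, _, _, _, _, _, _, _, _, c30⟩
  · exact ⟨by norm_num, by decide +kernel, _, _, _, _, _, _, _, _, _, _, c31⟩
  · exact ⟨by norm_num, by decide +kernel, _, _, _, _, _, _, _, _, _, _, c32⟩
  · exact ⟨by norm_num, by decide +kernel, _, _, _, _, _, _, _, _, _, _, c33⟩
  · exact ⟨by norm_num, by decide +kernel, _, _, _, _, _, _, _, _, _, _, c34⟩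
  · exact ⟨by norm_num, by decide +kernel, _, _, _, _, _, _, _, _, _, _, c35⟩
  · exact ⟨by norm_num, by decide +kernel, _, _, _, _, _, _, _, _, _, _, c37⟩
  · exact ⟨by norm_num, by decide +kernel, _, _, _, _, _, _, _, _, _, _, c38⟩
  · exact ⟨by norm_num, by decide +kernel, _, _, _, _, _, _, _, _, _, _, c39⟩
  · exact ⟨by norm_num, by decide +kernel, _, _, _, _, _, _, _, _, _, _, c40⟩
  · exact ⟨by norm_num, by decide +kernel, _, _, _, _, _, _, _, _, _, _, c41⟩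
  · exact ⟨by norm_num, by decide +kernel, _, _, _, _, _, _, _, _, _, _, c42⟩
  · exact ⟨by norm_num, by decide +kernel, _, _, _, _, _, _, _, _, _, _, c43⟩
  · exact ⟨by norm_num, by decide +kernel, _, _, _, _, _, _, _, _, _, _, c44⟩
  · exact ⟨by norm_num, by decide +kernel, _, _, _, _, _, _, _, _, _, _, c45⟩
  · exact ⟨by norm_num, by decide +kernel, _, _, _, _, _, _, _, _, _, _, c46⟩
  · exact ⟨by norm_num, by decide +kernel, _, _, _, _, _, _, _, _, _, _, c47⟩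
  · exact ⟨by norm_num, by decide +kernel, _, _, _, _, _, _, _, _, _, _, c48⟩
  · exact ⟨by norm_num, by decide +kernel, _, _, _, _, _, _, _, _, _, _, c50⟩
  · exact ⟨by norm_num, by decide +kernel, _, _, _, _, _, _, _, _, _, _, c51⟩
  · exact ⟨by norm_num, by decide +kernel, _, _, _, _, _, _, _, _, _, _, c52⟩
  · exact ⟨by norm_num, by decide +kernel, _, _, _, _, _, _, _, _, _, _, c53⟩
  · exact ⟨by norm_num, by decide +kernel, _, _, _, _, _, _, _, _, _, _, c54⟩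
  · exact ⟨by norm_num, by decide +kernel, _, _, _, _, _, _, _, _, _, _, c55⟩
  · exact ⟨by norm_num, by decide +kernel, _, _, _, _, _, _, _, _, _, _, c56⟩
  · exact ⟨by norm_num, by decide +kernel, _, _, _, _, _, _, _, _, _, _, c57⟩
  · exact ⟨by norm_num, by decide +kernel, _, _, _, _, _, _, _, _, _, _, c58⟩
  · exact ⟨by norm_num, by decide +kernel, _, _, _, _, _, _, _, _, _, _, c59⟩
  · exact ⟨by norm_num, by decide +kernel, _, _, _, _, _, _, _, _, _, _, c60⟩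
  · exact ⟨by norm_num, by decide +kernel, _, _, _, _, _, _, _, _, _, _, c61⟩
  · exact ⟨by norm_num, by decide +kernel, _, _, _, _, _, _, _, _, _, _, c62⟩
  · exact ⟨by norm_num, by decide +kernel, _, _, _, _, _, _, _, _, _, _, c63⟩
  · exact ⟨by norm_num, by decide +kernel, _, _, _, _, _, _, _, _, _, _, c65⟩
  · exact ⟨by norm_num, by decide +kernel, _, _, _, _, _, _, _, _, _, _, c66⟩
  · exact ⟨by norm_num, by decide +kernel, _, _, _, _, _, _, _, _, _, _, c67⟩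
  · exact ⟨by norm_num, by decide +kernel, _, _, _, _, _, _, _, _, _, _, c68⟩
  · exact ⟨by norm_num, by decide +kernel, _, _, _, _, _, _, _, _, _, _, c69⟩
  · exact ⟨by norm_num, by decide +kernel, _, _, _, _, _, _, _, _, _, _, c70⟩
  · exact ⟨by norm_num, by decide +kernel, _, _, _, _, _, _, _, _, _, _, c71⟩
  · exact ⟨by norm_num, by decide +kernel, _, _, _, _, _, _, _, _, _, _, c72⟩
  · exact ⟨by norm_num, by decide +kernel, _, _, _, _, _, _, _, _, _, _, c73⟩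
  · exact ⟨by norm_num, by decide +kernel, _, _, _, _, _, _, _, _, _, _, c74⟩
  · exact ⟨by norm_num, by decide +kernel, _, _, _, _, _, _, _, _, _, _, c75⟩
  · exact ⟨by norm_num, by decide +kernel, _, _, _, _, _, _, _, _, _, _, c76⟩
  · exact ⟨by norm_num, by decide +kernel, _, _, _, _, _, _, _, _, _, _, c77⟩
  · exact ⟨by norm_num, by decide +kernel, _, _, _, _, _, _, _, _, _, _, c78⟩
  · exact ⟨by norm_num, by decide +kernel, _, _, _, _, _, _, _, _, _, _, c79⟩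
  · exact ⟨by norm_num, by decide +kernel, _, _, _, _, _, _, _, _, _, _, c80⟩
  · exact ⟨by norm_num, by decide +kernel, _, _, _, _, _, _, _, _, _, _, c82⟩
  · exact ⟨by norm_num, by decide +kernel, _, _, _, _, _, _, _, _, _, _, c83⟩
  · exact ⟨by norm_num, by decide +kernel, _, _, _, _, _, _, _, _, _, _, c84⟩
  · exact ⟨by norm_num, by decide +kernel, _, _, _, _, _, _, _, _, _, _, c85⟩
  · exact ⟨by norm_num, by decide +kernel, _, _, _, _, _, _, _, _, _, _, c86⟩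
  · exact ⟨by norm_num, by decide +kernel, _, _, _, _, _, _, _, _, _, _, c87⟩
  · exact ⟨by norm_num, by decide +kernel, _, _, _, _, _, _, _, _, _, _, c88⟩
  · exact ⟨by norm_num, by decide +kernel, _, _, _, _, _, _, _, _, _, _, c89⟩
  · exact ⟨by norm_num, by decide +kernel, _, _, _, _, _, _, _, _, _, _, c90⟩
  · exact ⟨by norm_num, by decide +kernel, _, _, _, _, _, _, _, _, _, _, c91⟩
  · exact ⟨by norm_num, by decide +kernel, _, _, _, _, _, _, _, _, _, _, c92⟩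
  · exact ⟨by norm_num, by decide +kernel, _, _, _, _, _, _, _, _, _, _, c93⟩
  · exact ⟨by norm_num, by decide +kernel, _, _, _, _, _, _, _, _, _, _, c94⟩
  · exact ⟨by norm_num, by decide +kernel, _, _, _, _, _, _, _, _, _, _, c95⟩
  · exact ⟨by norm_num, by decide +kernel, _, _, _, _, _, _, _, _, _, _, c96⟩
  · exact ⟨by norm_num, by decide +kernel, _, _, _, _, _, _, _, _, _, _, c97⟩
  · exact ⟨by norm_num, by decide +kernel, _, _, _, _, _, _, _, _, _, _, c98⟩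
  · exact ⟨by norm_num, by decide +kernel, _, _, _, _, _, _, _, _, _, _, c99⟩

end Pool.Agent.K7.H2.RR
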