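import Pool.Agent.K7.H2.RR.Top

set_option autoImplicit false

/-! The certificate of the top rows. -/

namespace Pool.Agent.K7.H2.RR

/-- the certificate of the top rows: threshold `l / 1000` and the range `[Elo, Ehi]` of `M η` -/
def topE (I n : ℕ) (M s1 s2 A1 A2 b1 b2 : ℤ) (L : ℕ) (l Elo Ehi : ℤ)
    (tab : List (ℤ × ℤ × List (ℕ × ℤ))) : Bool :=
  decide (0 ≤ Elo ∧ (Elo * (s2 + 3 * M) ≤ M * M ∨ (24 * Elo + 44 * M) * s2 ≤ M * M * (12 * n - 27)) ∧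
    1000 * (s2 - 3 * M) - M * l < 2000 * Ehi ∧ I * M + 6 * s2 ≤ (n + 11) * M) &&
  topok I n M s1 s2 A1 A2 b1 b2 L Ehi Elo tab

end Pool.Agent.K7.H2.RR
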