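import Pool.Agent.K7.H2.RR.AsmE
import Pool.Agent.K7.H2.RR.TopD

set_option autoImplicit false

/-! The certificates for emptiness: windows for the degrees. -/

namespace Pool.Agent.K7.H2.RR

open Finset Pool.Agent.K7.H2.FO Pool.Agent.TH176.Nag Pool.Agent.TH603.Sur Pool.Agent.TH183.QC
open Pool.Agent.TH183.QS
open Pool.Agent.TH183.QN (TT)

theorem topE_spec {I n : ℕ} {M s1 s2 A1 A2 b1 b2 l Elo Ehi : ℤ} {L : ℕ}
    {tab : List (ℤ × ℤ × List (ℕ × ℤ))} {s η : ℝ} (hM : 0 < M)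
    (hs : s * s = n) (hs3 : 3 < s) (h0 : 0 ≤ s1) (hs1 : (s1 : ℝ) ≤ M * s) (hs2 : (M : ℝ) * s ≤ s2)
    (hb1 : (b1 : ℝ) ≤ M * (1 / (3 * (s - 3)))) (hb2 : (M : ℝ) * (1 / (3 * (s - 3))) ≤ b2)
    (hA1 : (A1 : ℝ) ≤ M * (1 / (s * (s - 3)))) (hA2 : (M : ℝ) * (1 / (s * (s - 3))) ≤ A2)
    (hc : topE I n M s1 s2 A1 A2 b1 b2 L l Elo Ehi tab = true) (hη : 0 < η)
    (h1 : -(2 / 3 + 9 / (4 * s)) ≤ 2 * η + 3 - s) (h2 : 1000 * (2 * η + 3 - s) ≤ -(l : ℝ)) :
    TopC I n s η := by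
  have hs0 : 0 < s := by linarith
  have hs3' : 0 < s - 3 := by linarith
  have hMR : (0 : ℝ) < M := by exact_mod_cast hM
  unfold topE at hc
  rw [Bool.and_eq_true, decide_eq_true_eq] at hc
  obtain ⟨⟨c1, c2, c3, -⟩, c4⟩ := hc
  have c1R : (0 : ℝ) ≤ Elo := by exact_mod_cast c1
  have c3R : 1000 * ((s2 : ℝ) - 3 * M) - M * l < 2000 * Ehi := by exact_mod_cast c3
  rcases lt_or_ge ((s + 3) * η) 1 with hsm | hsm
  · refine ⟨0, fun A hA => ?_, fun e he => absurd he (Nat.not_lt_zero e)⟩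
    rw [Nat.le_zero, card_eq_zero, Finset.eq_empty_iff_forall_notMem]
    intro y hy
    obtain ⟨g1, g2⟩ := hA y hy
    push_cast at g1 g2
    have g3 : (y : ℝ) < 1 := by linarith
    have g4 : y < 1 := by exact_mod_cast g3
    have g5 : (y : ℝ) ≤ 0 := by exact_mod_cast Int.lt_add_one_iff.1 g4
    have g6 := Int.fract_nonneg ((y - s * η) * (1 / (3 * (s - 3))))
    have g7 : (y - 3 * η) * (1 / (s * (s - 3))) < 0 :=
      mul_neg_of_neg_of_pos (by linarith) (by positivity)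
    linarith
  · refine topok_spec hM hs hs3 h0 hs1 hs2 hb1 hb2 hA1 hA2 ?_ tab Elo ?_ c4
    · have h3 : (M : ℝ) * (1000 * (2 * η + 3 - s)) ≤ M * -(l : ℝ) := mul_le_mul_of_nonneg_left h2 hMR.le
      linarith
    · have hs2' : 0 < (s2 : ℝ) := lt_of_lt_of_le (by positivity) hs2
      rcases c2 with c2 | c2
      · have c2R : (Elo : ℝ) * (s2 + 3 * M) ≤ M * M := by exact_mod_cast c2
        have h3 : (M : ℝ) * M * 1 ≤ M * M * ((s + 3) * η) :=
          mul_le_mul_of_nonneg_left hsm (by positivity)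
        have h4 : (M * s + 3 * M) * (M * η) ≤ (s2 + 3 * M) * (M * η) :=
          mul_le_mul_of_nonneg_right (by linarith) (by positivity)
        have h5 : (s2 + 3 * (M : ℝ)) * Elo ≤ (s2 + 3 * M) * (M * η) := by linarith
        exact le_of_mul_le_mul_left h5 (by positivity)
      · have c2R : (24 * (Elo : ℝ) + 44 * M) * s2 ≤ M * M * (12 * n - 27) := by exact_mod_cast c2
        have h3 : (24 * (Elo : ℝ) + 44 * M) * (M * s) ≤ (24 * (Elo : ℝ) + 44 * M) * s2 :=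
          mul_le_mul_of_nonneg_left hs2 (by positivity)
        have h4 : (M : ℝ) * ((24 * (Elo : ℝ) + 44 * M) * s) ≤ M * (M * (12 * n - 27)) := by linarith
        have h5 := le_of_mul_le_mul_left h4 hMR
        have h6 : 12 * s * -(2 / 3 + 9 / (4 * s)) ≤ 12 * s * (2 * η + 3 - s) :=
          mul_le_mul_of_nonneg_left h1 (by positivity)
        have e6 : 12 * s * -(2 / 3 + 9 / (4 * s)) = -(8 * s) - 27 := by
          field_simp
          ring
        rw [e6] at h6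
        have h7 : (M : ℝ) * (-(8 * s) - 27) ≤ M * (12 * s * (2 * η + 3 - s)) :=
          mul_le_mul_of_nonneg_left h6 hMR.le
        have h8 : s * (24 * (Elo : ℝ)) ≤ s * (24 * (M * η)) := by
          have e8 : M * (12 * s * (2 * η + 3 - s)) = s * (24 * (M * η)) + 36 * M * s - 12 * M * n := by
            rw [← hs]; ring
          rw [e8] at h7
          linarith
        have h9 := le_of_mul_le_mul_left h8 hs0
        linarith

/-- both certificates -/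
def CerE (n l : ℕ) : Prop := ∃ (I : ℕ) (M s1 s2 A1 A2 b1 b2 G : ℤ) (L : ℕ) (tabs : List (List ℤ))
  (Elo Ehi : ℤ) (tab : List (ℤ × ℤ × List (ℕ × ℤ))),
  cerE n M s1 s2 A1 A2 b1 b2 G l L tabs = true ∧
    topE I n M s1 s2 A1 A2 b1 b2 (L + 1) l Elo Ehi tab = true

/-- emptiness for the triangle of slope `3 √n` in a window of degrees -/
theorem empA_cer {w : ES} {n m d l : ℕ} (hn : 10 ≤ n) (hirr : Irrational (√(n : ℝ))) (hm : (n : ℝ) - 6 * √(n : ℝ) + 10 < m)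
    (hc : CerE n l)
    (h1 : -min (√(n : ℝ) - 3) (2 / 3 + 9 / (4 * √(n : ℝ))) ≤ 2 * d + 3 - √(n : ℝ) * (2 * m + 1))
    (h2 : 2 * (d : ℝ) + 3 - √(n : ℝ) * (2 * m + 1) ≤ -(l : ℝ) / 1000)
    (h : EmpA w (Cl ((n * m : ℕ) : ℝ) (n : ℝ))) : EmpA w (Rg √(n : ℝ) d) := by
  have hnR : (10 : ℝ) ≤ n := by exact_mod_cast hn
  have hmin1 := min_le_left (√(n : ℝ) - 3) (2 / 3 + 9 / (4 * √(n : ℝ)))
  have hmin2 := min_le_right (√(n : ℝ) - 3) (2 / 3 + 9 / (4 * √(n : ℝ)))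
  obtain ⟨s, hs⟩ : ∃ s, s = √(n : ℝ) := ⟨_, rfl⟩
  rw [← hs] at h1 h2 hmin1 hmin2 hirr hm ⊢
  have hss : s * s = n := by rw [hs]; exact Real.mul_self_sqrt (by linarith)
  have hs0 : 0 ≤ s := by rw [hs]; exact Real.sqrt_nonneg _
  have hs3 : 3 < s := by
    by_contra hcon
    push Not at hcon
    nlinarith
  have hs3' : s - 3 ≠ 0 := by linarith
  have hη : 0 < (d : ℝ) - s * m := by
    refine lt_of_le_of_ne (by linarith) fun h0 => ?_
    have hm0 : (m : ℝ) ≠ 0 := by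
      rw [← hss] at hm
      nlinarith [sq_nonneg (s - 3)]
    have e : s = (((d : ℚ) / (m : ℚ) : ℚ) : ℝ) := by
      push_cast
      rw [eq_div_iff hm0]
      linarith
    rw [e] at hirr
    exact Rat.not_irrational _ hirr
  obtain ⟨g, hg⟩ : ∃ g, g = ((d : ℝ) - s * m) / (s - 3) := ⟨_, rfl⟩
  have hg1 : g * (s - 3) = d - s * m := by rw [hg]; field_simp
  have hg0 : 0 ≤ g := by rw [hg]; exact (div_pos hη (by linarith)).le
  obtain ⟨I, M, s1, s2, A1, A2, b1, b2, G, L, tabs, Elo, Ehi, tab, hcE, hcT⟩ := hc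
  have hbulk := cerE_spec (g := g) (by omega) hcE hss hs3 (by
    have e : (2 * g - 1) * (s - 3) = 2 * d + 3 - s * (2 * m + 1) := by linear_combination 2 * hg1
    rw [e]
    push_cast
    linarith)
  obtain ⟨hgl, hL, H⟩ := hbulk
  unfold cerE at hcE
  rw [Bool.and_eq_true, decide_eq_true_eq] at hcE
  obtain ⟨⟨c1, c2, c3, c4, c5, c6, c7, c8, c9, c10, c11, c12, c13, c14, c15, c16⟩, -⟩ := hcE
  obtain ⟨hlo, hhi, nb1, nb2, nA1, nA2, -⟩ :=
    slopes ⟨c1, c2, c3, c4, c5, c6, c7, c8, c9, c10, c11, c12, c13, c14⟩ hss hs3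
  have hI : I ≤ m := by
    have hcT' := hcT
    unfold topE at hcT'
    rw [Bool.and_eq_true, decide_eq_true_eq] at hcT'
    have c20 := hcT'.1.2.2.2
    have c20R : (I : ℝ) * M + 6 * s2 ≤ (n + 11) * M := by exact_mod_cast c20
    have hMR : (0 : ℝ) < M := by exact_mod_cast c1
    have h3 : (M : ℝ) * I ≤ M * (n + 11 - 6 * s) := by linarith
    have h4 := le_of_mul_le_mul_left h3 hMR
    have h5 : (I : ℝ) < (m : ℝ) + 1 := by linarith
    have h6 : I < m + 1 := by exact_mod_cast h5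
    omega
  refine empA_rg hn hss hs3 hg1 hg0 hgl hL H ?_ hI h
  refine topE_spec c1 hss hs3 (by omega) hlo hhi nb1 nb2 nA1 nA2 hcT hη ?_ ?_
  · linarith
  · push_cast
    linarith

/-- **Emptiness in degree `d` for general collisions.** -/
theorem empAt_cer {n m d l : ℕ} (hn : 10 ≤ n) (hirr : Irrational (√(n : ℝ))) (hm : (n : ℝ) - 6 * √(n : ℝ) + 10 < m)
    (hc : CerE n l)
    (h1 : -min (√(n : ℝ) - 3) (2 / 3 + 9 / (4 * √(n : ℝ))) ≤ 2 * d + 3 - √(n : ℝ) * (2 * m + 1))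
    (h2 : 2 * (d : ℝ) + 3 - √(n : ℝ) * (2 * m + 1) ≤ -(l : ℝ) / 1000) : EmpAt n m d :=
  EmpAt.of (empA_TT (keyE n m) hn hirr (empA_cer hn hirr hm hc h1 h2 (es_cl n m)))

/-- the system of emptiness predicates of general points -/
def esG {ι : Type} (w : ι → ℕ) : ES where
  E := Emp w
  none := Pool.Agent.TH603.Cut.Emp_none (by simp)
  mono := fun h hS => h.mono hS
  comap := fun h a b c d u v hdet hS => h.comap a b c d u v hdet hS
  flat0 := fun hS h => Emp_flat0 hS h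
  chart := fun hN t e h => Emp_Q3z hN t e h

theorem keyG {ι : Type} (w : ι → ℕ) : KeyE (esG w) :=
  fun d τ h0 h1 h => Pool.Agent.TH641.NW.keyE ι w d τ h0 h1 h

/-- **Emptiness in degree `d` at general points.** -/
theorem emp_cer {n m d l : ℕ} (hn : 10 ≤ n) (hirr : Irrational (√(n : ℝ))) (hm : (n : ℝ) - 6 * √(n : ℝ) + 10 < m)
    (hc : CerE n l)
    (h1 : -min (√(n : ℝ) - 3) (2 / 3 + 9 / (4 * √(n : ℝ))) ≤ 2 * d + 3 - √(n : ℝ) * (2 * m + 1))
    (h2 : 2 * (d : ℝ) + 3 - √(n : ℝ) * (2 * m + 1) ≤ -(l : ℝ) / 1000) :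
    Emp (fun _ : Fin n => m) (TZ d) := by
  refine empA_TT (keyG (fun _ : Fin n => m)) hn hirr (empA_cer hn hirr hm hc h1 h2 ?_)
  refine (Emp_rows (fun _ : Fin n => m) 0).mono ?_
  rintro ⟨a, b⟩ ⟨g1, g2, g3⟩
  simp only at g1 g2 g3
  obtain ⟨k, rfl⟩ := Int.eq_ofNat_of_zero_le g2
  have g4 : a + 1 + n * k ≤ n * m := by
    have : ((a + 1 + n * k : ℤ) : ℝ) ≤ ((n * m : ℤ) : ℝ) := by
      push_cast at g3 ⊢
      exact g3
    exact_mod_cast this
  refine ⟨by simp, g1, ?_⟩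
  simp only [sum_const, card_univ, Fintype.card_fin, smul_eq_mul, Int.toNat_natCast]
  rcases le_or_gt m k with h | h
  · exfalso
    have h5 : (n : ℤ) * m ≤ n * k := mul_le_mul_of_nonneg_left (by exact_mod_cast h) (by positivity)
    omega
  · rw [Nat.cast_mul, Nat.cast_sub h.le, mul_sub]
    omega

end Pool.Agent.K7.H2.RR
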