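import Pool.Agent.K7.H2.RR.CertEA
import Pool.Agent.K7.H2.RR.CertEB
import Pool.Agent.K7.H2.RR.CertEC
import Pool.Agent.K7.H2.RR.CertED
import Pool.Agent.K7.H2.RR.CertEF
import Pool.Agent.K7.H2.RR.CertEG
import Pool.Agent.K7.H2.RR.CertEH
import Pool.Agent.K7.H2.RR.CertTA
import Pool.Agent.K7.H2.RR.CertTB
import Pool.Agent.K7.H2.RR.CertTC
import Pool.Agent.K7.H2.RR.CertTD
import Pool.Agent.K7.H2.RR.CertTE
import Pool.Agent.K7.H2.RR.CertTF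
import Pool.Agent.K7.H2.RR.CertTG
import Pool.Agent.K7.H2.RR.CertTH
import Pool.Agent.K7.H2.RR.CertTI
import Pool.Agent.K7.H2.RR.TopE
import Pool.Agent.K7.H2.RR.Table

set_option autoImplicit false

/-! The table of thresholds on both sides. -/

namespace Pool.Agent.K7.H2.RR

/-- the triples of `r`, `1000 * lo r` and `1000 * up r` -/
def tableE : List (ℕ × ℕ × ℕ) :=
  [(12, 310, 310), (14, 445, 434), (15, 582, 524), (17, 489, 465), (18, 553, 553), (19, 620, 620),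
    (20, 589, 589), (21, 528, 528), (22, 596, 596), (23, 547, 547), (24, 475, 475),
    (26, 518, 416), (27, 532, 407), (28, 492, 492), (29, 387, 380), (30, 424, 331),
    (31, 442, 415), (32, 340, 333), (33, 443, 208), (34, 452, 167), (35, 394, 250),
    (37, 385, 246), (38, 435, 245), (39, 319, 197), (40, 531, 313), (41, 391, 376),
    (42, 479, 286), (43, 495, 317), (44, 582, 425), (45, 515, 483), (46, 392, 392),
    (47, 400, 374), (48, 474, 474), (50, 481, 481), (51, 390, 390), (52, 373, 373),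
    (53, 516, 516), (54, 601, 601), (55, 466, 466), (56, 477, 477), (57, 410, 410),
    (58, 502, 502), (59, 584, 584), (60, 442, 442), (61, 357, 357), (62, 366, 327),
    (63, 476, 476), (65, 459, 459), (66, 345, 326), (67, 357, 345), (68, 391, 286),
    (69, 525, 525), (70, 439, 439), (71, 379, 339), (72, 317, 317), (73, 419, 248),
    (74, 331, 331), (75, 413, 413), (76, 336, 319), (77, 395, 177), (78, 421, 205),
    (79, 287, 137), (80, 335, 217), (82, 277, 215), (83, 282, 184), (84, 410, 198),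
    (85, 380, 165), (86, 299, 299), (87, 393, 393), (88, 313, 307), (89, 371, 226),
    (90, 352, 285), (91, 282, 252), (92, 326, 246), (93, 473, 473), (94, 421, 397),
    (95, 352, 309), (96, 279, 279), (97, 372, 372), (98, 300, 300), (99, 400, 400)]

/-- every entry has certificates -/
theorem tableE_cer {r l u : ℕ} (h : (r, l, u) ∈ tableE) : (r, u) ∈ tableC ∧ CerE r l := by
  simp only [tableE, List.mem_cons, Prod.mk.injEq, List.not_mem_nil, or_false] at h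
  rcases h with ⟨rfl, rfl, rfl⟩ | ⟨rfl, rfl, rfl⟩ | ⟨rfl, rfl, rfl⟩ | ⟨rfl, rfl, rfl⟩ | ⟨rfl, rfl, rfl⟩ |
    ⟨rfl, rfl, rfl⟩ | ⟨rfl, rfl, rfl⟩ | ⟨rfl, rfl, rfl⟩ | ⟨rfl, rfl, rfl⟩ | ⟨rfl, rfl, rfl⟩ |
    ⟨rfl, rfl, rfl⟩ | ⟨rfl, rfl, rfl⟩ | ⟨rfl, rfl, rfl⟩ | ⟨rfl, rfl, rfl⟩ | ⟨rfl, rfl, rfl⟩ |
    ⟨rfl, rfl, rfl⟩ | ⟨rfl, rfl, rfl⟩ | ⟨rfl, rfl, rfl⟩ | ⟨rfl, rfl, rfl⟩ | ⟨rfl, rfl, rfl⟩ |
    ⟨rfl, rfl, rfl⟩ | ⟨rfl, rfl, rfl⟩ | ⟨rfl, rfl, rfl⟩ | ⟨rfl, rfl, rfl⟩ | ⟨rfl, rfl, rfl⟩ |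
    ⟨rfl, rfl, rfl⟩ | ⟨rfl, rfl, rfl⟩ | ⟨rfl, rfl, rfl⟩ | ⟨rfl, rfl, rfl⟩ | ⟨rfl, rfl, rfl⟩ |
    ⟨rfl, rfl, rfl⟩ | ⟨rfl, rfl, rfl⟩ | ⟨rfl, rfl, rfl⟩ | ⟨rfl, rfl, rfl⟩ | ⟨rfl, rfl, rfl⟩ |
    ⟨rfl, rfl, rfl⟩ | ⟨rfl, rfl, rfl⟩ | ⟨rfl, rfl, rfl⟩ | ⟨rfl, rfl, rfl⟩ | ⟨rfl, rfl, rfl⟩ |
    ⟨rfl, rfl, rfl⟩ | ⟨rfl, rfl, rfl⟩ | ⟨rfl, rfl, rfl⟩ | ⟨rfl, rfl, rfl⟩ | ⟨rfl, rfl, rfl⟩ |
    ⟨rfl, rfl, rfl⟩ | ⟨rfl, rfl, rfl⟩ | ⟨rfl, rfl, rfl⟩ | ⟨rfl, rfl, rfl⟩ | ⟨rfl, rfl, rfl⟩ |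
    ⟨rfl, rfl, rfl⟩ | ⟨rfl, rfl, rfl⟩ | ⟨rfl, rfl, rfl⟩ | ⟨rfl, rfl, rfl⟩ | ⟨rfl, rfl, rfl⟩ |
    ⟨rfl, rfl, rfl⟩ | ⟨rfl, rfl, rfl⟩ | ⟨rfl, rfl, rfl⟩ | ⟨rfl, rfl, rfl⟩ | ⟨rfl, rfl, rfl⟩ |
    ⟨rfl, rfl, rfl⟩ | ⟨rfl, rfl, rfl⟩ | ⟨rfl, rfl, rfl⟩ | ⟨rfl, rfl, rfl⟩ | ⟨rfl, rfl, rfl⟩ |
    ⟨rfl, rfl, rfl⟩ | ⟨rfl, rfl, rfl⟩ | ⟨rfl, rfl, rfl⟩ | ⟨rfl, rfl, rfl⟩ | ⟨rfl, rfl, rfl⟩ |
    ⟨rfl, rfl, rfl⟩ | ⟨rfl, rfl, rfl⟩ | ⟨rfl, rfl, rfl⟩ | ⟨rfl, rfl, rfl⟩ | ⟨rfl, rfl, rfl⟩ |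
    ⟨rfl, rfl, rfl⟩ | ⟨rfl, rfl, rfl⟩ | ⟨rfl, rfl, rfl⟩ | ⟨rfl, rfl, rfl⟩ | ⟨rfl, rfl, rfl⟩ |
    ⟨rfl, rfl, rfl⟩
  · exact ⟨by decide +kernel, _, _, _, _, _, _, _, _, _, _, _, _, _, _, e12, f12⟩
  · exact ⟨by decide +kernel, _, _, _, _, _, _, _, _, _, _, _, _, _, _, e14, f14⟩
  · exact ⟨by decide +kernel, _, _, _, _, _, _, _, _, _, _, _, _, _, _, e15, f15⟩
  · exact ⟨by decide +kernel, _, _, _, _, _, _, _, _, _, _, _, _, _, _, e17, f17⟩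
  · exact ⟨by decide +kernel, _, _, _, _, _, _, _, _, _, _, _, _, _, _, e18, f18⟩
  · exact ⟨by decide +kernel, _, _, _, _, _, _, _, _, _, _, _, _, _, _, e19, f19⟩
  · exact ⟨by decide +kernel, _, _, _, _, _, _, _, _, _, _, _, _, _, _, e20, f20⟩
  · exact ⟨by decide +kernel, _, _, _, _, _, _, _, _, _, _, _, _, _, _, e21, f21⟩
  · exact ⟨by decide +kernel, _, _, _, _, _, _, _, _, _, _, _, _, _, _, e22, f22⟩
  · exact ⟨by decide +kernel, _, _, _, _, _, _, _, _, _, _, _, _, _, _, e23, f23⟩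
  · exact ⟨by decide +kernel, _, _, _, _, _, _, _, _, _, _, _, _, _, _, e24, f24⟩
  · exact ⟨by decide +kernel, _, _, _, _, _, _, _, _, _, _, _, _, _, _, e26, f26⟩
  · exact ⟨by decide +kernel, _, _, _, _, _, _, _, _, _, _, _, _, _, _, e27, f27⟩
  · exact ⟨by decide +kernel, _, _, _, _, _, _, _, _, _, _, _, _, _, _, e28, f28⟩
  · exact ⟨by decide +kernel, _, _, _, _, _, _, _, _, _, _, _, _, _, _, e29, f29⟩
  · exact ⟨by decide +kernel, _, _, _, _, _, _, _, _, _, _, _, _, _, _, e30, f30⟩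
  · exact ⟨by decide +kernel, _, _, _, _, _, _, _, _, _, _, _, _, _, _, e31, f31⟩
  · exact ⟨by decide +kernel, _, _, _, _, _, _, _, _, _, _, _, _, _, _, e32, f32⟩
  · exact ⟨by decide +kernel, _, _, _, _, _, _, _, _, _, _, _, _, _, _, e33, f33⟩
  · exact ⟨by decide +kernel, _, _, _, _, _, _, _, _, _, _, _, _, _, _, e34, f34⟩
  · exact ⟨by decide +kernel, _, _, _, _, _, _, _, _, _, _, _, _, _, _, e35, f35⟩
  · exact ⟨by decide +kernel, _, _, _, _, _, _, _, _, _, _, _, _, _, _, e37, f37⟩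
  · exact ⟨by decide +kernel, _, _, _, _, _, _, _, _, _, _, _, _, _, _, e38, f38⟩
  · exact ⟨by decide +kernel, _, _, _, _, _, _, _, _, _, _, _, _, _, _, e39, f39⟩
  · exact ⟨by decide +kernel, _, _, _, _, _, _, _, _, _, _, _, _, _, _, e40, f40⟩
  · exact ⟨by decide +kernel, _, _, _, _, _, _, _, _, _, _, _, _, _, _, e41, f41⟩
  · exact ⟨by decide +kernel, _, _, _, _, _, _, _, _, _, _, _, _, _, _, e42, f42⟩
  · exact ⟨by decide +kernel, _, _, _, _, _, _, _, _, _, _, _, _, _, _, e43, f43⟩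
  · exact ⟨by decide +kernel, _, _, _, _, _, _, _, _, _, _, _, _, _, _, e44, f44⟩
  · exact ⟨by decide +kernel, _, _, _, _, _, _, _, _, _, _, _, _, _, _, e45, f45⟩
  · exact ⟨by decide +kernel, _, _, _, _, _, _, _, _, _, _, _, _, _, _, e46, f46⟩
  · exact ⟨by decide +kernel, _, _, _, _, _, _, _, _, _, _, _, _, _, _, e47, f47⟩
  · exact ⟨by decide +kernel, _, _, _, _, _, _, _, _, _, _, _, _, _, _, e48, f48⟩
  · exact ⟨by decide +kernel, _, _, _, _, _, _, _, _, _, _, _, _, _, _, e50, f50⟩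
  · exact ⟨by decide +kernel, _, _, _, _, _, _, _, _, _, _, _, _, _, _, e51, f51⟩
  · exact ⟨by decide +kernel, _, _, _, _, _, _, _, _, _, _, _, _, _, _, e52, f52⟩
  · exact ⟨by decide +kernel, _, _, _, _, _, _, _, _, _, _, _, _, _, _, e53, f53⟩
  · exact ⟨by decide +kernel, _, _, _, _, _, _, _, _, _, _, _, _, _, _, e54, f54⟩
  · exact ⟨by decide +kernel, _, _, _, _, _, _, _, _, _, _, _, _, _, _, e55, f55⟩
  · exact ⟨by decide +kernel, _, _, _, _, _, _, _, _, _, _, _, _, _, _, e56, f56⟩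
  · exact ⟨by decide +kernel, _, _, _, _, _, _, _, _, _, _, _, _, _, _, e57, f57⟩
  · exact ⟨by decide +kernel, _, _, _, _, _, _, _, _, _, _, _, _, _, _, e58, f58⟩
  · exact ⟨by decide +kernel, _, _, _, _, _, _, _, _, _, _, _, _, _, _, e59, f59⟩
  · exact ⟨by decide +kernel, _, _, _, _, _, _, _, _, _, _, _, _, _, _, e60, f60⟩
  · exact ⟨by decide +kernel, _, _, _, _, _, _, _, _, _, _, _, _, _, _, e61, f61⟩
  · exact ⟨by decide +kernel, _, _, _, _, _, _, _, _, _, _, _, _, _, _, e62, f62⟩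
  · exact ⟨by decide +kernel, _, _, _, _, _, _, _, _, _, _, _, _, _, _, e63, f63⟩
  · exact ⟨by decide +kernel, _, _, _, _, _, _, _, _, _, _, _, _, _, _, e65, f65⟩
  · exact ⟨by decide +kernel, _, _, _, _, _, _, _, _, _, _, _, _, _, _, e66, f66⟩
  · exact ⟨by decide +kernel, _, _, _, _, _, _, _, _, _, _, _, _, _, _, e67, f67⟩
  · exact ⟨by decide +kernel, _, _, _, _, _, _, _, _, _, _, _, _, _, _, e68, f68⟩
  · exact ⟨by decide +kernel, _, _, _, _, _, _, _, _, _, _, _, _, _, _, e69, f69⟩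
  · exact ⟨by decide +kernel, _, _, _, _, _, _, _, _, _, _, _, _, _, _, e70, f70⟩
  · exact ⟨by decide +kernel, _, _, _, _, _, _, _, _, _, _, _, _, _, _, e71, f71⟩
  · exact ⟨by decide +kernel, _, _, _, _, _, _, _, _, _, _, _, _, _, _, e72, f72⟩
  · exact ⟨by decide +kernel, _, _, _, _, _, _, _, _, _, _, _, _, _, _, e73, f73⟩
  · exact ⟨by decide +kernel, _, _, _, _, _, _, _, _, _, _, _, _, _, _, e74, f74⟩
  · exact ⟨by decide +kernel, _, _, _, _, _, _, _, _, _, _, _, _, _, _, e75, f75⟩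
  · exact ⟨by decide +kernel, _, _, _, _, _, _, _, _, _, _, _, _, _, _, e76, f76⟩
  · exact ⟨by decide +kernel, _, _, _, _, _, _, _, _, _, _, _, _, _, _, e77, f77⟩
  · exact ⟨by decide +kernel, _, _, _, _, _, _, _, _, _, _, _, _, _, _, e78, f78⟩
  · exact ⟨by decide +kernel, _, _, _, _, _, _, _, _, _, _, _, _, _, _, e79, f79⟩
  · exact ⟨by decide +kernel, _, _, _, _, _, _, _, _, _, _, _, _, _, _, e80, f80⟩
  · exact ⟨by decide +kernel, _, _, _, _, _, _, _, _, _, _, _, _, _, _, e82, f82⟩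
  · exact ⟨by decide +kernel, _, _, _, _, _, _, _, _, _, _, _, _, _, _, e83, f83⟩
  · exact ⟨by decide +kernel, _, _, _, _, _, _, _, _, _, _, _, _, _, _, e84, f84⟩
  · exact ⟨by decide +kernel, _, _, _, _, _, _, _, _, _, _, _, _, _, _, e85, f85⟩
  · exact ⟨by decide +kernel, _, _, _, _, _, _, _, _, _, _, _, _, _, _, e86, f86⟩
  · exact ⟨by decide +kernel, _, _, _, _, _, _, _, _, _, _, _, _, _, _, e87, f87⟩
  · exact ⟨by decide +kernel, _, _, _, _, _, _, _, _, _, _, _, _, _, _, e88, f88⟩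
  · exact ⟨by decide +kernel, _, _, _, _, _, _, _, _, _, _, _, _, _, _, e89, f89⟩
  · exact ⟨by decide +kernel, _, _, _, _, _, _, _, _, _, _, _, _, _, _, e90, f90⟩
  · exact ⟨by decide +kernel, _, _, _, _, _, _, _, _, _, _, _, _, _, _, e91, f91⟩
  · exact ⟨by decide +kernel, _, _, _, _, _, _, _, _, _, _, _, _, _, _, e92, f92⟩
  · exact ⟨by decide +kernel, _, _, _, _, _, _, _, _, _, _, _, _, _, _, e93, f93⟩
  · exact ⟨by decide +kernel, _, _, _, _, _, _, _, _, _, _, _, _, _, _, e94, f94⟩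
  · exact ⟨by decide +kernel, _, _, _, _, _, _, _, _, _, _, _, _, _, _, e95, f95⟩
  · exact ⟨by decide +kernel, _, _, _, _, _, _, _, _, _, _, _, _, _, _, e96, f96⟩
  · exact ⟨by decide +kernel, _, _, _, _, _, _, _, _, _, _, _, _, _, _, e97, f97⟩
  · exact ⟨by decide +kernel, _, _, _, _, _, _, _, _, _, _, _, _, _, _, e98, f98⟩
  · exact ⟨by decide +kernel, _, _, _, _, _, _, _, _, _, _, _, _, _, _, e99, f99⟩

end Pool.Agent.K7.H2.RR
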